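import Pool.Agent.H42.AP.Defs

set_option autoImplicit false

/-! CNT (helper51): vectors of integers with small radicals. -/

namespace Pool.Agent.H42.AP

namespace CNTaux

open Finset

/-- the product of the prime factors outside `T` -/
def rad (T : Finset ℕ) (m : ℕ) : ℕ := ∏ p ∈ m.primeFactors \ T, p

lemma rad_pos (T : Finset ℕ) (m : ℕ) : 1 ≤ rad T m :=
  Finset.prod_pos fun _ hp => (Nat.prime_of_mem_primeFactors (mem_sdiff.1 hp).1).pos

lemma rad_le (T : Finset ℕ) {m : ℕ} (hm : m ≠ 0) : rad T m ≤ m :=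
  Nat.le_of_dvd (Nat.pos_of_ne_zero hm)
    ((Finset.prod_dvd_prod_of_subset _ _ _ sdiff_subset).trans (Nat.prod_primeFactors_dvd m))

/-- the possible values of one coordinate -/
noncomputable def box {s : ℕ} (T : Finset ℕ) (I : Finset (Fin s)) (N : ℕ) (r : Fin s → ℕ)
    (j : Fin s) : Finset ℤ :=
  if j ∈ I then
    ((Icc 1 N).filter (fun m => ∏ p ∈ m.primeFactors \ T, p = r j)).image (fun m : ℕ => (m : ℤ)) ∪
      ((Icc 1 N).filter (fun m => ∏ p ∈ m.primeFactors \ T, p = r j)).image (fun m : ℕ => -(m : ℤ))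
  else Icc (-(N : ℤ)) N

lemma box_card {s : ℕ} {T : Finset ℕ} (I : Finset (Fin s)) {N : ℕ} (r : Fin s → ℕ) (j : Fin s)
    {C δ X : ℝ} (hC : 1 ≤ C) (hδ : 0 < δ) (hN : 1 ≤ N) (hX : (N : ℝ) ≤ X)
    (h : ∀ r : ℕ, (((Icc 1 N).filter (fun m => ∏ p ∈ m.primeFactors \ T, p = r)).card : ℝ) ≤
      C * (N : ℝ) ^ δ) :
    ((box T I N r j).card : ℝ) ≤ 3 * C * X ^ (if j ∈ I then δ else 1) := by
  have hN' : (1 : ℝ) ≤ N := by exact_mod_cast hN
  unfold box
  split_ifs with hj
  · have h1 := h (r j)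
    have h2 : (N : ℝ) ^ δ ≤ X ^ δ := Real.rpow_le_rpow (by positivity) hX hδ.le
    have h3 := (card_union_le
      (((Icc 1 N).filter (fun m => ∏ p ∈ m.primeFactors \ T, p = r j)).image (fun m : ℕ => (m : ℤ)))
      (((Icc 1 N).filter (fun m => ∏ p ∈ m.primeFactors \ T, p = r j)).image
        (fun m : ℕ => -(m : ℤ)))).trans (Nat.add_le_add card_image_le card_image_le)
    have h4 : ((((Icc 1 N).filter (fun m => ∏ p ∈ m.primeFactors \ T, p = r j)).image
        (fun m : ℕ => (m : ℤ)) ∪ ((Icc 1 N).filter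
          (fun m => ∏ p ∈ m.primeFactors \ T, p = r j)).image (fun m : ℕ => -(m : ℤ))).card : ℝ) ≤
        (((Icc 1 N).filter (fun m => ∏ p ∈ m.primeFactors \ T, p = r j)).card : ℝ) +
        (((Icc 1 N).filter (fun m => ∏ p ∈ m.primeFactors \ T, p = r j)).card : ℝ) := by
      exact_mod_cast h3
    have h5 : C * (N : ℝ) ^ δ ≤ C * X ^ δ := mul_le_mul_of_nonneg_left h2 (by linarith)
    have h6 : 0 ≤ C * X ^ δ := mul_nonneg (by linarith) (Real.rpow_nonneg (by linarith) _)
    linarith
  · rw [Int.card_Icc, Real.rpow_one]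
    have h1 : ((N : ℤ) + 1 - -(N : ℤ)).toNat = 2 * N + 1 := by omega
    rw [h1]
    push_cast
    nlinarith

lemma mem_box {s : ℕ} {T : Finset ℕ} {I : Finset (Fin s)} {N : ℕ} {r : Fin s → ℕ} {j : Fin s}
    {w : ℤ} (h0 : w ≠ 0) (hw : w.natAbs ≤ N) (hr : j ∈ I → r j = rad T w.natAbs) :
    w ∈ box T I N r j := by
  unfold box
  split_ifs with hj
  · have h1 : w.natAbs ∈ (Icc 1 N).filter (fun m => ∏ p ∈ m.primeFactors \ T, p = r j) := by
      rw [mem_filter, mem_Icc]
      exact ⟨⟨Int.natAbs_pos.2 h0, hw⟩, (hr hj).symm⟩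
    rw [mem_union, mem_image, mem_image]
    rcases Int.natAbs_eq w with h | h
    · exact Or.inl ⟨_, h1, h.symm⟩
    · exact Or.inr ⟨_, h1, h.symm⟩
  · rw [mem_Icc]
    omega

end CNTaux

open CNTaux in
theorem cnt (h1 : S_RAD) (h2 : S_TUP) : S_CNT := by
  classical
  intro s I T δ D hδ hD
  set e : ℝ := δ / (2 * ((s : ℝ) + 1)) with he
  have hs0 : (0 : ℝ) ≤ s := Nat.cast_nonneg s
  have he0 : 0 < e := by positivity
  have hes : 2 * (s : ℝ) * e ≤ δ := by
    rw [he]
    rw [mul_div_assoc', div_le_iff₀ (by positivity)]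
    nlinarith
  obtain ⟨C₁, hC₁, hR⟩ := h1 T e he0
  obtain ⟨C₂, hC₂, hT⟩ := h2 s e he0
  set E : ℝ := (s : ℝ) - I.card + δ with hE
  have hIs : (I.card : ℝ) ≤ s := by
    have := card_finset_fin_le I
    exact_mod_cast this
  have hE0 : 0 ≤ E := by linarith
  have hDE : 1 ≤ D ^ E := Real.one_le_rpow hD hE0
  have h3C : 1 ≤ (3 * C₁) ^ s := one_le_pow₀ (by linarith)
  refine ⟨C₂ * (3 * C₁) ^ s * D ^ E, ?_, ?_⟩
  · have h3 : 1 ≤ C₂ * (3 * C₁) ^ s := by nlinarith
    nlinarith
  intro Y L hY hL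
  set X : ℝ := D * Y with hX
  have hX1 : 1 ≤ X := by nlinarith
  set N : ℕ := ⌊X⌋₊ with hN
  have hN1 : 1 ≤ N := (Nat.one_le_floor_iff X).2 hX1
  have hNX : (N : ℝ) ≤ X := Nat.floor_le (by linarith)
  set R : ℝ := min (Real.exp L) (X ^ s) with hRdef
  have hR1 : 1 ≤ R := le_min (Real.one_le_exp hL) (one_le_pow₀ hX1)
  obtain ⟨hfin, hcard⟩ := hT R hR1
  set Rf : Finset (Fin s → ℕ) := hfin.toFinset with hRf
  set B : Finset (Fin s → ℤ) := Rf.biUnion fun r => Fintype.piFinset (box T I N r) with hB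
  have hsub : {w : Fin s → ℤ | (∀ j, w j ≠ 0 ∧ |(w j : ℝ)| ≤ D * Y) ∧
      ∑ j ∈ I, ∑ p ∈ (w j).natAbs.primeFactors \ T, Real.log p ≤ L} ⊆ (B : Set (Fin s → ℤ)) := by
    rintro w ⟨hw, hwL⟩
    have hnat : ∀ j, (w j).natAbs ≤ N := by
      intro j
      refine Nat.le_floor ?_
      have h3 : (((w j).natAbs : ℕ) : ℝ) = |(w j : ℝ)| := Nat.cast_natAbs (w j) |>.trans (by simp)
      rw [h3]
      exact (hw j).2
    have hne : ∀ j, (w j).natAbs ≠ 0 := fun j => Int.natAbs_ne_zero.2 (hw j).1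
    rw [Finset.mem_coe, hB, Finset.mem_biUnion]
    refine ⟨fun j => if j ∈ I then rad T (w j).natAbs else 1, ?_, ?_⟩
    · rw [hRf, Set.Finite.mem_toFinset]
      refine ⟨fun j => ?_, le_min ?_ ?_⟩
      · show 1 ≤ (if j ∈ I then rad T (w j).natAbs else 1)
        split_ifs
        · exact rad_pos T _
        · exact le_rfl
      · rw [Finset.prod_ite_mem, Finset.univ_inter]
        have h3 : (∏ j ∈ I, (rad T (w j).natAbs : ℕ) : ℝ) =
            Real.exp (∑ j ∈ I, ∑ p ∈ (w j).natAbs.primeFactors \ T, Real.log p) := by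
          rw [Real.exp_sum]
          refine Finset.prod_congr rfl fun j _ => ?_
          rw [Real.exp_sum, rad]
          push_cast
          refine Finset.prod_congr rfl fun p hp => ?_
          have := (Nat.prime_of_mem_primeFactors (Finset.mem_sdiff.1 hp).1).pos
          rw [Real.exp_log (by exact_mod_cast this)]
        push_cast
        rw [h3]
        exact Real.exp_le_exp.2 hwL
      · push_cast
        calc ∏ j, ((if j ∈ I then (rad T (w j).natAbs : ℝ) else 1))
            ≤ ∏ _j : Fin s, X := by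
              refine Finset.prod_le_prod (fun j _ => ?_) fun j _ => ?_
              · split_ifs <;> positivity
              · split_ifs
                · have h3 : (rad T (w j).natAbs : ℝ) ≤ N := by
                    exact_mod_cast (rad_le T (hne j)).trans (hnat j)
                  exact h3.trans hNX
                · exact hX1
          _ = X ^ s := by simp
    · rw [Fintype.mem_piFinset]
      intro j
      refine mem_box (hw j).1 (hnat j) fun hj => ?_
      show (if j ∈ I then rad T (w j).natAbs else 1) = _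
      rw [if_pos hj]
  refine ⟨B.finite_toSet.subset hsub, ?_⟩
  have hc1 : (B.card : ℝ) ≤ ∑ r ∈ Rf, ((Fintype.piFinset (box T I N r)).card : ℝ) := by
    exact_mod_cast Finset.card_biUnion_le
  have hc2 : ∀ r ∈ Rf, ((Fintype.piFinset (box T I N r)).card : ℝ) ≤
      (3 * C₁) ^ s * X ^ (((s : ℝ) - I.card) + s * e) := by
    intro r _
    rw [Fintype.card_piFinset]
    push_cast
    calc ∏ j, ((box T I N r j).card : ℝ)
        ≤ ∏ j : Fin s, (3 * C₁ * X ^ (if j ∈ I then e else 1)) :=
          Finset.prod_le_prod (fun j _ => Nat.cast_nonneg _) fun j _ =>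
            box_card I r j hC₁ he0 hN1 hNX fun r => hR N r hN1
      _ = (3 * C₁) ^ s * X ^ (∑ j : Fin s, (if j ∈ I then e else (1 : ℝ))) := by
          rw [Finset.prod_mul_distrib, Real.rpow_sum_of_pos (by linarith)]
          simp
      _ ≤ (3 * C₁) ^ s * X ^ (((s : ℝ) - I.card) + s * e) := by
          refine mul_le_mul_of_nonneg_left ?_ (by positivity)
          refine Real.rpow_le_rpow_of_exponent_le hX1 ?_
          rw [Finset.sum_ite]
          simp only [Finset.sum_const, nsmul_eq_mul, mul_one]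
          have h3 : (Finset.univ.filter (fun j : Fin s => j ∈ I)) = I := by
            ext j; simp
          have h4 : ((Finset.univ.filter (fun j : Fin s => ¬ j ∈ I)).card : ℝ) =
              (s : ℝ) - I.card := by
            have h5 := Finset.card_filter_add_card_filter_not (s := (Finset.univ : Finset (Fin s)))
              (fun j : Fin s => j ∈ I)
            rw [h3] at h5
            simp only [Finset.card_univ, Fintype.card_fin] at h5
            have h6 : ((I.card + (Finset.univ.filter (fun j : Fin s => ¬ j ∈ I)).card : ℕ) : ℝ) =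
                (s : ℝ) := by exact_mod_cast h5
            push_cast at h6
            linarith
          rw [h3, h4]
          nlinarith
  have hRX : R ^ (1 + e) ≤ Real.exp L * X ^ ((s : ℝ) * e) := by
    rw [Real.rpow_add (by linarith), Real.rpow_one]
    have h3 : R ^ e ≤ X ^ ((s : ℝ) * e) := by
      rw [Real.rpow_mul (by linarith), Real.rpow_natCast]
      exact Real.rpow_le_rpow (by linarith) (min_le_right _ _) he0.le
    exact mul_le_mul (min_le_left _ _) h3 (by positivity) (by positivity)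
  have hXp : 0 < X := by linarith
  have hncard : (Rf.card : ℝ) ≤ C₂ * R ^ (1 + e) := by
    rw [hRf, ← Set.ncard_eq_toFinset_card _ hfin]
    exact hcard
  calc ({w : Fin s → ℤ | (∀ j, w j ≠ 0 ∧ |(w j : ℝ)| ≤ D * Y) ∧
      ∑ j ∈ I, ∑ p ∈ (w j).natAbs.primeFactors \ T, Real.log p ≤ L}.ncard : ℝ) ≤ (B.card : ℝ) := by
        have h3 := Set.ncard_le_ncard hsub B.finite_toSet
        rw [Set.ncard_coe_finset] at h3
        exact_mod_cast h3
    _ ≤ ∑ r ∈ Rf, ((Fintype.piFinset (box T I N r)).card : ℝ) := hc1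
    _ ≤ ∑ _r ∈ Rf, (3 * C₁) ^ s * X ^ (((s : ℝ) - I.card) + s * e) := Finset.sum_le_sum hc2
    _ = Rf.card * ((3 * C₁) ^ s * X ^ (((s : ℝ) - I.card) + s * e)) := by
        rw [Finset.sum_const, nsmul_eq_mul]
    _ ≤ (C₂ * (Real.exp L * X ^ ((s : ℝ) * e))) *
          ((3 * C₁) ^ s * X ^ (((s : ℝ) - I.card) + s * e)) := by
        refine mul_le_mul_of_nonneg_right ?_ (by positivity)
        exact hncard.trans (mul_le_mul_of_nonneg_left hRX (by linarith))
    _ = C₂ * (3 * C₁) ^ s * Real.exp L * (X ^ ((s : ℝ) * e) *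
          X ^ (((s : ℝ) - I.card) + s * e)) := by ring
    _ = C₂ * (3 * C₁) ^ s * Real.exp L * X ^ ((s : ℝ) - I.card + 2 * s * e) := by
        rw [← Real.rpow_add hXp]
        congr 2
        ring
    _ ≤ C₂ * (3 * C₁) ^ s * Real.exp L * X ^ E := by
        refine mul_le_mul_of_nonneg_left ?_ (by positivity)
        refine Real.rpow_le_rpow_of_exponent_le hX1 ?_
        rw [hE]
        linarith
    _ = C₂ * (3 * C₁) ^ s * D ^ E * Real.exp L * Y ^ E := by
        rw [hX, Real.mul_rpow (by linarith) (by linarith)]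
        ring

end Pool.Agent.H42.AP
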