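import Pool.Agent.H42.AP.Defs

/-!
Stub DEN (helper69): assembly of the properties of the denominator.
-/

set_option autoImplicit false

open NumberField IsDedekindDomain Polynomial

namespace Pool.Agent.H42.AP

namespace DENaux

variable {K : Type} [Field K] [NumberField K]

open Classical in
/-- the truncated counting function as a finite sum -/
lemma N1_eq (T : Finset ℕ) (a b : ℤ) (y : K) (J : Ideal (𝓞 K))
    (hc : ∀ v : HeightOneSpectrum (𝓞 K), Close a b y v ↔ J ≤ v.asIdeal)
    (hf : {v : HeightOneSpectrum (𝓞 K) | J ≤ v.asIdeal}.Finite) :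
    N1 T a b y = ∑ v ∈ hf.toFinset.filter (fun v => Off T v),
        Real.log (Ideal.absNorm v.asIdeal) := by
  unfold N1
  rw [finsum_eq_sum_of_support_subset (s := hf.toFinset)]
  · rw [Finset.sum_filter]
    refine Finset.sum_congr rfl fun v hv => ?_
    have h1 : Close a b y v := by
      rw [hc v]
      simpa using hv
    by_cases h : Off T v
    · rw [if_pos ⟨h1, h⟩, if_pos h]
    · rw [if_neg (fun h' => h h'.2), if_neg h]
  · intro v hv
    rw [Function.mem_support] at hv
    have h1 : Close a b y v := by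
      by_contra hcon
      exact hv (if_neg (fun h => hcon h.1))
    simpa using (hc v).1 h1

lemma log_nonneg' (v : HeightOneSpectrum (𝓞 K)) : 0 ≤ Real.log (Ideal.absNorm v.asIdeal) := by
  rcases Nat.eq_zero_or_pos (Ideal.absNorm v.asIdeal) with h | h
  · rw [h]; simp
  · exact Real.log_nonneg (by exact_mod_cast h)

end DENaux

open DENaux in
theorem den (h1 : S_DEN1) (h2 : S_DEN2) (h3 : S_DEN3) : S_DEN := by
  classical
  intro K _ _ y
  obtain ⟨n, hn, hht, hJ⟩ := h1 K y
  have habs : ∀ (a b m : ℤ) (J : Ideal (𝓞 K)), IsVal n y a b m →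
      (n : ℚ) * |Algebra.norm ℚ ((b : K) * y - a)| = (Ideal.absNorm J : ℕ) →
      m.natAbs = Ideal.absNorm J := by
    intro a b m J hm h
    have h4 : (|m| : ℚ) = (Ideal.absNorm J : ℕ) := by
      rw [← h, hm, abs_mul, abs_of_nonneg (by positivity : (0 : ℚ) ≤ n)]
    have h5 : (m.natAbs : ℚ) = (Ideal.absNorm J : ℕ) := by
      rw [Nat.cast_natAbs, ← h4]
      push_cast
      rfl
    exact_mod_cast h5
  refine ⟨n, hn, hht, ?_, ?_, ?_, ?_, ?_⟩
  · -- val
    intro a b hab
    by_cases hb : (b : K) * y = a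
    · refine ⟨0, ?_⟩
      unfold IsVal
      rw [hb, sub_self, Algebra.norm_zero]
      simp
    · obtain ⟨J, -, hN, -⟩ := hJ a b hab hb
      rcases abs_cases (Algebra.norm ℚ ((b : K) * y - a)) with ⟨h, -⟩ | ⟨h, -⟩
      · refine ⟨(Ideal.absNorm J : ℤ), ?_⟩
        unfold IsVal
        rw [h] at hN
        rw [hN]
        push_cast
        rfl
      · refine ⟨-(Ideal.absNorm J : ℤ), ?_⟩
        unfold IsVal
        rw [h] at hN
        have h5 : (n : ℚ) * Algebra.norm ℚ ((b : K) * y - a) = -(Ideal.absNorm J : ℕ) := by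
          rw [← hN]; ring
        rw [h5]
        push_cast
        rfl
  · -- bd
    intro a b m hab hm
    have h4 : |(m : ℝ)| = n * (|(Algebra.norm ℚ ((b : K) * y - a) : ℚ)| : ℝ) := by
      have h5 : (m : ℝ) = n * ((Algebra.norm ℚ ((b : K) * y - a) : ℚ) : ℝ) := by
        have h6 : (m : ℚ) = n * Algebra.norm ℚ ((b : K) * y - a) := hm
        exact_mod_cast congrArg (fun q : ℚ => (q : ℝ)) h6
      rw [h5, abs_mul, abs_of_nonneg (by positivity : (0 : ℝ) ≤ n)]
    rw [h4, hht]
    have h5 := h3 K y a b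
    have hn0 : (0 : ℝ) ≤ n := by positivity
    calc (n : ℝ) * (|(Algebra.norm ℚ ((b : K) * y - a) : ℚ)| : ℝ)
        ≤ n * ((|(a : ℝ)| + |(b : ℝ)|) ^ Module.finrank ℚ K *
          ∏ v : InfinitePlace K, (max 1 (v y)) ^ v.mult) := mul_le_mul_of_nonneg_left h5 hn0
      _ = _ := by ring
  · -- low
    intro a b m hab hb hm
    obtain ⟨J, hJ0, hN, hc⟩ := hJ a b hab hb
    obtain ⟨hf, -, hlow, -⟩ := h2 K J hJ0
    have hmJ := habs a b m J hm hN
    refine ⟨?_, ?_⟩
    · intro h0
      rw [h0, Int.natAbs_zero] at hmJ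
      exact hJ0 (Ideal.absNorm_eq_zero_iff.1 hmJ.symm)
    · intro T
      rw [hmJ, N1_eq T a b y J hc hf]
      convert hlow T
  · -- up
    intro a b m hab hb hm T p k hp hpm
    obtain ⟨J, hJ0, hN, hc⟩ := hJ a b hab hb
    obtain ⟨hf, -, -, hup⟩ := h2 K J hJ0
    have hmJ := habs a b m J hm hN
    have hpk : p ^ k ∣ Ideal.absNorm J := by
      rw [← hmJ]
      have h5 : ((p ^ k : ℕ) : ℤ) ∣ m := by exact_mod_cast hpm
      exact Int.natCast_dvd.1 h5
    have h4 := hup p k hp hpk
    have h5 : |(m : ℝ)| = (Ideal.absNorm J : ℕ) := by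
      rw [← hmJ, Nat.cast_natAbs]
      push_cast
      rfl
    rw [h5]
    refine le_trans ?_ h4
    rw [N1_eq T a b y J hc hf]
    exact Finset.sum_le_sum_of_subset_of_nonneg (Finset.filter_subset _ _)
      (fun v _ _ => log_nonneg' v)
  · -- pr
    intro a b m hab hb hm p hp hpm
    obtain ⟨J, hJ0, hN, hc⟩ := hJ a b hab hb
    obtain ⟨-, hpr, -, -⟩ := h2 K J hJ0
    have hmJ := habs a b m J hm hN
    have hpJ : p ∣ Ideal.absNorm J := by
      rw [← hmJ]
      exact Int.natCast_dvd.1 hpm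
    obtain ⟨v, hv1, hv2⟩ := hpr p hp hpJ
    exact ⟨v, (hc v).2 hv1, hv2⟩

end Pool.Agent.H42.AP
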