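import Pool.Agent.H42.AP.Defs

/-! # DEN1: the denominator and the ideals -/

set_option autoImplicit false

open NumberField IsDedekindDomain Polynomial

namespace Pool.Agent.H42.AP.DEN1

variable {K : Type} [Field K] [NumberField K]

lemma fp_le_one (v : HeightOneSpectrum (𝓞 K)) (x : 𝓞 K) : FinitePlace.mk v (x : K) ≤ 1 :=
  FinitePlace.norm_le_one K v x

lemma fp_lt (v : HeightOneSpectrum (𝓞 K)) (x : 𝓞 K) : FinitePlace.mk v (x : K) < 1 ↔ x ∈ v.asIdeal :=
  FinitePlace.norm_lt_one_iff_mem K v x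

lemma fp_eq (v : HeightOneSpectrum (𝓞 K)) (x : 𝓞 K) : FinitePlace.mk v (x : K) = 1 ↔ x ∉ v.asIdeal :=
  FinitePlace.norm_eq_one_iff_notMem K v x

lemma norm_nat (n : ℕ) : Algebra.norm ℚ (n : K) = (n : ℚ) ^ Module.finrank ℚ K := by
  have h := Algebra.norm_algebraMap (R := ℚ) (S := K) (n : ℚ)
  rwa [map_natCast] at h

/-- the finite part of the height -/
lemma fin_part {n : ℕ} (hn : n ≠ 0) {y : K} {c : 𝓞 K} (hc : (n : K) * y = c)
    (hI : Ideal.absNorm (Ideal.span {(n : 𝓞 K), c}) = n ^ (Module.finrank ℚ K - 1)) :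
    ∏ᶠ v : FinitePlace K, max (v y) 1 = n := by
  have hnK : (n : K) ≠ 0 := by exact_mod_cast hn
  have hnR : (n : ℝ) ≠ 0 := by exact_mod_cast hn
  have h1 := absNorm_mul_finprod_finitePlace_eq_one (K := K) (x := ![c, (n : 𝓞 K)]) (by simp [hn])
  have hr : Set.range ![c, (n : 𝓞 K)] = {(n : 𝓞 K), c} := by
    rw [Matrix.range_cons, Matrix.range_cons, Matrix.range_empty, Set.union_empty, Set.union_comm]
    rfl
  rw [hr, hI] at h1
  have h2 : ∏ᶠ v : FinitePlace K, v (n : K) = ((n : ℝ) ^ Module.finrank ℚ K)⁻¹ := by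
    rw [FinitePlace.prod_eq_inv_abs_norm hnK, norm_nat]
    rw [abs_of_nonneg (by positivity)]
    push_cast
    rfl
  have h3 : ∀ v : FinitePlace K, (⨆ i, v ((![c, (n : 𝓞 K)] i : 𝓞 K) : K)) = max (v y) 1 * v (n : K) := by
    intro v
    have hv : 0 < v (n : K) := FinitePlace.pos_iff.2 hnK
    have e1 : (⨆ i, v ((![c, (n : 𝓞 K)] i : 𝓞 K) : K)) = max (v (c : K)) (v (n : K)) := by
      apply le_antisymm
      · refine ciSup_le fun i => ?_
        fin_cases i
        · exact le_max_left _ _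
        · simp
      · refine max_le ?_ ?_
        · exact Finite.le_ciSup_of_le 0 le_rfl
        · exact Finite.le_ciSup_of_le 1 (by simp)
    rw [e1, ← hc, map_mul, max_mul_of_nonneg _ _ hv.le, one_mul, mul_comm]
  simp_rw [h3] at h1
  have hf1 : Function.HasFiniteMulSupport (fun v : FinitePlace K => max (v y) 1) := by
    by_cases hy : y = 0
    · subst hy
      simp only [map_zero, zero_le_one, sup_of_le_right]
      exact Function.hasFiniteMulSupport_one
    · exact (FinitePlace.hasFiniteMulSupport hy).max Function.hasFiniteMulSupport_one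
  rw [finprod_mul_distrib hf1 (FinitePlace.hasFiniteMulSupport hnK), h2] at h1
  have hd : 0 < Module.finrank ℚ K := Module.finrank_pos
  obtain ⟨e, he⟩ : ∃ e, Module.finrank ℚ K = e + 1 := ⟨Module.finrank ℚ K - 1, by omega⟩
  rw [he] at h1
  simp only [Nat.add_sub_cancel, Nat.cast_pow] at h1
  rw [pow_succ, mul_inv] at h1
  field_simp at h1
  linarith

/-- elements of `I v` -/
lemma lt_of_mem {I : Ideal (𝓞 K)} (v : HeightOneSpectrum (𝓞 K)) {μ : ℝ} (hμ : 0 < μ)
    (hI : ∀ x ∈ I, FinitePlace.mk v (x : K) ≤ μ) {z : 𝓞 K} (hz : z ∈ I * v.asIdeal) :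
    FinitePlace.mk v (z : K) < μ := by
  refine Submodule.mul_induction_on hz ?_ ?_
  · intro x hx t ht
    have h1 := hI x hx
    have h2 := (fp_lt v t).2 ht
    have h3 : FinitePlace.mk v ((x * t : 𝓞 K) : K) = FinitePlace.mk v (x : K) * FinitePlace.mk v (t : K) := by
      rw [← map_mul]; congr 1
    rw [h3]
    have h4 : 0 ≤ FinitePlace.mk v (x : K) := apply_nonneg _ _
    have h5 : 0 ≤ FinitePlace.mk v (t : K) := apply_nonneg _ _
    calc FinitePlace.mk v (x : K) * FinitePlace.mk v (t : K) ≤ μ * FinitePlace.mk v (t : K) :=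
          mul_le_mul_of_nonneg_right h1 h5
      _ < μ * 1 := mul_lt_mul_of_pos_left h2 hμ
      _ = μ := mul_one _
  · intro x y hx hy
    have h := FinitePlace.add_le (FinitePlace.mk v) (x : K) (y : K)
    have e : ((x + y : 𝓞 K) : K) = (x : K) + (y : K) := rfl
    rw [e]
    exact h.trans_lt (max_lt hx hy)

theorem main : S_DEN1 := by
  intro K _ _ y
  obtain ⟨n, hn, c, hc, hI⟩ := exists_nat_ne_zero_exists_integer_mul_eq_and_absNorm_span_eq_pow y
  have hnK : (n : K) ≠ 0 := by exact_mod_cast hn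
  have hfin := fin_part hn hc hI
  refine ⟨n, Nat.pos_of_ne_zero hn, ?_, ?_⟩
  · rw [mulHeight₁_eq, hfin, mul_comm]
    congr 1
    refine Finset.prod_congr rfl fun v _ => ?_
    rw [max_comm]
  intro a b hab hne
  set I : Ideal (𝓞 K) := Ideal.span {(n : 𝓞 K), c} with hIdef
  have hnI : (n : 𝓞 K) ∈ I := Ideal.subset_span (by simp)
  have hcI : c ∈ I := Ideal.subset_span (by simp)
  set w : 𝓞 K := (b : 𝓞 K) * c - (a : 𝓞 K) * n with hw
  have hwI : w ∈ I := I.sub_mem (I.mul_mem_left _ hcI) (I.mul_mem_left _ hnI)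
  have hwK : (w : K) = n * ((b : K) * y - a) := by
    have e : (w : K) = (b : K) * (c : K) - (a : K) * n := by
      rw [hw]
      push_cast
      rfl
    rw [e, ← hc]
    ring
  have hby : (b : K) * y - a ≠ 0 := sub_ne_zero.2 hne
  have hw0 : w ≠ 0 := by
    intro h
    have h1 : (w : K) = 0 := by rw [h]; rfl
    rw [hwK] at h1
    exact (mul_ne_zero hnK hby) h1
  obtain ⟨J, hJ⟩ : I ∣ Ideal.span {w} := by
    rw [Ideal.dvd_iff_le, Ideal.span_singleton_le_iff_mem]
    exact hwI
  have hJ0 : J ≠ ⊥ := by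
    rintro rfl
    rw [Ideal.mul_bot] at hJ
    exact hw0 (Ideal.span_singleton_eq_bot.1 hJ)
  refine ⟨J, hJ0, ?_, ?_⟩
  · have h1 := congrArg Ideal.absNorm hJ
    rw [map_mul, hI, Ideal.absNorm_span_singleton] at h1
    have h2 : ((Algebra.norm ℤ w : ℤ) : ℚ) = Algebra.norm ℚ (w : K) := Algebra.coe_norm_int w
    have h3 : (((Algebra.norm ℤ w).natAbs : ℕ) : ℚ) = |Algebra.norm ℚ (w : K)| := by
      rw [← h2, Nat.cast_natAbs, Int.cast_abs]
    have h4 : (((Algebra.norm ℤ w).natAbs : ℕ) : ℚ) =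
        ((n ^ (Module.finrank ℚ K - 1) * Ideal.absNorm J : ℕ) : ℚ) := by rw [h1]
    rw [h3, hwK, map_mul, norm_nat, abs_mul] at h4
    have hd : 0 < Module.finrank ℚ K := Module.finrank_pos
    obtain ⟨e, he⟩ : ∃ e, Module.finrank ℚ K = e + 1 := ⟨Module.finrank ℚ K - 1, by omega⟩
    rw [he] at h4
    simp only [Nat.add_sub_cancel] at h4
    push_cast at h4
    rw [abs_of_nonneg (by positivity : (0 : ℚ) ≤ (n : ℚ) ^ (e + 1)), pow_succ, mul_assoc] at h4
    have hn' : (n : ℚ) ^ e ≠ 0 := pow_ne_zero _ (by exact_mod_cast hn)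
    exact mul_left_cancel₀ hn' h4
  · intro v
    have hvn : 0 < FinitePlace.mk v (n : K) := FinitePlace.pos_iff.2 hnK
    have hclose : Close a b y v ↔ FinitePlace.mk v (w : K) <
        max (FinitePlace.mk v (n : K)) (FinitePlace.mk v (c : K)) := by
      unfold Close
      rw [hwK, map_mul, ← hc, map_mul]
      rw [← mul_lt_mul_iff_right₀ hvn, mul_max_of_nonneg _ _ hvn.le, mul_one]
    rw [hclose]
    constructor
    · intro h
      by_contra hcon
      obtain ⟨j, hjJ, hjv⟩ := SetLike.not_le_iff_exists.1 hcon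
      have hj1 := (fp_eq v j).2 hjv
      have key : ∀ x ∈ I, FinitePlace.mk v (x : K) ≤ FinitePlace.mk v (w : K) := by
        intro x hx
        have h1 : x * j ∈ Ideal.span {w} := by
          rw [hJ]
          exact Ideal.mul_mem_mul hx hjJ
        obtain ⟨t, ht⟩ := Ideal.mem_span_singleton'.1 h1
        have h2 : (x : K) * (j : K) = (t : K) * (w : K) := by
          have := congrArg (fun z : 𝓞 K => (z : K)) ht
          simpa using this.symm
        have h3 := congrArg (FinitePlace.mk v) h2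
        rw [map_mul, map_mul, hj1, mul_one] at h3
        rw [h3]
        have h5 : 0 ≤ FinitePlace.mk v (w : K) := apply_nonneg _ _
        calc FinitePlace.mk v (t : K) * FinitePlace.mk v (w : K) ≤ 1 * FinitePlace.mk v (w : K) :=
              mul_le_mul_of_nonneg_right (fp_le_one v t) h5
          _ = _ := one_mul _
      have h6 := key (n : 𝓞 K) hnI
      have h7 := key c hcI
      have h8 : (((n : 𝓞 K)) : K) = (n : K) := by simp
      rw [h8] at h6
      exact absurd h (not_lt.2 (max_le h6 h7))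
    · intro h
      have hμ : 0 < max (FinitePlace.mk v (n : K)) (FinitePlace.mk v (c : K)) := lt_max_of_lt_left hvn
      refine lt_of_mem (I := I) v hμ ?_ ?_
      · intro x hx
        obtain ⟨α, β, hx'⟩ := Ideal.mem_span_pair.1 hx
        have e : (x : K) = (α : K) * n + (β : K) * c := by
          rw [← hx']
          push_cast
          simp
        rw [e]
        refine (FinitePlace.add_le _ _ _).trans (max_le_max ?_ ?_)
        · rw [map_mul]
          exact mul_le_of_le_one_left hvn.le (fp_le_one v α)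
        · rw [map_mul]
          exact mul_le_of_le_one_left (apply_nonneg _ _) (fp_le_one v β)
      · have h1 : w ∈ I * J := by
          rw [← hJ]
          exact Ideal.mem_span_singleton_self w
        exact Ideal.mul_mono_right h h1

end Pool.Agent.H42.AP.DEN1

theorem Pool.Agent.H42.AP.den1 : Pool.Agent.H42.AP.S_DEN1 := Pool.Agent.H42.AP.DEN1.main
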