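import Pool.Agent.H42.AP.Defs

/-! AP-DEN2 (helper10): prime factors and norms of an ideal. -/

set_option autoImplicit false

open NumberField IsDedekindDomain Polynomial

namespace Pool.Agent.H42.AP

namespace DEN2

variable {K : Type} [Field K] [NumberField K]

theorem absNorm_card (J : Ideal (𝓞 K)) : Ideal.absNorm J = Nat.card (𝓞 K ⧸ J) := by
  rw [Ideal.absNorm_apply, Submodule.cardQuot_apply]

/-- a prime factor of the norm is the residue characteristic of a prime factor -/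
theorem exists_above (J : Ideal (𝓞 K)) (hJ : J ≠ ⊥) (p : ℕ) (hp : p.Prime)
    (hd : p ∣ Ideal.absNorm J) :
    ∃ v : HeightOneSpectrum (𝓞 K), J ≤ v.asIdeal ∧ ((p : ℕ) : 𝓞 K) ∈ v.asIdeal := by
  by_cases h : J ⊔ Ideal.span {((p : ℕ) : 𝓞 K)} = ⊤
  · exfalso
    have hfin : Finite (𝓞 K ⧸ J) := by
      rw [← Ideal.absNorm_ne_zero_iff]
      rwa [Ne, Ideal.absNorm_eq_zero_iff]
    have : Fintype (𝓞 K ⧸ J) := Fintype.ofFinite _
    have : Fact p.Prime := ⟨hp⟩
    rw [absNorm_card, Nat.card_eq_fintype_card] at hd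
    obtain ⟨x, hx⟩ := exists_prime_addOrderOf_dvd_card p hd
    have h1 : (1 : 𝓞 K) ∈ J ⊔ Ideal.span {((p : ℕ) : 𝓞 K)} := by rw [h]; trivial
    obtain ⟨j, hj, y, hy, hjy⟩ := Submodule.mem_sup.1 h1
    obtain ⟨r, hr⟩ := Ideal.mem_span_singleton'.1 hy
    have h2 : (p : 𝓞 K ⧸ J) * x = 0 := by
      have := addOrderOf_nsmul_eq_zero x
      rw [hx, nsmul_eq_mul] at this
      exact this
    have h3 : (1 : 𝓞 K ⧸ J) = Ideal.Quotient.mk J r * (p : 𝓞 K ⧸ J) := by
      have h4 := congrArg (Ideal.Quotient.mk J) hjy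
      rw [map_add, Ideal.Quotient.eq_zero_iff_mem.2 hj, zero_add, ← hr, map_mul, map_natCast,
        map_one] at h4
      exact h4.symm
    have h5 : x = 0 := by
      calc x = 1 * x := (one_mul x).symm
        _ = Ideal.Quotient.mk J r * ((p : 𝓞 K ⧸ J) * x) := by rw [h3, mul_assoc]
        _ = 0 := by rw [h2, mul_zero]
    rw [h5, addOrderOf_zero] at hx
    exact hp.one_lt.ne hx
  · obtain ⟨M, hM, hle⟩ := Ideal.exists_le_maximal _ h
    refine ⟨⟨M, hM.isPrime, ?_⟩, le_sup_left.trans hle, hle (Ideal.mem_sup_right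
      (Ideal.mem_span_singleton_self _))⟩
    rintro rfl
    exact hJ (le_bot_iff.1 (le_sup_left.trans hle))

theorem prod_dvd (s : Finset (HeightOneSpectrum (𝓞 K))) (I : Ideal (𝓞 K))
    (h : ∀ v ∈ s, I ≤ v.asIdeal) : ∏ v ∈ s, v.asIdeal ∣ I := by
  refine Finset.prod_dvd_of_coprime (fun v _ w _ hvw => ?_) fun v hv => Ideal.dvd_iff_le.2 (h v hv)
  refine Ideal.isCoprime_iff_sup_eq.2 (Ideal.IsMaximal.coprime_of_ne v.isMaximal w.isMaximal ?_)
  exact fun e => hvw (HeightOneSpectrum.ext e)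

theorem absNorm_prod_dvd (s : Finset (HeightOneSpectrum (𝓞 K))) (I : Ideal (𝓞 K))
    (h : ∀ v ∈ s, I ≤ v.asIdeal) : ∏ v ∈ s, Ideal.absNorm v.asIdeal ∣ Ideal.absNorm I := by
  rw [← map_prod]
  exact map_dvd Ideal.absNorm (prod_dvd s I h)

theorem absNorm_pos' (v : HeightOneSpectrum (𝓞 K)) : 0 < Ideal.absNorm v.asIdeal := by
  rw [Nat.pos_iff_ne_zero, Ne, Ideal.absNorm_eq_zero_iff]
  exact v.ne_bot

theorem absNorm_prime (p : ℕ) : Ideal.absNorm (Ideal.span {((p : ℕ) : 𝓞 K)}) =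
    p ^ Module.finrank ℚ K := by
  rw [Ideal.absNorm_span_singleton]
  have h : ((p : ℕ) : 𝓞 K) = algebraMap ℤ (𝓞 K) (p : ℤ) := by simp
  rw [h, Algebra.norm_algebraMap, RingOfIntegers.rank, Int.natAbs_pow, Int.natAbs_natCast]

theorem sum_log (s : Finset (HeightOneSpectrum (𝓞 K))) :
    ∑ v ∈ s, Real.log (Ideal.absNorm v.asIdeal) =
      Real.log ((∏ v ∈ s, Ideal.absNorm v.asIdeal : ℕ) : ℝ) := by
  rw [Nat.cast_prod, Real.log_prod]
  intro v _
  exact_mod_cast (absNorm_pos' v).ne'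

/-- `v` contains at most one prime number -/
theorem unique_prime (v : HeightOneSpectrum (𝓞 K)) (p q : ℕ) (hp : p.Prime) (hq : q.Prime)
    (h1 : ((p : ℕ) : 𝓞 K) ∈ v.asIdeal) (h2 : ((q : ℕ) : 𝓞 K) ∈ v.asIdeal) : p = q := by
  by_contra hne
  have hc : IsCoprime (p : ℤ) (q : ℤ) :=
    Nat.isCoprime_iff_coprime.2 ((Nat.coprime_primes hp hq).2 hne)
  obtain ⟨a, b, hab⟩ := hc
  apply v.isPrime.ne_top
  rw [Ideal.eq_top_iff_one]
  have h3 : (1 : 𝓞 K) = (a : 𝓞 K) * ((p : ℕ) : 𝓞 K) + (b : 𝓞 K) * ((q : ℕ) : 𝓞 K) := by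
    exact_mod_cast congrArg (Int.cast : ℤ → 𝓞 K) hab.symm
  rw [h3]
  exact Ideal.add_mem _ (Ideal.mul_mem_left _ _ h1) (Ideal.mul_mem_left _ _ h2)

/-- the norm of `v` is divisible by the prime number in `v` -/
theorem prime_dvd (v : HeightOneSpectrum (𝓞 K)) (p : ℕ) (hp : p.Prime)
    (h : ((p : ℕ) : 𝓞 K) ∈ v.asIdeal) : p ∣ Ideal.absNorm v.asIdeal := by
  have h1 : v.asIdeal ∣ Ideal.span {((p : ℕ) : 𝓞 K)} :=
    Ideal.dvd_iff_le.2 ((Ideal.span_singleton_le_iff_mem _).2 h)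
  have h2 := map_dvd Ideal.absNorm h1
  rw [absNorm_prime] at h2
  obtain ⟨k, _, hk⟩ := (Nat.dvd_prime_pow hp).1 h2
  rw [hk]
  refine dvd_pow_self p ?_
  rintro rfl
  rw [pow_zero, Ideal.absNorm_eq_one_iff] at hk
  exact v.isPrime.ne_top hk

open Classical in
theorem den2' (J : Ideal (𝓞 K)) (hJ : J ≠ ⊥) :
  ∃ hf : {v : HeightOneSpectrum (𝓞 K) | J ≤ v.asIdeal}.Finite,
    (∀ p : ℕ, p.Prime → p ∣ Ideal.absNorm J →
      ∃ v : HeightOneSpectrum (𝓞 K), J ≤ v.asIdeal ∧ ((p : ℕ) : 𝓞 K) ∈ v.asIdeal) ∧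
    (∀ T : Finset ℕ, ∑ p ∈ (Ideal.absNorm J).primeFactors \ T, Real.log p ≤
      ∑ v ∈ hf.toFinset.filter (fun v => ∀ p ∈ T, p.Prime → ((p : ℕ) : 𝓞 K) ∉ v.asIdeal),
        Real.log (Ideal.absNorm v.asIdeal)) ∧
    (∀ p k : ℕ, p.Prime → p ^ k ∣ Ideal.absNorm J →
      ∑ v ∈ hf.toFinset, Real.log (Ideal.absNorm v.asIdeal) ≤
        Real.log (Ideal.absNorm J) - k * Real.log p + Module.finrank ℚ K * Real.log p) := by
  have hf : {v : HeightOneSpectrum (𝓞 K) | J ≤ v.asIdeal}.Finite := by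
    refine (Ideal.finite_factors hJ).subset fun v hv => Ideal.dvd_iff_le.2 hv
  have hN : Ideal.absNorm J ≠ 0 := by rwa [Ne, Ideal.absNorm_eq_zero_iff]
  refine ⟨hf, exists_above J hJ, fun T => ?_, fun p k hp hk => ?_⟩
  · have hex : ∀ p : ℕ, ∃ v : HeightOneSpectrum (𝓞 K), p ∈ (Ideal.absNorm J).primeFactors →
        J ≤ v.asIdeal ∧ ((p : ℕ) : 𝓞 K) ∈ v.asIdeal := by
      intro p
      by_cases hp : p ∈ (Ideal.absNorm J).primeFactors
      · obtain ⟨v, hv⟩ := exists_above J hJ p (Nat.prime_of_mem_primeFactors hp)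
          (Nat.dvd_of_mem_primeFactors hp)
        exact ⟨v, fun _ => hv⟩
      · obtain ⟨v, _⟩ := exists_above (Ideal.span {((2 : ℕ) : 𝓞 K)}) (by
          rw [Ne, Ideal.span_singleton_eq_bot]; norm_num) 2 Nat.prime_two (by
          rw [absNorm_prime]
          exact dvd_pow_self 2 Module.finrank_pos.ne')
        exact ⟨v, fun h => absurd h hp⟩
    choose V hV using hex
    have hinj : Set.InjOn V ((Ideal.absNorm J).primeFactors \ T : Finset ℕ) := by
      intro p hp q hq hpq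
      have hp' := (Finset.mem_sdiff.1 hp).1
      have hq' := (Finset.mem_sdiff.1 hq).1
      refine unique_prime (V p) p q (Nat.prime_of_mem_primeFactors hp')
        (Nat.prime_of_mem_primeFactors hq') (hV p hp').2 ?_
      rw [hpq]
      exact (hV q hq').2
    calc ∑ p ∈ (Ideal.absNorm J).primeFactors \ T, Real.log p
        ≤ ∑ p ∈ (Ideal.absNorm J).primeFactors \ T, Real.log (Ideal.absNorm (V p).asIdeal) := by
          refine Finset.sum_le_sum fun p hp => ?_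
          have hp' := (Finset.mem_sdiff.1 hp).1
          have hpp := Nat.prime_of_mem_primeFactors hp'
          refine Real.log_le_log (by exact_mod_cast hpp.pos) ?_
          exact_mod_cast Nat.le_of_dvd (absNorm_pos' _) (prime_dvd (V p) p hpp (hV p hp').2)
      _ = ∑ v ∈ ((Ideal.absNorm J).primeFactors \ T).image V, Real.log (Ideal.absNorm v.asIdeal) := by
          rw [Finset.sum_image hinj]
      _ ≤ _ := by
          refine Finset.sum_le_sum_of_subset_of_nonneg ?_ fun v _ _ =>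
            Real.log_natCast_nonneg _
          intro v hv
          obtain ⟨p, hp, rfl⟩ := Finset.mem_image.1 hv
          have hp' := Finset.mem_sdiff.1 hp
          refine Finset.mem_filter.2 ⟨hf.mem_toFinset.2 (hV p hp'.1).1, fun q hq hqp hqv => ?_⟩
          have := unique_prime (V p) p q (Nat.prime_of_mem_primeFactors hp'.1) hqp
            (hV p hp'.1).2 hqv
          exact hp'.2 (this ▸ hq)
  · rw [← Finset.sum_filter_add_sum_filter_not hf.toFinset
      (fun v => ((p : ℕ) : 𝓞 K) ∈ v.asIdeal)]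
    have hA : ∑ v ∈ hf.toFinset.filter (fun v => ((p : ℕ) : 𝓞 K) ∈ v.asIdeal),
        Real.log (Ideal.absNorm v.asIdeal) ≤ Module.finrank ℚ K * Real.log p := by
      rw [sum_log, ← Real.log_pow, ← Nat.cast_pow]
      refine Real.log_le_log ?_ ?_
      · exact_mod_cast Finset.prod_pos fun v _ => absNorm_pos' v
      · have h1 := absNorm_prod_dvd (hf.toFinset.filter (fun v => ((p : ℕ) : 𝓞 K) ∈ v.asIdeal))
          (Ideal.span {((p : ℕ) : 𝓞 K)}) (fun v hv =>
            (Ideal.span_singleton_le_iff_mem _).2 (Finset.mem_filter.1 hv).2)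
        rw [absNorm_prime] at h1
        exact_mod_cast Nat.le_of_dvd (pow_pos hp.pos _) h1
    have hB : k * Real.log p + ∑ v ∈ hf.toFinset.filter (fun v => ¬ ((p : ℕ) : 𝓞 K) ∈ v.asIdeal),
        Real.log (Ideal.absNorm v.asIdeal) ≤ Real.log (Ideal.absNorm J) := by
      have hpos : 0 < ∏ v ∈ hf.toFinset.filter (fun v => ¬ ((p : ℕ) : 𝓞 K) ∈ v.asIdeal),
          Ideal.absNorm v.asIdeal := Finset.prod_pos fun v _ => absNorm_pos' v
      have hp0 : 0 < p ^ k := pow_pos hp.pos _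
      rw [sum_log, ← Real.log_pow, ← Nat.cast_pow, ← Real.log_mul (by exact_mod_cast hp0.ne')
        (by exact_mod_cast hpos.ne'), ← Nat.cast_mul]
      refine Real.log_le_log (by exact_mod_cast Nat.mul_pos hp0 hpos) ?_
      have h1 := absNorm_prod_dvd
        (hf.toFinset.filter (fun v => ¬ ((p : ℕ) : 𝓞 K) ∈ v.asIdeal)) J (fun v hv =>
            hf.mem_toFinset.1 (Finset.mem_filter.1 hv).1)
      have h2 : Nat.Coprime (p ^ k)
          (∏ v ∈ hf.toFinset.filter (fun v => ¬ ((p : ℕ) : 𝓞 K) ∈ v.asIdeal),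
            Ideal.absNorm v.asIdeal) := by
        refine Nat.Coprime.pow_left _ (Nat.Coprime.prod_right fun v hv => ?_)
        rw [hp.coprime_iff_not_dvd]
        intro hd
        obtain ⟨w, hw1, hw2⟩ := exists_above v.asIdeal v.ne_bot p hp hd
        have h3 : v.asIdeal = w.asIdeal := v.isMaximal.eq_of_le w.isPrime.ne_top hw1
        rw [← h3] at hw2
        exact (Finset.mem_filter.1 hv).2 hw2
      exact_mod_cast Nat.le_of_dvd (Nat.pos_of_ne_zero hN) (h2.mul_dvd_of_dvd_of_dvd hk h1)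
    linarith

end DEN2

theorem den2 : S_DEN2 := by
  classical
  intro K _ _ J hJ
  obtain ⟨hf, h1, h2, h3⟩ := DEN2.den2' J hJ
  refine ⟨hf, h1, fun T => (h2 T).trans (le_of_eq ?_), h3⟩
  refine Finset.sum_congr ?_ fun _ _ => rfl
  ext v
  rw [Finset.mem_filter, Finset.mem_filter]
  rfl

end Pool.Agent.H42.AP
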