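import Pool.Agent.H42.AP.Defs

/-! AP-DEN3: the archimedean bound -/

set_option autoImplicit false

open NumberField IsDedekindDomain Polynomial

namespace Pool.Agent.H42.AP

/-- the archimedean bound -/
theorem den3 : S_DEN3 := by
  intro K _ _ y a b
  have h1 := InfinitePlace.prod_eq_abs_norm ((b : K) * y - a)
  rw [Rat.cast_abs] at h1
  rw [← h1, ← InfinitePlace.sum_mult_eq, ← Finset.prod_pow_eq_pow_sum,
    ← Finset.prod_mul_distrib]
  refine Finset.prod_le_prod (fun v _ => pow_nonneg (apply_nonneg v _) _) fun v _ => ?_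
  rw [← mul_pow]
  refine pow_le_pow_left₀ (apply_nonneg v _) ?_ _
  have h3 : v ((b : K) * y - a) ≤ |(b : ℝ)| * v y + |(a : ℝ)| := by
    have h4 : v ((b : K) * y - a) ≤ v ((b : K) * y) + v (a : K) := by
      have h5 := map_add_le_add v.1 ((b : K) * y) (-(a : K))
      rw [← sub_eq_add_neg] at h5
      have h6 : v.1 (-(a : K)) = v.1 (a : K) := v.1.map_neg _
      rw [h6] at h5
      exact h5
    have h7 : ∀ z : ℤ, v (z : K) = |(z : ℝ)| := by
      intro z
      rw [← InfinitePlace.norm_embedding_eq v, map_intCast, Complex.norm_intCast]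
    rw [map_mul, h7, h7] at h4
    exact h4
  have h8 : 1 ≤ max 1 (v y) := le_max_left _ _
  have h9 : v y ≤ max 1 (v y) := le_max_right _ _
  have h10 := abs_nonneg (a : ℝ)
  have h11 := abs_nonneg (b : ℝ)
  nlinarith [mul_le_mul_of_nonneg_left h9 h11, mul_le_mul_of_nonneg_left h8 h10]

end Pool.Agent.H42.AP
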