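import Pool.Agent.H42.AP.Defs

/-! # AP-DET: `d + 1` values determine the minimal polynomial (helper56) -/

set_option autoImplicit false

open Polynomial

namespace Pool.Agent.H42.AP

namespace DETP

/-- the norm of a generator -/
lemma norm_gen {K : Type} [Field K] [NumberField K] (y : K)
    (h : (minpoly ℚ y).natDegree = Module.finrank ℚ K) :
    Algebra.norm ℚ y = (-1) ^ Module.finrank ℚ K * (minpoly ℚ y).coeff 0 := by
  have hy : IsIntegral ℚ y := Algebra.IsIntegral.isIntegral y
  have htop : IntermediateField.adjoin ℚ {y} = ⊤ :=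
    (Field.primitive_element_iff_minpoly_natDegree_eq ℚ y).2 h
  have htop' : Algebra.adjoin ℚ {y} = ⊤ := by
    rw [← IntermediateField.adjoin_simple_toSubalgebra_of_isAlgebraic hy.isAlgebraic, htop]
    rfl
  have h1 := Algebra.PowerBasis.norm_gen_eq_coeff_zero_minpoly (PowerBasis.ofAdjoinEqTop' hy htop')
  rw [PowerBasis.ofAdjoinEqTop'_gen, PowerBasis.ofAdjoinEqTop'_dim, h] at h1
  exact h1

/-- the norm of `y - t` -/
lemma norm_sub {K : Type} [Field K] [NumberField K] (y : K) (t : ℚ)
    (h : (minpoly ℚ y).natDegree = Module.finrank ℚ K) :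
    Algebra.norm ℚ (y - algebraMap ℚ K t) = (-1) ^ Module.finrank ℚ K * (minpoly ℚ y).eval t := by
  have h1 := norm_gen (y - algebraMap ℚ K t) (by
    rw [minpoly.sub_algebraMap, natDegree_comp, natDegree_X_add_C, mul_one, h])
  rw [h1, minpoly.sub_algebraMap, coeff_zero_eq_eval_zero, eval_comp]
  simp

/-- the norm as a form -/
lemma norm_form {K : Type} [Field K] [NumberField K] (y : K) (a b : ℤ)
    (h : (minpoly ℚ y).natDegree = Module.finrank ℚ K) :
    Algebra.norm ℚ ((b : K) * y - a) = (-1) ^ Module.finrank ℚ K *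
      ∑ i ∈ Finset.range (Module.finrank ℚ K + 1),
        (minpoly ℚ y).coeff i * (a : ℚ) ^ i * (b : ℚ) ^ (Module.finrank ℚ K - i) := by
  obtain ⟨d, hd⟩ : ∃ d, d = Module.finrank ℚ K := ⟨_, rfl⟩
  have hy : IsIntegral ℚ y := Algebra.IsIntegral.isIntegral y
  by_cases hb : b = 0
  · subst hb
    have h1 : ((0 : ℤ) : K) * y - (a : K) = algebraMap ℚ K (-(a : ℚ)) := by
      simp
    rw [h1, Algebra.norm_algebraMap, ← hd, Finset.sum_eq_single d]
    · have hm : (minpoly ℚ y).coeff d = 1 := by
        rw [hd, ← h]; exact minpoly.monic hy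
      rw [hm]
      simp
      rw [neg_pow]
    · intro i hi hid
      rw [Finset.mem_range] at hi
      have : d - i ≠ 0 := by omega
      simp [this]
    · intro hn
      exact absurd (Finset.mem_range.2 (Nat.lt_succ_self d)) hn
  · have hb' : (b : ℚ) ≠ 0 := by exact_mod_cast hb
    have hbK : (b : K) ≠ 0 := by exact_mod_cast hb
    have h1 : (b : K) * y - (a : K) = algebraMap ℚ K (b : ℚ) *
        (y - algebraMap ℚ K ((a : ℚ) / b)) := by
      simp only [map_div₀, map_intCast]
      field_simp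
    rw [h1, map_mul, Algebra.norm_algebraMap, norm_sub y _ h, eval_eq_sum_range, h, ← hd,
      mul_left_comm]
    congr 1
    rw [Finset.mul_sum]
    refine Finset.sum_congr rfl fun i hi => ?_
    rw [Finset.mem_range] at hi
    have h2 : (b : ℚ) ^ d = (b : ℚ) ^ i * (b : ℚ) ^ (d - i) := by
      rw [← pow_add]; congr 1; omega
    rw [h2, div_pow]
    have h3 : (b : ℚ) ^ i ≠ 0 := pow_ne_zero _ hb'
    field_simp

/-- a form of degree `d` with `d + 1` zeros -/
lemma zero_of (d : ℕ) (A B : Fin (d + 1) → ℤ) (hP : Pts A B) (R : ℚ[X]) (hR : R.natDegree ≤ d)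
    (h : ∀ j, ∑ i ∈ Finset.range (d + 1), R.coeff i * (A j : ℚ) ^ i * (B j : ℚ) ^ (d - i) = 0) :
    R = 0 := by
  have hroot : ∀ j, B j ≠ 0 → R.eval ((A j : ℚ) / B j) = 0 := by
    intro j hj
    have hj' : (B j : ℚ) ≠ 0 := by exact_mod_cast hj
    have h1 : (B j : ℚ) ^ d * R.eval ((A j : ℚ) / B j) = 0 := by
      rw [← h j, eval_eq_sum_range' (Nat.lt_succ_of_le hR), Finset.mul_sum]
      refine Finset.sum_congr rfl fun i hi => ?_
      rw [Finset.mem_range] at hi
      have h2 : (B j : ℚ) ^ d = (B j : ℚ) ^ i * (B j : ℚ) ^ (d - i) := by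
        rw [← pow_add]; congr 1; omega
      rw [h2, div_pow]
      have h3 : (B j : ℚ) ^ i ≠ 0 := pow_ne_zero _ hj'
      field_simp
    exact (mul_eq_zero.1 h1).resolve_left (pow_ne_zero _ hj')
  have hinj : ∀ i j, B i ≠ 0 → B j ≠ 0 → (A i : ℚ) / B i = (A j : ℚ) / B j → i = j := by
    intro i j hi hj he
    by_contra hne
    apply hP.ind i j hne
    have hi' : (B i : ℚ) ≠ 0 := by exact_mod_cast hi
    have hj' : (B j : ℚ) ≠ 0 := by exact_mod_cast hj
    rw [div_eq_div_iff hi' hj'] at he
    exact_mod_cast he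
  by_contra hR0
  -- the roots
  let S : Finset (Fin (d + 1)) := Finset.univ.filter fun j => B j ≠ 0
  have hS : S.card ≤ R.natDegree := by
    have h1 : (S.image fun j => (A j : ℚ) / B j).card = S.card := by
      apply Finset.card_image_of_injOn
      intro i hi j hj he
      exact hinj i j (Finset.mem_filter.1 hi).2 (Finset.mem_filter.1 hj).2 he
    rw [← h1]
    refine (Finset.card_le_card (t := R.roots.toFinset) ?_).trans
      ((Multiset.toFinset_card_le _).trans (card_roots' R))
    intro x hx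
    obtain ⟨j, hj, rfl⟩ := Finset.mem_image.1 hx
    rw [Multiset.mem_toFinset, mem_roots hR0]
    exact hroot j (Finset.mem_filter.1 hj).2
  by_cases hall : ∀ j, B j ≠ 0
  · have : S.card = d + 1 := by
      rw [show S = Finset.univ from Finset.filter_true_of_mem fun j _ => hall j]
      simp
    omega
  · push Not at hall
    obtain ⟨j0, hj0⟩ := hall
    have hA0 : A j0 ≠ 0 := by
      intro hA
      have := hP.cop j0
      rw [hA, hj0] at this
      exact not_isCoprime_zero_zero this
    have hS2 : S = Finset.univ.erase j0 := by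
      ext j
      simp only [S, Finset.mem_filter, Finset.mem_univ, true_and, Finset.mem_erase, and_true]
      constructor
      · rintro hj rfl
        exact hj hj0
      · intro hj hBj
        apply hP.ind j j0 hj
        rw [hj0, hBj]
        simp
    have hc : S.card = d := by
      rw [hS2, Finset.card_erase_of_mem (Finset.mem_univ _)]
      simp
    have hdeg : R.natDegree = d := by omega
    have h1 := h j0
    rw [hj0, Finset.sum_eq_single d] at h1
    · simp only [Int.cast_zero, Nat.sub_self, pow_zero, mul_one] at h1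
      have h2 : R.coeff d = 0 := (mul_eq_zero.1 h1).resolve_right
        (pow_ne_zero _ (by exact_mod_cast hA0))
      rw [← hdeg] at h2
      exact hR0 (leadingCoeff_eq_zero.1 h2)
    · intro i hi hid
      rw [Finset.mem_range] at hi
      have : d - i ≠ 0 := by omega
      simp [this]
    · intro hn
      exact absurd (Finset.mem_range.2 (Nat.lt_succ_self d)) hn

/-- the same values: the same minimal polynomial -/
lemma same (d : ℕ) (A B : Fin (d + 1) → ℤ) (hP : Pts A B) (w : Fin (d + 1) → ℤ)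
    {K : Type} [Field K] [NumberField K] {L : Type} [Field L] [NumberField L] (y : K) (z : L)
    (n m : ℕ) (hK : Module.finrank ℚ K = d) (hL : Module.finrank ℚ L = d)
    (hy : (minpoly ℚ y).natDegree = d) (hz : (minpoly ℚ z).natDegree = d) (hn : 0 < n)
    (h1 : ∀ j, IsVal n y (A j) (B j) (w j)) (h2 : ∀ j, IsVal m z (A j) (B j) (w j)) :
    minpoly ℚ y = minpoly ℚ z := by
  have hyI : IsIntegral ℚ y := Algebra.IsIntegral.isIntegral y
  have hzI : IsIntegral ℚ z := Algebra.IsIntegral.isIntegral z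
  have h3 := zero_of d A B hP (C (n : ℚ) * minpoly ℚ y - C (m : ℚ) * minpoly ℚ z) (by
      refine (natDegree_sub_le _ _).trans (max_le ?_ ?_)
      · exact (natDegree_C_mul_le _ _).trans hy.le
      · exact (natDegree_C_mul_le _ _).trans hz.le) (by
    intro j
    have e1 := h1 j
    have e2 := h2 j
    unfold IsVal at e1 e2
    rw [norm_form y (A j) (B j) (by rw [hy, hK]), hK] at e1
    rw [norm_form z (A j) (B j) (by rw [hz, hL]), hL] at e2
    have hs : ((-1 : ℚ) ^ d) * ((-1 : ℚ) ^ d) = 1 := by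
      rw [← mul_pow]; simp
    have e3 : ∑ i ∈ Finset.range (d + 1), (C (n : ℚ) * minpoly ℚ y - C (m : ℚ) * minpoly ℚ z).coeff i
        * (A j : ℚ) ^ i * (B j : ℚ) ^ (d - i) =
        n * (∑ i ∈ Finset.range (d + 1), (minpoly ℚ y).coeff i * (A j : ℚ) ^ i * (B j : ℚ) ^ (d - i))
        - m * (∑ i ∈ Finset.range (d + 1), (minpoly ℚ z).coeff i * (A j : ℚ) ^ i *
          (B j : ℚ) ^ (d - i)) := by
      rw [Finset.mul_sum, Finset.mul_sum, ← Finset.sum_sub_distrib]
      refine Finset.sum_congr rfl fun i _ => ?_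
      rw [coeff_sub, coeff_C_mul, coeff_C_mul]
      ring
    rw [e3]
    have e4 := e1.symm.trans e2
    have e5 : ((-1 : ℚ) ^ d) * (n * (∑ i ∈ Finset.range (d + 1), (minpoly ℚ y).coeff i *
        (A j : ℚ) ^ i * (B j : ℚ) ^ (d - i)) - m * (∑ i ∈ Finset.range (d + 1),
        (minpoly ℚ z).coeff i * (A j : ℚ) ^ i * (B j : ℚ) ^ (d - i))) = 0 := by
      linear_combination e4
    exact (mul_eq_zero.1 e5).resolve_left (pow_ne_zero _ (by norm_num)))
  have h4 := congrArg (fun P => P.coeff d) h3
  simp only [coeff_sub, coeff_C_mul, coeff_zero] at h4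
  have hm1 : (minpoly ℚ y).coeff d = 1 := by rw [← hy]; exact minpoly.monic hyI
  have hm2 : (minpoly ℚ z).coeff d = 1 := by rw [← hz]; exact minpoly.monic hzI
  rw [hm1, hm2, mul_one, mul_one, sub_eq_zero] at h4
  rw [← h4, ← mul_sub, mul_eq_zero] at h3
  rcases h3 with h3 | h3
  · exfalso
    have : (n : ℚ) = 0 := by simpa using h3
    have : n = 0 := by exact_mod_cast this
    omega
  · exact sub_eq_zero.1 h3

end DETP

theorem det : S_DET := by
  intro d hd A B hP w
  obtain ⟨S, hS⟩ : ∃ S : Set ℂ, S = {x : ℂ | ∃ (K : Type) (_ : Field K) (_ : NumberField K)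
    (φ : K →+* ℂ) (y : K) (n : ℕ), φ y = x ∧
    Module.finrank ℚ K = d ∧ (minpoly ℚ y).natDegree = d ∧ 0 < n ∧
    ∀ j, IsVal n y (A j) (B j) (w j)} := ⟨_, rfl⟩
  rw [← hS]
  rcases S.eq_empty_or_nonempty with he | ⟨x0, hx0⟩
  · rw [he]; simp
  · rw [hS] at hx0
    obtain ⟨K, _, _, φ, y, n, -, hK, hy, hn, hv⟩ := hx0
    have hsub : S ⊆ ((minpoly ℚ y).rootSet ℂ) := by
      intro x hx
      rw [hS] at hx
      obtain ⟨L, _, _, ψ, z, m, hzx, hL, hz, hm, hv'⟩ := hx
      have h1 := DETP.same d A B hP w y z n m hK hL hy hz hn hv hv'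
      rw [mem_rootSet]
      refine ⟨minpoly.ne_zero (Algebra.IsIntegral.isIntegral y), ?_⟩
      rw [h1, ← hzx]
      have h2 := minpoly.aeval ℚ z
      have h3 : aeval (ψ z) (minpoly ℚ z) = ψ (aeval z (minpoly ℚ z)) := by
        rw [aeval_def, aeval_def, hom_eval₂]
        congr 1
        exact Subsingleton.elim _ _
      rw [h3, h2, map_zero]
    have hfin : ((minpoly ℚ y).rootSet ℂ).Finite := rootSet_finite _ _
    refine ⟨hfin.subset hsub, (Set.ncard_le_ncard hsub hfin).trans ?_⟩
    classical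
    rw [rootSet_def, Set.ncard_coe_finset]
    refine (Multiset.toFinset_card_le _).trans ((card_roots' _).trans ?_)
    rw [natDegree_map]
    exact hy.le

end Pool.Agent.H42.AP
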