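import Pool.Agent.H42.AP.Defs

/-!
# Stub EIS: Eisenstein's criterion
-/

set_option autoImplicit false

open NumberField IsDedekindDomain Polynomial

namespace Pool.Agent.H42.AP

theorem eis : S_EIS := by
  intro d M H hd hH hr F
  have hc0 : F.coeff 0 = M + (M : ℤ) ^ 2 * H.coeff 0 := by
    simp only [F, coeff_add, coeff_C_mul, coeff_X_pow, coeff_C_zero]
    rw [if_neg (by omega)]
    ring
  have hci : ∀ i, i ≠ 0 → i ≠ d → F.coeff i = (M : ℤ) ^ 2 * H.coeff i := by
    intro i h0 h1
    simp only [F, coeff_add, coeff_C_mul, coeff_X_pow]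
    rw [if_neg h1, coeff_C_of_ne_zero h0]
    ring
  have hcd : F.coeff d = 1 + (M : ℤ) ^ 2 * H.coeff d := by
    simp only [F, coeff_add, coeff_C_mul, coeff_X_pow]
    rw [if_pos trivial, coeff_C_of_ne_zero (by omega)]
    ring
  have hnd : ∀ r : ℕ, r.Prime → r ∣ M → ¬ (r : ℤ) ∣ F.coeff d := by
    intro r hr hrM h
    rw [hcd] at h
    have h1 : (r : ℤ) ∣ (M : ℤ) ^ 2 * H.coeff d :=
      Dvd.dvd.mul_right (dvd_pow (Int.natCast_dvd_natCast.2 hrM) two_ne_zero) _
    have h2 : (r : ℤ) ∣ 1 := (Int.dvd_add_left h1).1 h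
    have h3 : r ∣ 1 := by exact_mod_cast h2
    exact hr.one_lt.ne' (Nat.dvd_one.1 h3)
  obtain ⟨r, hrp, hrM, hr2⟩ := hr
  have hcd0 : F.coeff d ≠ 0 := fun h => hnd r hrp hrM (by rw [h]; exact dvd_zero _)
  have hle : F.natDegree ≤ d := by
    refine natDegree_add_le_of_degree_le (natDegree_add_le_of_degree_le (natDegree_X_pow_le d) ?_) ?_
    · rw [natDegree_C]; exact Nat.zero_le _
    · exact (natDegree_C_mul_le _ _).trans hH
  have hdeg : F.natDegree = d := le_antisymm hle (le_natDegree_of_ne_zero hcd0)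
  have hlc : F.leadingCoeff = F.coeff d := by rw [leadingCoeff, hdeg]
  have hF0 : F ≠ 0 := fun h => hcd0 (by rw [h, coeff_zero])
  refine ⟨hdeg, ?_, fun r hr hrM => by rw [hlc]; exact hnd r hr hrM⟩
  have hrz : Prime (r : ℤ) := Nat.prime_iff_prime_int.1 hrp
  have hcoe : ∀ i, F.coeff i = F.content * F.primPart.coeff i := by
    intro i
    conv_lhs => rw [F.eq_C_content_mul_primPart]
    rw [coeff_C_mul]
  have hdp : F.primPart.natDegree = d := by rw [natDegree_primPart, hdeg]
  have hrc : ¬ (r : ℤ) ∣ F.content := fun h => hnd r hrp hrM (by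
    rw [hcoe d]; exact Dvd.dvd.mul_right h _)
  have hrM' : (r : ℤ) ∣ (M : ℤ) := Int.natCast_dvd_natCast.2 hrM
  have hirr : Irreducible F.primPart := by
    refine irreducible_of_eisenstein_criterion (P := Ideal.span {(r : ℤ)})
      ((Ideal.span_singleton_prime hrz.ne_zero).2 hrz) ?_ ?_ ?_ ?_ (isPrimitive_primPart F)
    · rw [Ideal.mem_span_singleton, leadingCoeff, hdp]
      intro h
      exact hnd r hrp hrM (by rw [hcoe d]; exact Dvd.dvd.mul_left h _)
    · intro i hi
      rw [Ideal.mem_span_singleton]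
      have hi' : i < d := by
        rw [← hdp]
        rw [degree_eq_natDegree F.primPart_ne_zero] at hi
        exact_mod_cast hi
      have h1 : (r : ℤ) ∣ F.coeff i := by
        rcases Nat.eq_zero_or_pos i with h | h
        · rw [h, hc0]
          exact dvd_add hrM' (Dvd.dvd.mul_right (dvd_pow hrM' two_ne_zero) _)
        · rw [hci i h.ne' hi'.ne]
          exact Dvd.dvd.mul_right (dvd_pow hrM' two_ne_zero) _
      rw [hcoe i] at h1
      exact (hrz.dvd_or_dvd h1).resolve_left hrc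
    · rw [← natDegree_pos_iff_degree_pos, hdp]; omega
    · rw [Ideal.span_singleton_pow, Ideal.mem_span_singleton]
      intro h
      have h1 : (r : ℤ) ^ 2 ∣ F.coeff 0 := by rw [hcoe 0]; exact Dvd.dvd.mul_left h _
      rw [hc0] at h1
      have h2 : (r : ℤ) ^ 2 ∣ (M : ℤ) ^ 2 * H.coeff 0 := Dvd.dvd.mul_right (pow_dvd_pow_of_dvd hrM' 2) _
      have h3 := (Int.dvd_add_left h2).1 h1
      exact hr2 (by exact_mod_cast h3)
  have h5 : Irreducible (F.primPart.map (Int.castRingHom ℚ)) :=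
    (IsPrimitive.Int.irreducible_iff_irreducible_map_cast (isPrimitive_primPart F)).1 hirr
  have h6 : F.map (Int.castRingHom ℚ) = C ((F.content : ℤ) : ℚ) * F.primPart.map (Int.castRingHom ℚ) := by
    conv_lhs => rw [F.eq_C_content_mul_primPart]
    rw [Polynomial.map_mul, map_C]
    rfl
  rw [h6]
  have hcz : ((F.content : ℤ) : ℚ) ≠ 0 := by
    rw [Int.cast_ne_zero]
    exact fun h => hF0 (content_eq_zero_iff.1 h)
  exact (irreducible_isUnit_mul (isUnit_C.2 (isUnit_iff_ne_zero.2 hcz))).2 h5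

end Pool.Agent.H42.AP
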