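import Pool.Agent.H42.AP.Defs

/-!
# AP-EXT: more points
-/

set_option autoImplicit false

namespace Pool.Agent.H42.AP

theorem ext_aux (x y t : ℤ) (hc : IsCoprime x y) (ht : |x| < t) : x ≠ t * y := by
  intro h
  have ht0 : 0 < t := lt_of_le_of_lt (abs_nonneg x) ht
  rcases eq_or_ne y 0 with hy | hy
  · rw [hy, mul_zero] at h
    rw [h, hy] at hc
    exact not_isCoprime_zero_zero hc
  · have h1 : |x| = t * |y| := by rw [h, abs_mul, abs_of_pos ht0]
    have h2 : 1 ≤ |y| := Int.one_le_abs hy
    nlinarith

theorem ext : S_EXT := by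
  intro q s h a b hP
  have hM : ∀ l, |a l| < (∑ l, |a l|) + 1 := fun l =>
    Int.lt_add_one_of_le (Finset.single_le_sum (f := fun l => |a l|) (fun i _ => abs_nonneg (a i))
      (Finset.mem_univ l))
  set M : ℤ := (∑ l, |a l|) + 1 with hMdef
  refine ⟨fun j => if hj : (j : ℕ) < q then a ⟨j, hj⟩ else M + j,
    fun j => if hj : (j : ℕ) < q then b ⟨j, hj⟩ else 1, ⟨?_, ?_⟩, ?_⟩
  · intro j
    by_cases hj : (j : ℕ) < q
    · simp only [hj, dif_pos]
      exact hP.cop _
    · simp only [hj, dif_neg, not_false_iff]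
      exact isCoprime_one_right
  · intro i j hij
    by_cases hi : (i : ℕ) < q <;> by_cases hj : (j : ℕ) < q
    · simp only [hi, hj, dif_pos]
      refine hP.ind _ _ fun he => hij ?_
      have := congrArg Fin.val he
      exact Fin.ext this
    · simp only [hi, hj, dif_pos, dif_neg, not_false_iff, mul_one]
      refine ext_aux _ _ _ (hP.cop _) ((hM _).trans_le ?_)
      linarith [Int.natCast_nonneg (j : ℕ)]
    · simp only [hi, hj, dif_pos, dif_neg, not_false_iff, mul_one]
      refine (ext_aux _ _ _ (hP.cop _) ((hM _).trans_le ?_)).symm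
      linarith [Int.natCast_nonneg (i : ℕ)]
    · simp only [hi, hj, dif_neg, not_false_iff, mul_one]
      intro he
      apply hij
      apply Fin.ext
      have : ((i : ℕ) : ℤ) = (j : ℕ) := by linarith
      exact_mod_cast this
  · intro l
    have hl : ((Fin.castLE h l : Fin s) : ℕ) < q := l.2
    constructor
    · simp only [hl, dif_pos]
      rfl
    · simp only [hl, dif_pos]
      rfl

end Pool.Agent.H42.AP
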