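import Pool.Agent.H42.AP.Defs

/-! # AP-FAM (helper63): the family of polynomials -/

set_option autoImplicit false

open NumberField IsDedekindDomain Polynomial

namespace Pool.Agent.H42.AP

namespace FAMx

lemma hev_add (d : ℕ) (F G : ℤ[X]) (a b : ℤ) : hev d (F + G) a b = hev d F a b + hev d G a b := by
  simp [hev, add_mul, Finset.sum_add_distrib]

lemma hev_Cmul (d : ℕ) (c : ℤ) (F : ℤ[X]) (a b : ℤ) : hev d (C c * F) a b = c * hev d F a b := by
  simp only [hev, coeff_C_mul, Finset.mul_sum]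
  exact Finset.sum_congr rfl fun i _ => by ring

lemma hev_sum {ι : Type} (d : ℕ) (s : Finset ι) (f : ι → ℤ[X]) (a b : ℤ) :
    hev d (∑ j ∈ s, f j) a b = ∑ j ∈ s, hev d (f j) a b := by
  simp only [hev, finsetSum_coeff, Finset.sum_mul]
  exact Finset.sum_comm

lemma hev_X_pow (d : ℕ) (a b : ℤ) : hev d (X ^ d) a b = a ^ d := by
  unfold hev
  rw [Finset.sum_eq_single d]
  · simp
  · intro i _ hi
    simp [coeff_X_pow, hi]
  · intro h
    exact absurd (Finset.mem_range.2 (Nat.lt_succ_self d)) h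

lemma hev_C (d : ℕ) (c a b : ℤ) : hev d (C c) a b = c * b ^ d := by
  unfold hev
  rw [Finset.sum_eq_single 0]
  · simp
  · intro i _ hi
    rw [coeff_C, if_neg hi, zero_mul, zero_mul]
  · intro h
    exact absurd (Finset.mem_range.2 (Nat.succ_pos d)) h

lemma content_dvd_hev (d : ℕ) (F : ℤ[X]) (a b : ℤ) : F.content ∣ hev d F a b := by
  unfold hev
  refine Finset.dvd_sum fun i _ => ?_
  exact Dvd.dvd.mul_right (Dvd.dvd.mul_right (content_dvd_coeff i) _) _

/-- solving the congruences -/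
lemma crt_om (R Z : ℤ) (a b : ℕ) (ha : 0 < a) (hb : 0 < b) (hab : Nat.Coprime a b)
    (hZ : IsCoprime Z ((a : ℤ) * b)) :
    ∃ om : ℕ, om < a * b ∧ (a : ℤ) ∣ R + Z * om ∧ (b : ℤ) ∣ R + Z * om - 1 := by
  obtain ⟨u, v, huv⟩ := Nat.isCoprime_iff_coprime.2 hab
  obtain ⟨m, n, hmn⟩ := hZ
  have hab0 : (0 : ℤ) < (a : ℤ) * b := by positivity
  set om0 : ℤ := m * (u * a - R) with hom0
  have h1 := Int.emod_nonneg om0 hab0.ne'
  have h2 := Int.emod_lt_of_pos om0 hab0
  obtain ⟨q, hq⟩ : ∃ q : ℤ, q = om0 / ((a : ℤ) * b) := ⟨_, rfl⟩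
  have h3 : (a : ℤ) * b * q + om0 % ((a : ℤ) * b) = om0 := by
    rw [hq]; exact Int.mul_ediv_add_emod om0 _
  refine ⟨(om0 % ((a : ℤ) * b)).toNat, ?_, ?_, ?_⟩
  · zify
    rw [Int.toNat_of_nonneg h1]
    exact h2
  · rw [Int.toNat_of_nonneg h1]
    refine ⟨u - b * (n * (u * a - R) + Z * q), ?_⟩
    have h4 : om0 % ((a : ℤ) * b) = om0 - (a : ℤ) * b * q := by linarith
    rw [h4, hom0]
    linear_combination (u * a - R) * hmn
  · rw [Int.toNat_of_nonneg h1]
    refine ⟨-v - a * (n * (u * a - R) + Z * q), ?_⟩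
    have h4 : om0 % ((a : ℤ) * b) = om0 - (a : ℤ) * b * q := by linarith
    rw [h4, hom0]
    linear_combination (u * a - R) * hmn + huv

/-- the polynomials of the family -/
noncomputable def FF (d M : ℕ) {s : ℕ} (G : Fin s → ℤ[X]) (w : Fin s → ℤ) : ℤ[X] :=
  X ^ d + C (M : ℤ) + C ((M : ℤ) ^ 2) * ∑ j, C (w j) * G j

lemma hev_FF {d M : ℕ} {A B : Fin (d + 1) → ℤ} {D : ℤ} {G : Fin (d + 1) → ℤ[X]}
    (h1 : ∀ j, hev d (G j) (A j) (B j) = D)
    (h2 : ∀ i j, i ≠ j → hev d (G j) (A i) (B i) = 0) (w : Fin (d + 1) → ℤ) (i : Fin (d + 1)) :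
    hev d (FF d M G w) (A i) (B i) = A i ^ d + M * B i ^ d + (M : ℤ) ^ 2 * D * w i := by
  unfold FF
  rw [hev_add, hev_add, hev_X_pow, hev_C, hev_Cmul, hev_sum, Finset.sum_eq_single i]
  · rw [hev_Cmul, h1]; ring
  · intro j _ hj
    rw [hev_Cmul, h2 i j (Ne.symm hj), mul_zero]
  · intro h
    exact absurd (Finset.mem_univ i) h

lemma coeff_FF (d M : ℕ) {s : ℕ} (G : Fin s → ℤ[X]) (w : Fin s → ℤ) (i : ℕ) :
    |(FF d M G w).coeff i| ≤ 1 + M + (M : ℤ) ^ 2 * ∑ j, |w j| * |(G j).coeff i| := by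
  unfold FF
  rw [coeff_add, coeff_add, coeff_C_mul, finsetSum_coeff]
  have h1 : |(X ^ d : ℤ[X]).coeff i| ≤ 1 := by
    rw [coeff_X_pow]; split_ifs <;> simp
  have h2 : |(C (M : ℤ) : ℤ[X]).coeff i| ≤ M := by
    rw [coeff_C]; split_ifs <;> simp
  have h3 : |(M : ℤ) ^ 2 * ∑ j, (C (w j) * G j).coeff i| ≤
      (M : ℤ) ^ 2 * ∑ j, |w j| * |(G j).coeff i| := by
    rw [abs_mul, abs_of_nonneg (show (0 : ℤ) ≤ (M : ℤ) ^ 2 by positivity)]
    refine mul_le_mul_of_nonneg_left ?_ (by positivity)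
    refine (Finset.abs_sum_le_sum_abs _ _).trans (Finset.sum_le_sum fun j _ => ?_)
    rw [coeff_C_mul, abs_mul]
  calc _ ≤ |(X ^ d : ℤ[X]).coeff i| + |(C (M : ℤ) : ℤ[X]).coeff i| +
      |(M : ℤ) ^ 2 * ∑ j, (C (w j) * G j).coeff i| := (abs_add_le _ _).trans
        (add_le_add_left (abs_add_le _ _) _)
    _ ≤ _ := by linarith

/-- bound of the coefficients -/
lemma coeff_bd {s : ℕ} (G : Fin s → ℤ[X]) : ∃ Γ : ℕ, ∀ j i, |(G j).coeff i| ≤ Γ := by
  refine ⟨∑ j, ∑ i ∈ (G j).support, ((G j).coeff i).natAbs, fun j i => ?_⟩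
  by_cases hi : i ∈ (G j).support
  · have h1 : ((G j).coeff i).natAbs ≤ ∑ i ∈ (G j).support, ((G j).coeff i).natAbs :=
      Finset.single_le_sum (f := fun i => ((G j).coeff i).natAbs) (fun _ _ => Nat.zero_le _) hi
    have h2 : ∑ i ∈ (G j).support, ((G j).coeff i).natAbs ≤
        ∑ j, ∑ i ∈ (G j).support, ((G j).coeff i).natAbs :=
      Finset.single_le_sum (f := fun j => ∑ i ∈ (G j).support, ((G j).coeff i).natAbs)
        (fun _ _ => Nat.zero_le _) (Finset.mem_univ j)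
    rw [Int.abs_eq_natAbs]
    exact_mod_cast h1.trans h2
  · rw [notMem_support_iff.1 hi, abs_zero]
    positivity

/-- the primes -/
lemma primes (s K : ℕ) : ∃ p : Fin s → ℕ, (∀ j, (p j).Prime) ∧ (∀ j, K < p j) ∧
    Function.Injective p := by
  refine ⟨fun j => Nat.nth Nat.Prime (K + 1 + j), fun j => Nat.prime_nth_prime _, fun j => ?_, ?_⟩
  · have h1 : K + 1 + j ≤ Nat.nth Nat.Prime (K + 1 + j) :=
      (Nat.nth_strictMono Nat.infinite_setOfPred_prime).le_apply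
    show K < Nat.nth Nat.Prime (K + 1 + j)
    omega
  · intro i j hij
    have h1 := (Nat.nth_strictMono Nat.infinite_setOfPred_prime).injective hij
    exact Fin.ext (by omega)

end FAMx

open FAMx in
theorem fam (hLAG : S_LAG) (hGCD : S_GCD) (hEIS : S_EIS) : S_FAM := by
  classical
  intro d hd A B hP
  obtain ⟨D, G, hD, hGd, hG1, hG2⟩ := hLAG d (by omega) A B hP
  obtain ⟨M, hM⟩ : ∃ M : ℕ, M = primorial d := ⟨_, rfl⟩
  have hM0 : 0 < M := by rw [hM]; exact primorial_pos d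
  have hMr : ∀ r : ℕ, r.Prime → r ≤ d → r ∣ M := by
    intro r hr hrd
    rw [hM]
    exact hr.dvd_primorial_iff.2 hrd
  have hM2 : ∃ r : ℕ, r.Prime ∧ r ∣ M ∧ ¬ r ^ 2 ∣ M := by
    refine ⟨2, Nat.prime_two, hMr 2 Nat.prime_two hd, ?_⟩
    intro h
    have h1 : Squarefree M := by rw [hM]; exact squarefree_primorial d
    have h2 := h1 2 (by rwa [sq] at h)
    exact Nat.prime_two.not_isUnit h2
  have hDn : 0 < D.natAbs := Int.natAbs_pos.2 hD
  obtain ⟨p, hp, hpK, hpi⟩ := primes (d + 1) (M * D.natAbs)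
  have hMD : 0 < M * D.natAbs := Nat.mul_pos hM0 hDn
  have hpMD : ∀ j, Nat.Coprime (p j) (M * D.natAbs) := by
    intro j
    rw [(hp j).coprime_iff_not_dvd]
    intro h
    exact absurd (Nat.le_of_dvd hMD h) (not_le.2 (hpK j))
  have hpM : ∀ j, Nat.Coprime (p j) M := fun j => Nat.Coprime.coprime_mul_right_right (hpMD j)
  have hpD : ∀ j, Nat.Coprime (p j) D.natAbs := fun j =>
    Nat.Coprime.coprime_mul_left_right (hpMD j)
  have hne : ∀ j : Fin (d + 1), j + 1 ≠ j := by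
    intro j h
    have h1 : (1 : Fin (d + 1)) = 0 := by
      calc (1 : Fin (d + 1)) = (j + 1) - j := by abel
        _ = 0 := by rw [h, sub_self]
    have h2 := congrArg Fin.val h1
    rw [Fin.val_one', Fin.val_zero, Nat.mod_eq_of_lt (by omega)] at h2
    omega
  have hpp : ∀ j (k : ℕ), Nat.Coprime (p j ^ k) (p (j + 1)) := by
    intro j k
    refine Nat.Coprime.pow_left k ?_
    rw [Nat.coprime_primes (hp _) (hp _)]
    intro h
    exact hne j (hpi h).symm
  obtain ⟨Γ, hΓ⟩ := coeff_bd G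
  obtain ⟨R, hR⟩ : ∃ R : Fin (d + 1) → ℤ, R = fun j => A j ^ d + M * B j ^ d := ⟨_, rfl⟩
  obtain ⟨D0, hD0⟩ : ∃ D0 : ℕ, D0 = ∑ j, ((R j).natAbs + M ^ 2 * D.natAbs * p (j + 1)) +
    D.natAbs + 1 := ⟨_, rfl⟩
  have hD0j : ∀ j, (R j).natAbs + M ^ 2 * D.natAbs * p (j + 1) ≤ D0 := by
    intro j
    have := Finset.single_le_sum (f := fun j => (R j).natAbs + M ^ 2 * D.natAbs * p (j + 1))
      (fun _ _ => Nat.zero_le _) (Finset.mem_univ j)
    omega
  obtain ⟨E, hE⟩ : ∃ E : ℕ, E = M * ∏ i, p i := ⟨_, rfl⟩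
  obtain ⟨G0, hG0⟩ := hGCD (d + 1) D0 E (by omega) (by omega)
  obtain ⟨C0, hC0⟩ : ∃ C0 : ℕ, C0 = 1 + M + M ^ 2 * ∑ j, p (j + 1) * Γ := ⟨_, rfl⟩
  refine ⟨p, C0 + G0, 1 / 2 ^ (d + 2), by positivity, by omega, hp, ?_⟩
  intro Y k hY
  have hCpos : 1 ≤ C0 + G0 := by omega
  have hQ : ∀ j, 0 < p j ^ k j := fun j => pow_pos (hp j).pos _
  have hpY : ∀ j, p j ^ k j ≤ Y := fun j =>
    le_trans (Nat.le_mul_of_pos_left _ (by omega)) (hY j)
  have hY1 : 1 ≤ Y := le_trans (hQ 0) (hpY 0)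
  obtain ⟨N, hN⟩ : ∃ N : Fin (d + 1) → ℕ, N = fun j => Y / p j ^ k j := ⟨_, rfl⟩
  have hN1 : ∀ j, 1 ≤ N j := by
    intro j
    rw [hN]
    exact Nat.div_pos (hpY j) (hQ j)
  have hNY : ∀ j, p j ^ k j * N j ≤ Y := by
    intro j
    rw [hN]
    exact Nat.mul_div_le _ _
  -- the residues
  have hom : ∀ j, ∃ om : ℕ, om < p j ^ k j * p (j + 1) ∧
      ((p j ^ k j : ℕ) : ℤ) ∣ R j + (M : ℤ) ^ 2 * D * om ∧
      ((p (j + 1) : ℕ) : ℤ) ∣ R j + (M : ℤ) ^ 2 * D * om - 1 := by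
    intro j
    refine crt_om _ _ _ _ (hQ j) (hp _).pos (hpp j _) ?_
    rw [Int.isCoprime_iff_gcd_eq_one]
    show Nat.gcd _ _ = 1
    have e1 : ((M : ℤ) ^ 2 * D).natAbs = M ^ 2 * D.natAbs := by
      rw [Int.natAbs_mul, Int.natAbs_pow, Int.natAbs_natCast]
    have e2 : (((p j ^ k j : ℕ) : ℤ) * (p (j + 1) : ℕ)).natAbs = p j ^ k j * p (j + 1) := by
      rw [Int.natAbs_mul, Int.natAbs_natCast, Int.natAbs_natCast]
    rw [e1, e2]
    have c1 : ∀ i, Nat.Coprime (M ^ 2 * D.natAbs) (p i) := fun i =>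
      Nat.Coprime.mul_left ((hpM i).symm.pow_left 2) (hpD i).symm
    exact Nat.Coprime.mul_right ((c1 j).pow_right _) (c1 (j + 1))
  choose om hom1 hom2 hom3 using hom
  -- values
  obtain ⟨c, hc⟩ : ∃ c : Fin (d + 1) → ℤ, c = fun j => R j + (M : ℤ) ^ 2 * D * om j := ⟨_, rfl⟩
  obtain ⟨DD, hDD⟩ : ∃ DD : Fin (d + 1) → ℤ,
    DD = fun j => (M : ℤ) ^ 2 * D * (p j ^ k j * p (j + 1) : ℕ) := ⟨_, rfl⟩
  obtain ⟨w, hw⟩ : ∃ w : (Fin (d + 1) → ℕ) → Fin (d + 1) → ℤ,
    w = fun t j => (om j : ℤ) + (p j ^ k j * p (j + 1) : ℕ) * (t j : ℤ) := ⟨_, rfl⟩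
  have hV : ∀ t j, hev d (FF d M G (w t)) (A j) (B j) = c j + DD j * (t j : ℕ) := by
    intro t j
    rw [hev_FF hG1 hG2, hc, hDD, hw, hR]
    ring
  have hVa : ∀ (t : ℕ) j, ((p j ^ k j : ℕ) : ℤ) ∣ c j + DD j * t := by
    intro t j
    rw [hc, hDD]
    refine dvd_add (hom2 j) ?_
    show ((p j ^ k j : ℕ) : ℤ) ∣ (M : ℤ) ^ 2 * D * ((p j ^ k j * p (j + 1) : ℕ) : ℤ) * t
    rw [Nat.cast_mul]
    exact Dvd.dvd.mul_right (Dvd.dvd.mul_left (Dvd.intro _ rfl) _) _
  have hVb : ∀ (t : ℕ) j, ((p (j + 1) : ℕ) : ℤ) ∣ c j + DD j * t - 1 := by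
    intro t j
    have h1 : c j + DD j * t - 1 = (R j + (M : ℤ) ^ 2 * D * om j - 1) + DD j * t := by
      rw [hc]; ring
    rw [h1, hDD]
    refine dvd_add (hom3 j) ?_
    show ((p (j + 1) : ℕ) : ℤ) ∣ (M : ℤ) ^ 2 * D * ((p j ^ k j * p (j + 1) : ℕ) : ℤ) * t
    rw [Nat.cast_mul]
    exact Dvd.dvd.mul_right (Dvd.dvd.mul_left (Dvd.intro_left _ rfl) _) _
  have hVc : ∀ (t : ℕ) j, ¬ ((p (j + 1) : ℕ) : ℤ) ∣ c j + DD j * t := by
    intro t j h
    have h1 := dvd_sub h (hVb t j)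
    rw [sub_sub_cancel] at h1
    have h2 : p (j + 1) ∣ 1 := by exact_mod_cast h1
    exact (hp (j + 1)).one_lt.ne' (Nat.dvd_one.1 h2)
  have hVd : ∀ (t : ℕ) j, t < N j → |c j + DD j * t| ≤ D0 * N j * (p j ^ k j : ℕ) := by
    intro t j ht
    have h1 : |c j + DD j * t| ≤ ((R j).natAbs + M ^ 2 * D.natAbs * (om j +
        (p j ^ k j * p (j + 1)) * t) : ℕ) := by
      have h2 : c j + DD j * t = R j + (M : ℤ) ^ 2 * D * (om j + (p j ^ k j * p (j + 1) : ℕ) * t) := by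
        rw [hc, hDD]; ring
      rw [h2]
      refine (abs_add_le _ _).trans ?_
      rw [abs_mul, abs_mul, abs_of_nonneg (show (0 : ℤ) ≤ (M : ℤ) ^ 2 by positivity),
        abs_of_nonneg (show (0 : ℤ) ≤ (om j : ℤ) + (p j ^ k j * p (j + 1) : ℕ) * t by positivity),
        Int.abs_eq_natAbs, Int.abs_eq_natAbs]
      push_cast
      exact le_refl _
    refine h1.trans ?_
    have h3 : om j + (p j ^ k j * p (j + 1)) * t ≤ p j ^ k j * p (j + 1) * N j := by
      have h4 := hom1 j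
      calc om j + (p j ^ k j * p (j + 1)) * t ≤ p j ^ k j * p (j + 1) +
            (p j ^ k j * p (j + 1)) * t := by omega
        _ = p j ^ k j * p (j + 1) * (t + 1) := by ring
        _ ≤ _ := Nat.mul_le_mul_left _ ht
    have h5 : (R j).natAbs + M ^ 2 * D.natAbs * (om j + (p j ^ k j * p (j + 1)) * t) ≤
        D0 * N j * p j ^ k j := by
      have h6 : 1 ≤ N j * p j ^ k j := Nat.mul_pos (hN1 j) (hQ j)
      calc (R j).natAbs + M ^ 2 * D.natAbs * (om j + (p j ^ k j * p (j + 1)) * t) ≤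
          (R j).natAbs * (N j * p j ^ k j) + M ^ 2 * D.natAbs * (p j ^ k j * p (j + 1) * N j) :=
            Nat.add_le_add (Nat.le_mul_of_pos_right _ h6) (Nat.mul_le_mul_left _ h3)
        _ = ((R j).natAbs + M ^ 2 * D.natAbs * p (j + 1)) * (N j * p j ^ k j) := by ring
        _ ≤ D0 * (N j * p j ^ k j) := Nat.mul_le_mul_right _ (hD0j j)
        _ = _ := by ring
    exact_mod_cast h5
  -- the common divisors
  have hEM : ∀ g : ℕ, Nat.Coprime g E → Nat.Coprime g M ∧ ∀ i, Nat.Coprime g (p i) := by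
    intro g hg
    rw [hE] at hg
    refine ⟨Nat.Coprime.coprime_mul_right_right hg, fun i => ?_⟩
    have h1 := Nat.Coprime.coprime_mul_left_right hg
    exact Nat.Coprime.coprime_dvd_right (Finset.dvd_prod_of_mem p (Finset.mem_univ i)) h1
  have hcount := hG0 N (fun j => p j ^ k j) c DD hN1 hQ
    (fun j t ht => ⟨hVa t j, fun h0 => hVc t j (by rw [h0]; exact dvd_zero _), hVd t j ht⟩)
    (by
      intro j g hg
      obtain ⟨hg1, hg2⟩ := hEM g hg
      refine ⟨?_, (hg2 j).pow_right _⟩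
      have e1 : (DD j).natAbs = D.natAbs * (M ^ 2 * (p j ^ k j * p (j + 1))) := by
        rw [hDD]
        simp only
        rw [Int.natAbs_mul, Int.natAbs_mul, Int.natAbs_pow, Int.natAbs_natCast, Int.natAbs_natCast]
        ring
      have h1 : Nat.Coprime (Nat.gcd g (DD j).natAbs) (M ^ 2 * (p j ^ k j * p (j + 1))) := by
        refine Nat.Coprime.coprime_dvd_left (Nat.gcd_dvd_left _ _) ?_
        exact Nat.Coprime.mul_right (hg1.pow_right 2)
          (Nat.Coprime.mul_right ((hg2 j).pow_right _) (hg2 (j + 1)))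
      have h2 : Nat.gcd g (DD j).natAbs ∣ D.natAbs * (M ^ 2 * (p j ^ k j * p (j + 1))) := by
        rw [← e1]; exact Nat.gcd_dvd_right _ _
      have h3 := h1.dvd_of_dvd_mul_right h2
      have h4 := Nat.le_of_dvd hDn h3
      omega)
  -- the family
  obtain ⟨Bad, hBad⟩ : ∃ Bad : Finset (Fin (d + 1) → ℕ), Bad =
    (Fintype.piFinset (fun j => Finset.range (N j))).filter (fun t : Fin (d + 1) → ℕ =>
      ∃ g : ℕ, G0 < g ∧ Nat.Coprime g E ∧ ∀ j, (g : ℤ) ∣ c j + DD j * (t j : ℕ)) := ⟨_, rfl⟩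
  obtain ⟨Good, hGood⟩ : ∃ Good : Finset (Fin (d + 1) → ℕ), Good =
    (Fintype.piFinset (fun j => Finset.range (N j))).filter (fun t : Fin (d + 1) → ℕ =>
      ¬ ∃ g : ℕ, G0 < g ∧ Nat.Coprime g E ∧ ∀ j, (g : ℤ) ∣ c j + DD j * (t j : ℕ)) := ⟨_, rfl⟩
  have hsum : Bad.card + Good.card = ∏ j, N j := by
    rw [hBad, hGood, Finset.card_filter_add_card_filter_not, Fintype.card_piFinset]
    simp
  have hcnt : ∏ j, N j ≤ 2 * Good.card := by
    have h1 : 2 * Bad.card ≤ ∏ j, N j := by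
      rw [hBad]
      convert hcount
    omega
  refine ⟨Good.image (fun t => FF d M G (w t)), ?_, ?_⟩
  · rw [Finset.card_image_of_injOn]
    · have h1 : ∀ j, (Y : ℝ) / (p j : ℝ) ^ k j ≤ 2 * N j := by
        intro j
        have h2 : (0 : ℝ) < (p j : ℝ) ^ k j := by
          have := (hp j).pos
          positivity
        rw [div_le_iff₀ h2]
        have h3 : Y < p j ^ k j * (N j + 1) := by
          rw [hN]
          exact Nat.lt_mul_div_succ Y (hQ j)
        have h4 : Y ≤ 2 * N j * p j ^ k j := by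
          have h5 := hN1 j
          calc Y ≤ p j ^ k j * (N j + 1) := h3.le
            _ ≤ p j ^ k j * (2 * N j) := Nat.mul_le_mul_left _ (by omega)
            _ = _ := by ring
        exact_mod_cast h4
      have h2 : ∏ j, ((Y : ℝ) / (p j : ℝ) ^ k j) ≤ ∏ j, (2 * (N j : ℝ)) :=
        Finset.prod_le_prod (fun j _ => by positivity) (fun j _ => h1 j)
      have h3 : ∏ j : Fin (d + 1), (2 * (N j : ℝ)) = 2 ^ (d + 1) * ((∏ j, N j : ℕ) : ℝ) := by
        rw [Finset.prod_mul_distrib, Finset.prod_const, Finset.card_univ, Fintype.card_fin]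
        push_cast
        ring
      have h4 : ((∏ j, N j : ℕ) : ℝ) ≤ 2 * (Good.card : ℝ) := by exact_mod_cast hcnt
      rw [one_div, inv_mul_le_iff₀ (by positivity)]
      calc ∏ j, ((Y : ℝ) / (p j : ℝ) ^ k j) ≤ 2 ^ (d + 1) * ((∏ j, N j : ℕ) : ℝ) := by
            rw [← h3]; exact h2
        _ ≤ 2 ^ (d + 1) * (2 * (Good.card : ℝ)) := by gcongr
        _ = 2 ^ (d + 2) * (Good.card : ℝ) := by ring
    · intro t _ t' _ htt
      simp only at htt
      funext j
      have h1 := hV t j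
      rw [htt, hV t' j] at h1
      have h2 : DD j ≠ 0 := by
        rw [hDD]
        have h3 : ((p j ^ k j * p (j + 1) : ℕ) : ℤ) ≠ 0 := by
          have := Nat.mul_pos (hQ j) (hp (j + 1)).pos
          exact_mod_cast this.ne'
        have h4 : (M : ℤ) ≠ 0 := by exact_mod_cast hM0.ne'
        exact mul_ne_zero (mul_ne_zero (pow_ne_zero 2 h4) hD) h3
      have h3 : DD j * ((t' j : ℕ) : ℤ) = DD j * ((t j : ℕ) : ℤ) := by linarith
      have h4 := mul_left_cancel₀ h2 h3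
      exact_mod_cast h4.symm
  · intro F hF
    rw [Finset.mem_image] at hF
    obtain ⟨t, ht, rfl⟩ := hF
    rw [hGood, Finset.mem_filter, Fintype.mem_piFinset] at ht
    obtain ⟨ht1, ht2⟩ := ht
    have hdeg : (∑ j, C (w t j) * G j).natDegree ≤ d := by
      refine natDegree_sum_le_of_forall_le _ _ fun j _ => ?_
      exact (natDegree_C_mul_le _ _).trans (hGd j)
    obtain ⟨e1, e2, e3⟩ := hEIS d M (∑ j, C (w t j) * G j) (by omega) hdeg hM2
    refine ⟨e1, e2, fun r hr hrd => e3 r hr (hMr r hr hrd), ?_, ?_, ?_, ?_⟩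
    · intro i
      refine (coeff_FF d M G (w t) i).trans ?_
      have h1 : ∀ j, |w t j| ≤ (p (j + 1) : ℤ) * Y := by
        intro j
        have h2 : 0 ≤ w t j := by rw [hw]; positivity
        rw [abs_of_nonneg h2, hw]
        have h3 : om j + (p j ^ k j * p (j + 1)) * t j ≤ p (j + 1) * Y := by
          have h4 := hom1 j
          have h5 := Finset.mem_range.1 (ht1 j)
          calc om j + (p j ^ k j * p (j + 1)) * t j ≤ p j ^ k j * p (j + 1) +
                (p j ^ k j * p (j + 1)) * t j := by omega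
            _ = p j ^ k j * p (j + 1) * (t j + 1) := by ring
            _ ≤ p j ^ k j * p (j + 1) * N j := Nat.mul_le_mul_left _ h5
            _ = p (j + 1) * (p j ^ k j * N j) := by ring
            _ ≤ _ := Nat.mul_le_mul_left _ (hNY j)
        show (om j : ℤ) + ((p j ^ k j * p (j + 1) : ℕ) : ℤ) * ((t j : ℕ) : ℤ) ≤ (p (j + 1) : ℤ) * Y
        exact_mod_cast h3
      have h2 : ∑ j, |w t j| * |(G j).coeff i| ≤ ∑ j, ((p (j + 1) : ℤ) * Y) * Γ := by
        refine Finset.sum_le_sum fun j _ => ?_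
        exact mul_le_mul (h1 j) (hΓ j i) (abs_nonneg _) (by positivity)
      have h3 : ∑ j : Fin (d + 1), ((p (j + 1) : ℤ) * Y) * Γ = (∑ j, (p (j + 1) : ℤ) * Γ) * Y := by
        rw [Finset.sum_mul]
        exact Finset.sum_congr rfl fun j _ => by ring
      have hY1' : (1 : ℤ) ≤ Y := by exact_mod_cast hY1
      have hM' : (0 : ℤ) ≤ M := by positivity
      have h4 : (M : ℤ) ^ 2 * ∑ j, |w t j| * |(G j).coeff i| ≤
          (M : ℤ) ^ 2 * ((∑ j, (p (j + 1) : ℤ) * Γ) * Y) := by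
        rw [← h3]
        exact mul_le_mul_of_nonneg_left h2 (by positivity)
      have h5 : (1 : ℤ) + M ≤ (1 + M) * Y := by nlinarith
      have h6 : (0 : ℤ) ≤ (G0 : ℤ) * Y := by positivity
      rw [hC0]
      push_cast
      nlinarith
    · intro j
      have := hVa (t j) j
      rw [hV t j]
      exact_mod_cast this
    · intro j
      refine ⟨j - 1, ?_⟩
      rw [hV]
      have := hVc (t (j - 1)) (j - 1)
      rwa [sub_add_cancel] at this
    · by_contra hcon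
      push Not at hcon
      apply ht2
      refine ⟨(FF d M G (w t)).content.natAbs, ?_, ?_, ?_⟩
      · have h1 : (FF d M G (w t)).content ≤ ((FF d M G (w t)).content.natAbs : ℤ) :=
          Int.le_natAbs
        have h2 : ((G0 : ℕ) : ℤ) < ((FF d M G (w t)).content.natAbs : ℤ) := by
          push_cast at hcon ⊢
          push_cast at h1
          have : (0 : ℤ) ≤ C0 := by positivity
          linarith
        exact_mod_cast h2
      · rw [hE]
        refine Nat.Coprime.mul_right ?_ (Nat.Coprime.prod_right fun i _ => ?_)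
        · refine Nat.coprime_of_dvd fun r hr hr1 hr2 => ?_
          refine e3 r hr hr2 ?_
          refine dvd_trans ?_ (content_dvd_coeff _)
          exact Int.natCast_dvd.2 hr1
        · rw [Nat.coprime_comm, (hp i).coprime_iff_not_dvd]
          intro h
          have h1 := hVc (t (i - 1)) (i - 1)
          rw [sub_add_cancel, ← hV t (i - 1)] at h1
          exact h1 (dvd_trans (Int.natCast_dvd.2 h) (content_dvd_hev _ _ _ _))
      · intro j
        rw [← hV t j]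
        exact Int.natAbs_dvd.2 (content_dvd_hev _ _ _ _)

end Pool.Agent.H42.AP
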