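import Pool.Agent.H42.AP.Defs

/-!
# AP-FIB: the fibres of the choice of a root (helper67)
-/

set_option autoImplicit false

open Polynomial

namespace Pool.Agent.H42.AP.FIB

theorem assoc_minpoly {F : ℤ[X]} {x : ℂ} (hF : Irreducible (F.map (Int.castRingHom ℚ)))
    (hx : aeval x F = 0) : Associated (minpoly ℚ x) (F.map (Int.castRingHom ℚ)) := by
  have h1 : aeval x (F.map (Int.castRingHom ℚ)) = 0 := by
    rw [← hx]
    have e : (Int.castRingHom ℚ) = algebraMap ℤ ℚ := rfl
    rw [e, aeval_map_algebraMap]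
  have hint : IsIntegral ℚ x := by
    rw [← isAlgebraic_iff_isIntegral]
    exact ⟨_, hF.ne_zero, h1⟩
  exact (minpoly.irreducible hint).associated_of_dvd hF (minpoly.dvd ℚ x h1)

theorem prim_map {F : ℤ[X]} (hF : F ≠ 0) :
    Associated (F.primPart.map (Int.castRingHom ℚ)) (F.map (Int.castRingHom ℚ)) := by
  have h1 : F.map (Int.castRingHom ℚ) =
      C ((F.content : ℤ) : ℚ) * F.primPart.map (Int.castRingHom ℚ) := by
    conv_lhs => rw [F.eq_C_content_mul_primPart]
    rw [Polynomial.map_mul, Polynomial.map_C]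
    rfl
  have hc : ((F.content : ℤ) : ℚ) ≠ 0 := by
    have : F.content ≠ 0 := fun h => hF (content_eq_zero_iff.1 h)
    exact_mod_cast this
  rw [h1]
  have hu : IsUnit (C ((F.content : ℤ) : ℚ)) := isUnit_C.2 (isUnit_iff_ne_zero.2 hc)
  exact associated_unit_mul_right _ _ hu

theorem prim_eq {F G : ℤ[X]} {x : ℂ} (hF : Irreducible (F.map (Int.castRingHom ℚ)))
    (hG : Irreducible (G.map (Int.castRingHom ℚ))) (hxF : aeval x F = 0) (hxG : aeval x G = 0) :
    F.primPart = G.primPart ∨ F.primPart = - G.primPart := by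
  have hF0 : F ≠ 0 := by
    rintro rfl
    exact hF.ne_zero (by simp)
  have hG0 : G ≠ 0 := by
    rintro rfl
    exact hG.ne_zero (by simp)
  have h1 : Associated (F.primPart.map (Int.castRingHom ℚ)) (G.primPart.map (Int.castRingHom ℚ)) :=
    (prim_map hF0).trans (((assoc_minpoly hF hxF).symm.trans (assoc_minpoly hG hxG)).trans
      (prim_map hG0).symm)
  have h2 : F.primPart ∣ G.primPart :=
    (IsPrimitive.Int.dvd_iff_map_cast_dvd_map_cast _ _ F.isPrimitive_primPart).2 h1.dvd
  have h3 : G.primPart ∣ F.primPart :=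
    (IsPrimitive.Int.dvd_iff_map_cast_dvd_map_cast _ _ G.isPrimitive_primPart).2 h1.symm.dvd
  obtain ⟨u, hu⟩ := associated_of_dvd_dvd h3 h2
  obtain ⟨r, hr, hr'⟩ := Polynomial.isUnit_iff.1 u.isUnit
  rw [← hr'] at hu
  rcases Int.isUnit_iff.1 hr with h | h
  · left
    rw [← hu, h]
    simp
  · right
    rw [← hu, h]
    simp

open Classical in
theorem main : S_FIB := by
  intro d N W f _ hW
  have h := Finset.card_le_mul_card_image (f := f) W (2 * N) (fun a _ => ?_)
  · exact h
  rcases (W.filter (fun F => f F = a)).eq_empty_or_nonempty with he | ⟨G, hG⟩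
  · rw [he]; simp
  rw [Finset.mem_filter] at hG
  obtain ⟨hGW, hGa⟩ := hG
  obtain ⟨-, hGi, -, hGr⟩ := hW G hGW
  rw [hGa] at hGr
  have hsub : W.filter (fun F => f F = a) ⊆
      ((Finset.Icc 1 N) ×ˢ ({1, -1} : Finset ℤ)).image
        (fun t => C ((t.1 : ℤ) * t.2) * G.primPart) := by
    intro F hF
    rw [Finset.mem_filter] at hF
    obtain ⟨hFW, hFa⟩ := hF
    obtain ⟨-, hFi, hFc, hFr⟩ := hW F hFW
    rw [hFa] at hFr
    have hF0 : F ≠ 0 := by
      rintro rfl
      exact hFi.ne_zero (by simp)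
    have hc0 : F.content ≠ 0 := fun h => hF0 (content_eq_zero_iff.1 h)
    have hcn : 0 ≤ F.content := Int.nonneg_of_normalize_eq_self normalize_content
    obtain ⟨m, hm⟩ := Int.eq_ofNat_of_zero_le hcn
    have hm1 : 1 ≤ m := by
      rcases Nat.eq_zero_or_pos m with h | h
      · exact absurd (by rw [hm, h]; rfl) hc0
      · exact h
    have hmN : m ≤ N := by
      have : (m : ℤ) ≤ N := hm ▸ hFc
      exact_mod_cast this
    rw [Finset.mem_image]
    rcases prim_eq hFi hGi hFr hGr with h | h
    · refine ⟨(m, 1), ?_, ?_⟩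
      · simp [hm1, hmN]
      · simp only [mul_one]
        rw [← h, ← hm]
        exact F.eq_C_content_mul_primPart.symm
    · refine ⟨(m, -1), ?_, ?_⟩
      · simp [hm1, hmN]
      · have h' : G.primPart = - F.primPart := by rw [h, neg_neg]
        rw [h', ← hm]
        simp only [mul_neg, mul_one, map_neg, neg_mul, neg_neg]
        exact F.eq_C_content_mul_primPart.symm
  refine (Finset.card_le_card hsub).trans (Finset.card_image_le.trans ?_)
  rw [Finset.card_product, Nat.card_Icc]
  have : ({1, -1} : Finset ℤ).card = 2 := by decide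
  rw [this]
  omega

end Pool.Agent.H42.AP.FIB

namespace Pool.Agent.H42.AP

/-- the fibres of the choice of a root -/
theorem fib : S_FIB := FIB.main

end Pool.Agent.H42.AP
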