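import Pool.Agent.H42.AP.Defs

/-! # AP-GCD: few tuples of values of linear polynomials have a large common divisor (helper56) -/

set_option autoImplicit false

namespace Pool.Agent.H42.AP

namespace GCDP

open Finset

/-- elements below `N` in one class modulo `m` -/
lemma class_card (S : Finset ℕ) (N m : ℕ) (hm : 1 ≤ m) (hS : ∀ t ∈ S, t < N)
    (h : ∀ t ∈ S, ∀ t' ∈ S, t ≡ t' [MOD m]) : m * S.card ≤ N + m := by
  have h1 : S.card ≤ N / m + 1 := by
    rw [← card_range (N / m + 1)]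
    refine card_le_card_of_injOn (fun t => t / m) ?_ ?_
    · intro t ht
      have := hS t ht
      simp only [coe_range, Set.mem_Iio]
      exact Nat.lt_succ_of_le (Nat.div_le_div_right this.le)
    · intro t ht t' ht' he
      have h2 := h t ht t' ht'
      simp only at he
      unfold Nat.ModEq at h2
      rw [← Nat.div_add_mod t m, ← Nat.div_add_mod t' m, he, h2]
  calc m * S.card ≤ m * (N / m + 1) := Nat.mul_le_mul_left _ h1
    _ = m * (N / m) + m := by ring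
    _ ≤ N + m := Nat.add_le_add_right (Nat.mul_div_le N m) m

lemma one (D0 N Pw g : ℕ) (c D : ℤ) (hN : 1 ≤ N) (hP : 1 ≤ Pw) (hg : 1 ≤ g)
    (h3 : ∀ t : ℕ, t < N → (Pw : ℤ) ∣ c + D * t ∧ c + D * t ≠ 0 ∧ |c + D * t| ≤ D0 * N * Pw)
    (h4 : Nat.gcd g D.natAbs ≤ D0) (h5 : Nat.Coprime g Pw) :
    g * ((range N).filter (fun t : ℕ => (g : ℤ) ∣ c + D * t)).card ≤ 2 * D0 * N ∧
    (((range N).filter (fun t : ℕ => (g : ℤ) ∣ c + D * t)).Nonempty → g ≤ D0 * N) := by
  have hb : ((range N).filter (fun t : ℕ => (g : ℤ) ∣ c + D * t)).Nonempty → g ≤ D0 * N := by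
    rintro ⟨t, ht⟩
    rw [mem_filter, mem_range] at ht
    obtain ⟨h6, h7, h8⟩ := h3 t ht.1
    have h9 : ((g * Pw : ℕ) : ℤ) ∣ c + D * t := by
      push_cast
      exact IsCoprime.mul_dvd (Nat.isCoprime_iff_coprime.2 h5) ht.2 h6
    have h10 : ((g * Pw : ℕ) : ℤ) ≤ |c + D * t| :=
      Int.le_of_dvd (abs_pos.2 h7) ((dvd_abs _ _).2 h9)
    have h11 : ((g * Pw : ℕ) : ℤ) ≤ ((D0 * N * Pw : ℕ) : ℤ) := by
      push_cast at h10 ⊢
      exact h10.trans h8
    have h12 : g * Pw ≤ D0 * N * Pw := by exact_mod_cast h11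
    exact Nat.le_of_mul_le_mul_right h12 (by omega)
  refine ⟨?_, hb⟩
  rcases ((range N).filter (fun t : ℕ => (g : ℤ) ∣ c + D * t)).eq_empty_or_nonempty with he | he
  · rw [he]; simp
  · have hgN := hb he
    obtain ⟨e, hee⟩ : ∃ e, e = Nat.gcd g D.natAbs := ⟨_, rfl⟩
    have he1 : 1 ≤ e := by rw [hee]; exact Nat.gcd_pos_of_pos_left _ hg
    have hm1 : e * (g / e) = g := by
      rw [hee]; exact Nat.mul_div_cancel' (Nat.gcd_dvd_left _ _)
    have hm0 : 1 ≤ g / e := by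
      rw [hee]; exact Nat.div_pos (Nat.le_of_dvd hg (Nat.gcd_dvd_left _ _))
        (Nat.gcd_pos_of_pos_left _ hg)
    have hcl := class_card ((range N).filter (fun t : ℕ => (g : ℤ) ∣ c + D * t)) N (g / e) hm0
      (fun t ht => mem_range.1 (mem_filter.1 ht).1) (by
        intro t ht t' ht'
        have h6 := (mem_filter.1 ht).2
        have h7 := (mem_filter.1 ht').2
        have h8 : (g : ℤ) ∣ D * ((t' : ℤ) - t) := by
          have := dvd_sub h7 h6
          rwa [show c + D * t' - (c + D * t) = D * ((t' : ℤ) - t) by ring] at this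
        have h9 : g ∣ D.natAbs * ((t' : ℤ) - t).natAbs := by
          rw [← Int.natAbs_mul]
          exact Int.natCast_dvd.1 h8
        have h10 : g / e ∣ ((t' : ℤ) - t).natAbs := by
          have h11 : Nat.Coprime (g / e) (D.natAbs / e) := by
            rw [hee]
            exact Nat.coprime_div_gcd_div_gcd (Nat.gcd_pos_of_pos_left _ hg)
          have h12 : e * (g / e) ∣ e * (D.natAbs / e * ((t' : ℤ) - t).natAbs) := by
            rw [hm1, ← mul_assoc]
            have : e * (D.natAbs / e) = D.natAbs := by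
              rw [hee]; exact Nat.mul_div_cancel' (Nat.gcd_dvd_right _ _)
            rwa [this]
          exact h11.dvd_of_dvd_mul_left (Nat.dvd_of_mul_dvd_mul_left he1 h12)
        rw [← Int.natCast_modEq_iff, Int.modEq_iff_dvd]
        exact Int.natCast_dvd.2 h10)
    have h13 := Nat.mul_le_mul_left e hcl
    rw [← mul_assoc, hm1, mul_add, hm1] at h13
    have h14 : e * N ≤ D0 * N := Nat.mul_le_mul_right _ (hee ▸ h4)
    calc _ ≤ e * N + g := h13
      _ ≤ D0 * N + D0 * N := Nat.add_le_add h14 hgN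
      _ = 2 * D0 * N := by ring

end GCDP

open GCDP Finset in
open Classical in
theorem gcd : S_GCD := by
  intro s D0 E hs hD0
  refine ⟨2 * (2 * D0) ^ s, fun N Pw c D hN hP h3 h4 => ?_⟩
  obtain ⟨G, hG⟩ : ∃ G, G = 2 * (2 * D0) ^ s := ⟨_, rfl⟩
  rw [← hG]
  have hG0 : 1 ≤ G := by
    rw [hG]
    have : 1 ≤ (2 * D0) ^ s := Nat.one_le_pow _ _ (by omega)
    omega
  have hs0 : 0 < s := by omega
  let j0 : Fin s := ⟨0, hs0⟩
  let A : ℕ → Fin s → Finset ℕ := fun g j =>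
    (range (N j)).filter (fun t : ℕ => (g : ℤ) ∣ c j + D j * t)
  -- the bound for one `g`
  have hone : ∀ g : ℕ, 1 ≤ g → Nat.Coprime g E →
      ((∏ j, (A g j).card : ℕ) : ℝ) ≤ (2 * D0) ^ s * (∏ j, (N j : ℝ)) * ((g : ℝ) ^ 2)⁻¹ := by
    intro g hg hgE
    have h5 : ∏ j, (g * (A g j).card) ≤ ∏ j, (2 * D0 * N j) := by
      refine Finset.prod_le_prod' fun j _ => ?_
      exact (GCDP.one D0 (N j) (Pw j) g (c j) (D j) (hN j) (hP j) hg (h3 j) (h4 j g hgE).1
        (h4 j g hgE).2).1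
    rw [Finset.prod_mul_distrib, Finset.prod_mul_distrib, Finset.prod_const, Finset.prod_const,
      Finset.card_univ, Fintype.card_fin] at h5
    have h6 : g ^ 2 * ∏ j, (A g j).card ≤ (2 * D0) ^ s * ∏ j, N j :=
      (Nat.mul_le_mul_right _ (Nat.pow_le_pow_right hg hs)).trans h5
    have hg' : (0 : ℝ) < (g : ℝ) ^ 2 := by positivity
    rw [← div_eq_mul_inv, le_div_iff₀ hg']
    have h7 : ((g ^ 2 * ∏ j, (A g j).card : ℕ) : ℝ) ≤ (((2 * D0) ^ s * ∏ j, N j : ℕ) : ℝ) := by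
      exact_mod_cast h6
    push_cast at h7 ⊢
    linarith
  -- the union
  obtain ⟨H, hH⟩ : ∃ H, H = max G (D0 * N j0) := ⟨_, rfl⟩
  have hsub : (Fintype.piFinset (fun j => Finset.range (N j))).filter (fun t : Fin s → ℕ =>
      ∃ g : ℕ, G < g ∧ Nat.Coprime g E ∧ ∀ j, (g : ℤ) ∣ c j + D j * (t j : ℕ)) ⊆
      ((Ioc G H).filter (fun g => Nat.Coprime g E)).biUnion fun g => Fintype.piFinset (A g) := by
    intro t ht
    rw [mem_filter, Fintype.mem_piFinset] at ht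
    obtain ⟨ht1, g, hg1, hg2, hg3⟩ := ht
    have hmem : ∀ j, t j ∈ A g j := fun j => mem_filter.2 ⟨ht1 j, hg3 j⟩
    rw [mem_biUnion]
    refine ⟨g, mem_filter.2 ⟨mem_Ioc.2 ⟨hg1, ?_⟩, hg2⟩, Fintype.mem_piFinset.2 hmem⟩
    have := (GCDP.one D0 (N j0) (Pw j0) g (c j0) (D j0) (hN j0) (hP j0) (by omega) (h3 j0)
      (h4 j0 g hg2).1 (h4 j0 g hg2).2).2 ⟨t j0, hmem j0⟩
    rw [hH]
    exact this.trans (le_max_right _ _)
  have hcard := (card_le_card hsub).trans card_biUnion_le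
  simp only [Fintype.card_piFinset] at hcard
  have hGH : G ≤ H := by rw [hH]; exact le_max_left _ _
  have hsum : ((∑ g ∈ (Ioc G H).filter (fun g => Nat.Coprime g E), ∏ j, (A g j).card : ℕ) : ℝ) ≤
      (2 * D0) ^ s * (∏ j, (N j : ℝ)) * (G : ℝ)⁻¹ := by
    rw [Nat.cast_sum]
    calc _ ≤ ∑ g ∈ (Ioc G H).filter (fun g => Nat.Coprime g E),
          (2 * D0) ^ s * (∏ j, (N j : ℝ)) * ((g : ℝ) ^ 2)⁻¹ := by
          refine sum_le_sum fun g hg => ?_
          rw [mem_filter, mem_Ioc] at hg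
          exact hone g (by omega) hg.2
      _ ≤ ∑ g ∈ Ioc G H, (2 * D0) ^ s * (∏ j, (N j : ℝ)) * ((g : ℝ) ^ 2)⁻¹ := by
          refine sum_le_sum_of_subset_of_nonneg (filter_subset _ _) fun g _ _ => by positivity
      _ = (2 * D0) ^ s * (∏ j, (N j : ℝ)) * ∑ g ∈ Ioc G H, ((g : ℝ) ^ 2)⁻¹ := by
          rw [mul_sum]
      _ ≤ _ := by
          refine mul_le_mul_of_nonneg_left ?_ (by positivity)
          have := sum_Ioc_inv_sq_le_sub (α := ℝ) (k := G) (n := H) (by omega) hGH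
          have h0 : (0 : ℝ) ≤ (H : ℝ)⁻¹ := by positivity
          linarith
  have hc2 : ((((Fintype.piFinset (fun j => Finset.range (N j))).filter (fun t : Fin s → ℕ =>
      ∃ g : ℕ, G < g ∧ Nat.Coprime g E ∧ ∀ j, (g : ℤ) ∣ c j + D j * (t j : ℕ))).card : ℕ) : ℝ) ≤
      (2 * D0) ^ s * (∏ j, (N j : ℝ)) * (G : ℝ)⁻¹ := le_trans (by exact_mod_cast hcard) hsum
  have hfin : (2 * D0 : ℝ) ^ s * (∏ j, (N j : ℝ)) * (G : ℝ)⁻¹ = (∏ j, (N j : ℝ)) / 2 := by
    rw [hG]
    push_cast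
    have : (2 * D0 : ℝ) ^ s ≠ 0 := by positivity
    field_simp
  rw [hfin] at hc2
  have : ((2 * ((Fintype.piFinset (fun j => Finset.range (N j))).filter (fun t : Fin s → ℕ =>
      ∃ g : ℕ, G < g ∧ Nat.Coprime g E ∧ ∀ j, (g : ℤ) ∣ c j + D j * (t j : ℕ))).card : ℕ) : ℝ) ≤
      ((∏ j, N j : ℕ) : ℝ) := by
    push_cast at hc2 ⊢
    linarith
  exact_mod_cast this

end Pool.Agent.H42.AP
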