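import Pool.Agent.H42.AP.Defs

/-! AP-LAG: the polynomials of Lagrange -/

set_option autoImplicit false

open NumberField IsDedekindDomain Polynomial

namespace Pool.Agent.H42.AP

namespace LAGaux

theorem hev_C_mul (d : ℕ) (c : ℤ) (F : ℤ[X]) (a b : ℤ) :
    hev d (C c * F) a b = c * hev d F a b := by
  unfold hev
  rw [Finset.mul_sum]
  refine Finset.sum_congr rfl fun i _ => ?_
  rw [coeff_C_mul]
  ring

theorem hev_sub (d : ℕ) (F G : ℤ[X]) (a b : ℤ) :
    hev d (F - G) a b = hev d F a b - hev d G a b := by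
  unfold hev
  rw [← Finset.sum_sub_distrib]
  refine Finset.sum_congr rfl fun i _ => ?_
  rw [coeff_sub]
  ring

theorem hev_mul_X (d : ℕ) (F : ℤ[X]) (a b : ℤ) :
    hev (d + 1) (F * X) a b = a * hev d F a b := by
  unfold hev
  rw [Finset.sum_range_succ', mul_coeff_zero, coeff_X_zero, mul_zero, zero_mul, zero_mul, add_zero,
    Finset.mul_sum]
  refine Finset.sum_congr rfl fun i _ => ?_
  rw [coeff_mul_X, Nat.add_sub_add_right]
  ring

theorem hev_succ {d : ℕ} {F : ℤ[X]} (h : F.natDegree ≤ d) (a b : ℤ) :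
    hev (d + 1) F a b = b * hev d F a b := by
  unfold hev
  rw [Finset.sum_range_succ, coeff_eq_zero_of_natDegree_lt (by omega : F.natDegree < d + 1),
    zero_mul, zero_mul, add_zero, Finset.mul_sum]
  refine Finset.sum_congr rfl fun i hi => ?_
  rw [Finset.mem_range] at hi
  rw [show d + 1 - i = (d - i) + 1 by omega]
  ring

theorem hev_prod {ι : Type} [DecidableEq ι] (s : Finset ι) (A B : ι → ℤ) :
    (∏ i ∈ s, (C (B i) * X - C (A i))).natDegree ≤ s.card ∧ ∀ a b : ℤ,
      hev s.card (∏ i ∈ s, (C (B i) * X - C (A i))) a b = ∏ i ∈ s, (B i * a - A i * b) := by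
  induction s using Finset.induction_on with
  | empty =>
    refine ⟨by simp, fun a b => ?_⟩
    simp [hev]
  | insert i s hi ih =>
    obtain ⟨h1, h2⟩ := ih
    have hlin : (C (B i) * X - C (A i)).natDegree ≤ 1 := by
      refine (natDegree_sub_le _ _).trans ?_
      rw [natDegree_C, max_eq_left (Nat.zero_le _)]
      refine natDegree_mul_le.trans ?_
      rw [natDegree_C, natDegree_X]
    constructor
    · rw [Finset.prod_insert hi, Finset.card_insert_of_notMem hi]
      refine natDegree_mul_le.trans ?_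
      omega
    · intro a b
      rw [Finset.prod_insert hi, Finset.card_insert_of_notMem hi, Finset.prod_insert hi, ← h2 a b]
      set P := ∏ i ∈ s, (C (B i) * X - C (A i)) with hP
      rw [show (C (B i) * X - C (A i)) * P = C (B i) * (P * X) - C (A i) * P by ring, hev_sub,
        hev_C_mul, hev_C_mul, hev_mul_X, hev_succ h1]
      ring

end LAGaux

open LAGaux in
/-- the polynomials of Lagrange -/
theorem lag : S_LAG := by
  classical
  intro d hd A B hP
  set E : Fin (d + 1) → ℤ := fun j => ∏ i ∈ Finset.univ.erase j, (B i * A j - A i * B j) with hE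
  have hcard : ∀ j : Fin (d + 1), (Finset.univ.erase j).card = d := by
    intro j
    rw [Finset.card_erase_of_mem (Finset.mem_univ j), Finset.card_univ, Fintype.card_fin]
    rfl
  have hE0 : ∀ j, E j ≠ 0 := by
    intro j
    refine Finset.prod_ne_zero_iff.2 fun i hi h => ?_
    have hij : i ≠ j := Finset.ne_of_mem_erase hi
    refine hP.ind j i hij.symm ?_
    linarith
  set Q : Fin (d + 1) → ℤ[X] := fun j => ∏ i ∈ Finset.univ.erase j, (C (B i) * X - C (A i)) with hQ
  have hQd : ∀ j, (Q j).natDegree ≤ d := by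
    intro j
    have := (hev_prod (Finset.univ.erase j) A B).1
    rwa [hcard j] at this
  have hQv : ∀ j a b, hev d (Q j) a b = ∏ i ∈ Finset.univ.erase j, (B i * a - A i * b) := by
    intro j a b
    have := (hev_prod (Finset.univ.erase j) A B).2 a b
    rwa [hcard j] at this
  refine ⟨∏ j, E j, fun j => C (∏ i ∈ Finset.univ.erase j, E i) * Q j,
    Finset.prod_ne_zero_iff.2 fun j _ => hE0 j, fun j => ?_, fun j => ?_, fun i j hij => ?_⟩
  · exact (natDegree_C_mul_le _ _).trans (hQd j)
  · rw [hev_C_mul, hQv, ← Finset.mul_prod_erase Finset.univ E (Finset.mem_univ j), mul_comm]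
  · have h0 : ∏ k ∈ Finset.univ.erase j, (B k * A i - A k * B i) = 0 :=
      Finset.prod_eq_zero (Finset.mem_erase.2 ⟨hij, Finset.mem_univ i⟩) (by ring)
    rw [hev_C_mul, hQv, h0, mul_zero]

end Pool.Agent.H42.AP
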