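import Pool.Agent.H42.AP.Defs

/-!
LOW: the lower bound for the number of exceptional algebraic numbers.
-/

set_option autoImplicit false

open NumberField IsDedekindDomain Polynomial

namespace Pool.Agent.H42.AP

/-- the product of a constant over the indices below `m0` -/
lemma low_prod_ite (d m0 : ℕ) (hm : m0 ≤ d + 1) (u : ℝ) :
    ∏ j : Fin (d + 1), (if (j : ℕ) < m0 then u else 1) = u ^ m0 := by
  rw [Fin.prod_univ_eq_prod_range (fun i => if i < m0 then u else 1) (d + 1), Finset.prod_ite,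
    Finset.prod_const, Finset.prod_const_one, mul_one]
  congr 1
  have : (Finset.range (d + 1)).filter (fun i => i < m0) = Finset.range m0 := by
    ext i
    rw [Finset.mem_filter, Finset.mem_range, Finset.mem_range]
    constructor
    · exact fun h => h.2
    · exact fun h => ⟨by omega, h⟩
  rw [this, Finset.card_range]

/-- the choice of the exponents -/
lemma low_exp (d m0 C : ℕ) (p : Fin (d + 1) → ℕ) (hp : ∀ j, (p j).Prime) (hC : 1 ≤ C)
    (hm0 : 1 ≤ m0) (hm : m0 ≤ d + 1) (κ C8 : ℝ) (hκ : 0 ≤ κ) (hκm : κ < m0) :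
    ∃ (c1 : ℝ) (Y0 : ℕ), 0 < c1 ∧ ∀ Y : ℕ, Y0 ≤ Y → 1 ≤ Y → ∃ k : Fin (d + 1) → ℕ,
      (∀ j, C * p j ^ k j ≤ Y) ∧
      κ * Real.log ((d + 1) * (C * Y)) + C8 ≤
        ∑ l : Fin m0, (k (Fin.castLE hm l) : ℝ) * Real.log (p (Fin.castLE hm l)) ∧
      c1 * (Y : ℝ) ^ ((d : ℝ) + 1 - κ) ≤ ∏ j, ((Y : ℝ) / (p j : ℝ) ^ k j) := by
  have hCr : (1 : ℝ) ≤ C := by exact_mod_cast hC
  have hm0r : (0 : ℝ) < m0 := by exact_mod_cast hm0
  set D : ℝ := ((d : ℝ) + 1) * C with hD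
  have hD1 : 1 ≤ D := by
    rw [hD]
    have : (0 : ℝ) ≤ d := Nat.cast_nonneg d
    nlinarith
  set E : ℝ := Real.exp |C8| * D ^ κ with hE
  have hE1 : 1 ≤ E := by
    have h1 : 1 ≤ Real.exp |C8| := Real.one_le_exp (abs_nonneg _)
    have h2 : 1 ≤ D ^ κ := Real.one_le_rpow hD1 hκ
    nlinarith
  have hE0 : 0 < E := by linarith
  set P : ℝ := ∏ j, (p j : ℝ) with hP
  have hp0 : ∀ j, (1 : ℝ) < p j := fun j => by exact_mod_cast (hp j).one_lt
  have hP0 : 0 < P := Finset.prod_pos fun j _ => by linarith [hp0 j]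
  set S : ℝ := ∑ j, (p j : ℝ) with hS
  have hpS : ∀ j, (p j : ℝ) ≤ S := fun j =>
    Finset.single_le_sum (f := fun j => (p j : ℝ)) (fun i _ => by linarith [hp0 i])
      (Finset.mem_univ j)
  have hS1 : 1 ≤ S := by
    have := hpS ⟨0, by omega⟩
    linarith [hp0 ⟨0, by omega⟩]
  -- large `Y`
  set θ : ℝ := 1 - κ / m0 with hθ
  have hθ0 : 0 < θ := by
    rw [hθ, sub_pos, div_lt_one hm0r]
    exact hκm
  obtain ⟨Y0, hY0⟩ : ∃ Y0 : ℕ, ∀ Y : ℕ, Y0 ≤ Y → C * S * E ^ (1 / (m0 : ℝ)) ≤ (Y : ℝ) ^ θ := by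
    have h1 := (tendsto_rpow_atTop hθ0).comp tendsto_natCast_atTop_atTop
    obtain ⟨Y0, h⟩ := Filter.eventually_atTop.1
      (h1.eventually_ge_atTop (C * S * E ^ (1 / (m0 : ℝ))))
    exact ⟨Y0, fun Y hY => h Y hY⟩
  refine ⟨(P * E)⁻¹, Y0, by positivity, fun Y hY hY1 => ?_⟩
  have hY1r : (1 : ℝ) ≤ Y := by exact_mod_cast hY1
  have hYpos : (0 : ℝ) < Y := by linarith
  have hD0 : 0 < D := by linarith
  -- `Λ` and `x`
  set Λ : ℝ := Real.exp |C8| * (((d : ℝ) + 1) * (C * Y)) ^ κ with hΛ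
  have hΛE : Λ = E * (Y : ℝ) ^ κ := by
    rw [hΛ, hE, mul_assoc, ← Real.mul_rpow hD0.le hYpos.le, hD]
    congr 2
    ring
  have hΛ1 : 1 ≤ Λ := by
    rw [hΛE]
    have : 1 ≤ (Y : ℝ) ^ κ := Real.one_le_rpow hY1r hκ
    nlinarith
  have hΛ0 : 0 < Λ := by linarith
  set x : ℝ := Λ ^ (1 / (m0 : ℝ)) with hx
  have hx1 : 1 ≤ x := Real.one_le_rpow hΛ1 (by positivity)
  have hx0 : 0 < x := by linarith
  have hxm : x ^ m0 = Λ := by
    rw [hx, ← Real.rpow_natCast, ← Real.rpow_mul hΛ0.le, one_div, inv_mul_cancel₀ hm0r.ne',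
      Real.rpow_one]
  have hxY : C * S * x ≤ Y := by
    have h1 : x = E ^ (1 / (m0 : ℝ)) * (Y : ℝ) ^ (κ / m0) := by
      rw [hx, hΛE, Real.mul_rpow hE0.le (by positivity), ← Real.rpow_mul hYpos.le, mul_one_div]
    calc C * S * x = C * S * E ^ (1 / (m0 : ℝ)) * (Y : ℝ) ^ (κ / m0) := by rw [h1]; ring
      _ ≤ (Y : ℝ) ^ θ * (Y : ℝ) ^ (κ / m0) :=
          mul_le_mul_of_nonneg_right (hY0 Y hY) (by positivity)
      _ = Y := by
          rw [← Real.rpow_add hYpos, hθ, sub_add_cancel, Real.rpow_one]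
  choose n hn using fun j => exists_nat_pow_near hx1 (hp0 j)
  refine ⟨fun j => if (j : ℕ) < m0 then n j + 1 else 0, ?_, ?_, ?_⟩
  · intro j
    show C * p j ^ (if (j : ℕ) < m0 then n j + 1 else 0) ≤ Y
    by_cases hj : (j : ℕ) < m0
    · rw [if_pos hj]
      have h1 : ((C * p j ^ (n j + 1) : ℕ) : ℝ) ≤ Y := by
        push_cast
        calc (C : ℝ) * (p j : ℝ) ^ (n j + 1) = C * (p j * (p j : ℝ) ^ n j) := by
              rw [pow_succ']
          _ ≤ C * (S * x) := by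
              apply mul_le_mul_of_nonneg_left _ (by linarith)
              exact mul_le_mul (hpS j) (hn j).1 (by positivity) (by linarith)
          _ = C * S * x := by ring
          _ ≤ Y := hxY
      exact_mod_cast h1
    · rw [if_neg hj, pow_zero, mul_one]
      have h1 : (C : ℝ) ≤ Y := by
        calc (C : ℝ) = C * 1 * 1 := by ring
          _ ≤ C * S * x := by gcongr
          _ ≤ Y := hxY
      exact_mod_cast h1
  · have h1 : ∀ l : Fin m0, Real.log x ≤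
        (((fun j : Fin (d + 1) => if (j : ℕ) < m0 then n j + 1 else 0) (Fin.castLE hm l) : ℕ) : ℝ) *
          Real.log (p (Fin.castLE hm l)) := by
      intro l
      have hl : ((Fin.castLE hm l : Fin (d + 1)) : ℕ) < m0 := l.2
      show Real.log x ≤ ((if ((Fin.castLE hm l : Fin (d + 1)) : ℕ) < m0 then
        n (Fin.castLE hm l) + 1 else 0 : ℕ) : ℝ) * Real.log (p (Fin.castLE hm l))
      rw [if_pos hl, ← Real.log_pow]
      exact Real.log_le_log hx0 (hn _).2.le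
    have h2 : (m0 : ℝ) * Real.log x ≤ ∑ l : Fin m0,
        (((fun j : Fin (d + 1) => if (j : ℕ) < m0 then n j + 1 else 0) (Fin.castLE hm l) : ℕ) : ℝ) *
          Real.log (p (Fin.castLE hm l)) := by
      have := Finset.sum_le_sum fun l (_ : l ∈ (Finset.univ : Finset (Fin m0))) => h1 l
      rwa [Finset.sum_const, Finset.card_univ, Fintype.card_fin, nsmul_eq_mul] at this
    refine le_trans ?_ h2
    rw [← Real.log_pow, hxm, hΛ, Real.log_mul (Real.exp_pos _).ne'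
      (Real.rpow_pos_of_pos (by positivity) _).ne', Real.log_exp,
      Real.log_rpow (by positivity)]
    linarith [le_abs_self C8]
  · have h1 : ∏ j : Fin (d + 1), ((Y : ℝ) / (p j : ℝ) * (if (j : ℕ) < m0 then x⁻¹ else 1)) ≤
        ∏ j : Fin (d + 1), ((Y : ℝ) / (p j : ℝ) ^ (if (j : ℕ) < m0 then n j + 1 else 0)) := by
      apply Finset.prod_le_prod
      · intro j _
        have := hp0 j
        split_ifs <;> positivity
      · intro j _
        have hpj : (0 : ℝ) < p j := by linarith [hp0 j]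
        by_cases hj : (j : ℕ) < m0
        · rw [if_pos hj, if_pos hj, pow_succ', ← div_eq_mul_inv, div_div]
          apply div_le_div_of_nonneg_left hYpos.le (by positivity)
          exact mul_le_mul_of_nonneg_left (hn j).1 hpj.le
        · rw [if_neg hj, if_neg hj, pow_zero, mul_one, div_one]
          exact div_le_self hYpos.le (hp0 j).le
    refine le_trans (le_of_eq ?_) h1
    rw [Finset.prod_mul_distrib, low_prod_ite d m0 hm, Finset.prod_div_distrib, Finset.prod_const,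
      Finset.card_univ, Fintype.card_fin, inv_pow, hxm, hΛE, ← hP]
    have e : (Y : ℝ) ^ ((d : ℝ) + 1 - κ) = (Y : ℝ) ^ (d + 1) / (Y : ℝ) ^ κ := by
      rw [Real.rpow_sub hYpos]
      congr 1
      have : ((d : ℝ) + 1) = ((d + 1 : ℕ) : ℝ) := by push_cast; ring
      rw [this, Real.rpow_natCast]
    rw [e]
    have : (Y : ℝ) ^ κ ≠ 0 := (Real.rpow_pos_of_pos hYpos _).ne'
    field_simp

theorem low (h1 : S_FAM) (h2 : S_PTW) (h3 : S_FIB) (h4 : S_EXT) (h5 : S_UP1) (h6 : S_UP2) :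
    S_LOW := by
  classical
  intro d q hd hq a b hab T κ c hκ hκq hκd
  set m0 : ℕ := min q (d + 1) with hm0def
  have hm : m0 ≤ q := min_le_left _ _
  have hm' : m0 ≤ d + 1 := min_le_right _ _
  have hm01 : 1 ≤ m0 := by omega
  have hκm : κ < m0 := by
    rw [hm0def, Nat.cast_min, lt_min_iff]
    refine ⟨hκq, ?_⟩
    push_cast
    exact hκd
  obtain ⟨A, B, hAB, hmatch⟩ : ∃ A B : Fin (d + 1) → ℤ, Pts A B ∧ ∀ l : Fin m0,
      a (Fin.castLE hm l) = A (Fin.castLE hm' l) ∧ b (Fin.castLE hm l) = B (Fin.castLE hm' l) := by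
    rcases le_total q (d + 1) with h | h
    · obtain ⟨A, B, hAB, hl⟩ := h4 q (d + 1) h a b hab
      refine ⟨A, B, hAB, fun l => ?_⟩
      have h7 := hl (Fin.castLE hm l)
      have e : Fin.castLE h (Fin.castLE hm l) = Fin.castLE hm' l := rfl
      rw [e] at h7
      exact ⟨h7.1.symm, h7.2.symm⟩
    · refine ⟨fun j => a (Fin.castLE h j), fun j => b (Fin.castLE h j),
        ⟨fun j => hab.cop _, fun i j hij => hab.ind _ _ ?_⟩, fun l => ⟨rfl, rfl⟩⟩
      intro hcon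
      exact hij (Fin.castLE_injective h hcon)
  obtain ⟨p, C, c0, hc0, hC, hp, hfam⟩ := h1 d hd A B hAB
  obtain ⟨C8, hC8⟩ := h2 d q m0 hd A B hAB a b hab hm hm' hmatch T κ c hκ p C hp hC
  obtain ⟨c1, Y0, hc1, hexp⟩ := low_exp d m0 C p hp hC hm01 hm' κ C8 hκ hκm
  have hCr : (1 : ℝ) ≤ C := by exact_mod_cast hC
  set D : ℝ := ((d : ℝ) + 1) * C with hD
  have hD1 : 1 ≤ D := by
    rw [hD]
    have : (0 : ℝ) ≤ d := Nat.cast_nonneg d
    nlinarith
  have hD0 : 0 < D := by linarith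
  have hβ : 0 < (d : ℝ) + 1 - κ := by linarith
  refine ⟨c0 * c1 * ((2 * D)⁻¹) ^ ((d : ℝ) + 1 - κ) / (2 * C), D * ((Y0 : ℝ) + 2), by positivity, ?_⟩
  intro Z hZ
  have hY0r : (0 : ℝ) ≤ Y0 := Nat.cast_nonneg Y0
  have hZ1 : 1 ≤ Z := by nlinarith
  have hZ0 : 0 < Z := by linarith
  have hZd : Z ≤ Z ^ d := le_self_pow₀ hZ1 (by omega)
  set t : ℝ := Z ^ d / D with ht
  have htY : (Y0 : ℝ) + 2 ≤ t := by
    rw [ht, le_div_iff₀ hD0]
    linarith
  have ht0 : 0 ≤ t := by linarith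
  set Y : ℕ := ⌊t⌋₊ with hYdef
  have hYt : (Y : ℝ) ≤ t := Nat.floor_le ht0
  have hYt' : t < Y + 1 := Nat.lt_floor_add_one t
  have hYY0 : Y0 ≤ Y := by
    have : (Y0 : ℝ) ≤ Y := by linarith
    exact_mod_cast this
  have hY1 : 1 ≤ Y := by
    have : (1 : ℝ) ≤ Y := by linarith
    exact_mod_cast this
  have hYhalf : t / 2 ≤ Y := by linarith
  obtain ⟨k, hk1, hk2, hk3⟩ := hexp Y hYY0 hY1
  obtain ⟨W, hWcard, hW⟩ := hfam Y k hk1
  -- the points
  have hH : ((d : ℝ) + 1) * (C * Y) ≤ Z ^ d := by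
    have h7 : (Y : ℝ) * D ≤ Z ^ d := (le_div_iff₀ hD0).1 hYt
    calc ((d : ℝ) + 1) * (C * Y) = Y * D := by rw [hD]; ring
      _ ≤ _ := h7
  have hpt : ∀ F : ℤ[X], ∃ x : ℂ, F ∈ W → aeval x F = 0 ∧ x ∈ Exc d T a b κ c Z := by
    intro F
    by_cases hF : F ∈ W
    · obtain ⟨g1, g2, g3, g4, g5, g6, g7⟩ := hW F hF
      obtain ⟨x, hx1, hx2⟩ := hC8 Y k F hY1 g1 g2 g3 g4 g5 g6 hk2 Z hZ1 hH
      exact ⟨x, fun _ => ⟨hx1, hx2⟩⟩
    · exact ⟨0, fun h => absurd h hF⟩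
  choose f hf using hpt
  have hfib := h3 d C W f (by omega) (fun F hF => by
    obtain ⟨g1, g2, g3, g4, g5, g6, g7⟩ := hW F hF
    exact ⟨g1, g2, g7, (hf F hF).1⟩)
  have hfin : (Exc d T a b κ c Z).Finite := by
    rcases le_total q (d + 1) with h | h
    · obtain ⟨C', -, hC'⟩ := h5 d q hd h a b hab T κ c 1 hκ hκq.le one_pos
      exact (hC' Z hZ1).1
    · obtain ⟨C', -, hC'⟩ := h6 d q hd h a b hab T κ c 1 hκ hκq.le one_pos
      exact (hC' Z hZ1).1
  have himg : (W.image f).card ≤ (Exc d T a b κ c Z).ncard := by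
    have hsub : ((W.image f : Finset ℂ) : Set ℂ) ⊆ Exc d T a b κ c Z := by
      intro x hx
      rw [Finset.mem_coe, Finset.mem_image] at hx
      obtain ⟨F, hF, rfl⟩ := hx
      exact (hf F hF).2
    have := Set.ncard_le_ncard hsub hfin
    rwa [Set.ncard_coe_finset] at this
  have hfinal : (W.card : ℝ) ≤ 2 * C * ((Exc d T a b κ c Z).ncard : ℝ) := by
    have h7 : W.card ≤ 2 * C * (Exc d T a b κ c Z).ncard :=
      hfib.trans (Nat.mul_le_mul_left _ himg)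
    exact_mod_cast h7
  have hYpow : ((2 * D)⁻¹) ^ ((d : ℝ) + 1 - κ) * Z ^ ((d : ℝ) * (d + 1 - κ)) ≤
      (Y : ℝ) ^ ((d : ℝ) + 1 - κ) := by
    have e1 : Z ^ ((d : ℝ) * (d + 1 - κ)) = (Z ^ d) ^ ((d : ℝ) + 1 - κ) := by
      rw [Real.rpow_mul hZ0.le, Real.rpow_natCast]
    rw [e1, ← Real.mul_rpow (by positivity) (by positivity)]
    apply Real.rpow_le_rpow (by positivity) _ hβ.le
    calc (2 * D)⁻¹ * Z ^ d = t / 2 := by
          rw [ht]
          field_simp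
      _ ≤ Y := hYhalf
  have hmain : c0 * c1 * (((2 * D)⁻¹) ^ ((d : ℝ) + 1 - κ) * Z ^ ((d : ℝ) * (d + 1 - κ))) ≤
      2 * C * ((Exc d T a b κ c Z).ncard : ℝ) := by
    calc c0 * c1 * (((2 * D)⁻¹) ^ ((d : ℝ) + 1 - κ) * Z ^ ((d : ℝ) * (d + 1 - κ)))
        ≤ c0 * c1 * (Y : ℝ) ^ ((d : ℝ) + 1 - κ) :=
          mul_le_mul_of_nonneg_left hYpow (by positivity)
      _ = c0 * (c1 * (Y : ℝ) ^ ((d : ℝ) + 1 - κ)) := by ring
      _ ≤ c0 * ∏ j, ((Y : ℝ) / (p j : ℝ) ^ k j) := mul_le_mul_of_nonneg_left hk3 hc0.le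
      _ ≤ W.card := hWcard
      _ ≤ _ := hfinal
  have h2C : (0 : ℝ) < 2 * C := by linarith
  calc c0 * c1 * ((2 * D)⁻¹) ^ ((d : ℝ) + 1 - κ) / (2 * C) * Z ^ ((d : ℝ) * (d + 1 - κ))
      = (c0 * c1 * (((2 * D)⁻¹) ^ ((d : ℝ) + 1 - κ) * Z ^ ((d : ℝ) * (d + 1 - κ)))) / (2 * C) := by
        ring
    _ ≤ _ := by
        rw [div_le_iff₀ h2C]
        linarith

end Pool.Agent.H42.AP
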