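import Pool.Agent.H42.AP.Defs

/-!
Stub PI (helper69): no pole modulo `p` if the leading coefficient is prime to `p`.
-/

set_option autoImplicit false

open NumberField IsDedekindDomain Polynomial

namespace Pool.Agent.H42.AP

namespace PIaux

variable {K : Type} [Field K] [NumberField K]

lemma fp_neg (w : FinitePlace K) (x : K) : w (-x) = w x := by
  rw [FinitePlace.coe_apply, FinitePlace.coe_apply, AbsoluteValue.map_neg]

/-- the ultrametric inequality for finite sums -/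
lemma sum_lt (w : FinitePlace K) (s : Finset ℕ) (f : ℕ → K) (B : ℝ) (hB : 0 < B)
    (h : ∀ i ∈ s, w (f i) < B) : w (∑ i ∈ s, f i) < B := by
  induction s using Finset.induction_on with
  | empty => simpa using hB
  | insert a s ha ih =>
    rw [Finset.sum_insert ha]
    refine lt_of_le_of_lt (FinitePlace.add_le w _ _) (max_lt (h a (Finset.mem_insert_self a s)) ?_)
    exact ih fun i hi => h i (Finset.mem_insert_of_mem hi)

lemma int_le (v : HeightOneSpectrum (𝓞 K)) (c : ℤ) : FinitePlace.mk v (c : K) ≤ 1 := by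
  rw [FinitePlace.mk_apply]
  have h1 := FinitePlace.norm_le_one (K := K) v ((c : ℤ) : 𝓞 K)
  simpa using h1

lemma int_eq (v : HeightOneSpectrum (𝓞 K)) (c : ℤ) (p : ℕ) (hp : p.Prime)
    (hv : ((p : ℕ) : 𝓞 K) ∈ v.asIdeal) (hc : ¬ (p : ℤ) ∣ c) : FinitePlace.mk v (c : K) = 1 := by
  rw [FinitePlace.mk_apply]
  have h1 : ((c : ℤ) : 𝓞 K) ∉ v.asIdeal := by
    intro h
    have hpZ : Prime (p : ℤ) := Nat.prime_iff_prime_int.1 hp
    have hcop : IsCoprime (p : ℤ) c := (hpZ.coprime_iff_not_dvd).2 hc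
    obtain ⟨r, s, hrs⟩ := hcop
    have h2 : (1 : 𝓞 K) ∈ v.asIdeal := by
      have h3 : ((r : ℤ) : 𝓞 K) * ((p : ℕ) : 𝓞 K) + ((s : ℤ) : 𝓞 K) * ((c : ℤ) : 𝓞 K) = 1 := by
        exact_mod_cast congrArg (fun z : ℤ => (z : 𝓞 K)) hrs
      rw [← h3]
      exact v.asIdeal.add_mem (v.asIdeal.mul_mem_left _ hv) (v.asIdeal.mul_mem_left _ h)
    exact v.isPrime.ne_top ((Ideal.eq_top_iff_one _).2 h2)
  have h2 := (FinitePlace.norm_eq_one_iff_notMem (K := K) v ((c : ℤ) : 𝓞 K)).2 h1
  simpa using h2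

end PIaux

open PIaux in
theorem pi : S_PI := by
  intro K _ _ y n hden F hF p hp hlead hpn
  have hcop : IsCoprime (1 : ℤ) 0 := isCoprime_one_left
  obtain ⟨m, hm⟩ := hden.val 1 0 hcop
  have hm2 : m ^ 2 = (n : ℤ) ^ 2 := by
    have h1 : (m : ℚ) = n * Algebra.norm ℚ (((0 : ℤ) : K) * y - ((1 : ℤ) : K)) := hm
    have h2 : ((0 : ℤ) : K) * y - ((1 : ℤ) : K) = -1 := by simp
    have h3 : (Algebra.norm ℚ (-1 : K)) ^ 2 = 1 := by
      rw [← map_pow]; simp
    rw [h2] at h1
    have h4 : (m : ℚ) ^ 2 = (n : ℚ) ^ 2 := by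
      rw [h1, mul_pow, h3, mul_one]
    exact_mod_cast h4
  have hpm : (p : ℤ) ∣ m := by
    have hpZ : Prime (p : ℤ) := Nat.prime_iff_prime_int.1 hp
    apply hpZ.dvd_of_dvd_pow (n := 2)
    rw [hm2]
    exact dvd_pow (by exact_mod_cast hpn) (by norm_num)
  obtain ⟨v, hc, hv⟩ := hden.pr 1 0 m hcop (by simp) hm p hp hpm
  set w : FinitePlace K := FinitePlace.mk v with hw
  have hy : 1 < w y := by
    unfold Close at hc
    have h1 : ((0 : ℤ) : K) * y - ((1 : ℤ) : K) = -1 := by simp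
    rw [h1] at hc
    have h2 : FinitePlace.mk v (-1 : K) = 1 := by
      rw [fp_neg, map_one]
    rw [h2] at hc
    rcases lt_max_iff.1 hc with h | h
    · exact absurd h (lt_irrefl _)
    · exact h
  rw [aeval_eq_sum_range, Finset.sum_range_succ] at hF
  have h1 : w (F.coeff F.natDegree • y ^ F.natDegree) = (w y) ^ F.natDegree := by
    have h5 : ¬ (p : ℤ) ∣ F.coeff F.natDegree := hlead
    rw [zsmul_eq_mul, map_mul, map_pow, hw, int_eq v _ p hp hv h5, one_mul]
  have h2 : w (∑ i ∈ Finset.range F.natDegree, F.coeff i • y ^ i) < (w y) ^ F.natDegree := by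
    apply sum_lt w _ _ _ (by positivity)
    intro i hi
    rw [Finset.mem_range] at hi
    rw [zsmul_eq_mul, map_mul, map_pow]
    calc w ((F.coeff i : ℤ) : K) * w y ^ i ≤ 1 * w y ^ i :=
          mul_le_mul_of_nonneg_right (int_le v _) (by positivity)
      _ = w y ^ i := one_mul _
      _ < w y ^ F.natDegree := pow_lt_pow_right₀ hy hi
  have h3 : F.coeff F.natDegree • y ^ F.natDegree =
      -(∑ i ∈ Finset.range F.natDegree, F.coeff i • y ^ i) := by
    rw [eq_neg_iff_add_eq_zero, add_comm]; exact hF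
  rw [h3, fp_neg] at h1
  exact absurd h1 h2.ne

end Pool.Agent.H42.AP
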