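import Pool.Agent.H42.AP.Defs

/-! AP-PTW (helper86): a polynomial of the family gives an exceptional algebraic number. -/

set_option autoImplicit false

open NumberField IsDedekindDomain Polynomial

namespace Pool.Agent.H42.AP

namespace PTWx

lemma sum_part {q m0 : ℕ} (hm : m0 ≤ q) (g : Fin m0 → ℝ) :
    ∑ l : Fin q, (if h : l.1 < m0 then g ⟨l.1, h⟩ else 0) = ∑ l, g l := by
  rw [Fin.sum_univ_eq_sum_range (fun i => if h : i < m0 then g ⟨i, h⟩ else 0) q,
    ← Finset.sum_subset (Finset.range_mono hm), Finset.sum_range]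
  · exact Finset.sum_congr rfl fun l _ => by rw [dif_pos l.2]
  · intro i _ hi
    rw [Finset.mem_range] at hi
    rw [dif_neg hi]

lemma one_le_abs_add {a b : ℤ} (h : IsCoprime a b) : (1 : ℝ) ≤ |(a : ℝ)| + |(b : ℝ)| := by
  by_cases ha : a = 0
  · have hb : b ≠ 0 := by
      rintro rfl
      rw [ha] at h
      exact not_isCoprime_zero_zero h
    have : (1 : ℤ) ≤ |b| := Int.one_le_abs hb
    have h2 : (1 : ℝ) ≤ |(b : ℝ)| := by exact_mod_cast this
    linarith [abs_nonneg (a : ℝ)]
  · have : (1 : ℤ) ≤ |a| := Int.one_le_abs ha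
    have h2 : (1 : ℝ) ≤ |(a : ℝ)| := by exact_mod_cast this
    linarith [abs_nonneg (b : ℝ)]

end PTWx

open PTWx in
theorem ptw (hR : S_ROOT) : S_PTW := by
  intro d q m0 hd A B hAB a b hab hm hm' hl T κ c hκ p C hp hC
  set C7 : ℝ := (∑ l : Fin q, (d * Real.log (|(a l : ℝ)| + |(b l : ℝ)|) + d * Real.log 2)) +
    ∑ l : Fin m0, d * Real.log (p (Fin.castLE hm' l)) with hC7
  refine ⟨C7 - c, ?_⟩
  intro Y k F hY hF hirr hlead hco hdiv hnd hineq H hH hYH
  obtain ⟨K, _, _, φ, y, n, g, hDen, hfr, hmin, hy, hg, hne, hval, hht⟩ := hR d F hd hF hirr hlead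
  have hH0 : Height.mulHeight₁ y ≤ (d + 1) * (C * Y) := by
    refine hht _ fun i => ?_
    exact_mod_cast hco i
  have h1 := Height.one_le_mulHeight₁ y
  have h1pos : 0 < Height.mulHeight₁ y := by linarith
  have hlog : Height.logHeight₁ y ≤ Real.log ((d + 1) * (C * Y)) := by
    rw [Height.logHeight₁_eq_log_mulHeight₁]
    exact Real.log_le_log h1pos hH0
  have hlog2 : Height.logHeight₁ y ≤ d * Real.log H := by
    refine hlog.trans ?_
    rw [← Real.log_pow]
    exact Real.log_le_log (h1pos.trans_le hH0) hYH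
  refine ⟨φ y, ?_, K, _, _, φ, y, rfl, hfr, hmin, hlog2, ?_⟩
  · have h0 := Polynomial.aeval_algHom_apply φ.toIntAlgHom y F
    rw [hy, map_zero] at h0
    exact h0
  -- the divisibility
  have hpg : ∀ j, ¬ p j ∣ g := by
    intro j hj
    obtain ⟨i, hi⟩ := hnd j
    obtain ⟨m, hm⟩ := hDen.val (A i) (B i) (hAB.cop i)
    have h2 := hval (A i) (B i) m (hAB.cop i) hm
    apply hi
    rw [← Int.natCast_dvd_natCast] at hj
    rw [← dvd_abs, h2]
    exact hj.mul_right _
  have hbound : ∀ l : Fin q, N1 T (a l) (b l) y ≤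
      (d * Real.log (|(a l : ℝ)| + |(b l : ℝ)|) + d * Real.log 2) + Height.logHeight₁ y +
      (if h : l.1 < m0 then (d * Real.log (p (Fin.castLE hm' ⟨l.1, h⟩)) -
        k (Fin.castLE hm' ⟨l.1, h⟩) * Real.log (p (Fin.castLE hm' ⟨l.1, h⟩))) else 0) := by
    intro l
    have hc := hab.cop l
    obtain ⟨m, hmv⟩ := hDen.val (a l) (b l) hc
    obtain ⟨hm0, -⟩ := hDen.low (a l) (b l) m hc (hne _ _ hc) hmv
    have hmb := hDen.bd (a l) (b l) m hc hmv
    have hs := one_le_abs_add hc
    have hmpos : 0 < |(m : ℝ)| := abs_pos.mpr (by exact_mod_cast hm0)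
    have hlm : Real.log |(m : ℝ)| ≤ d * Real.log (|(a l : ℝ)| + |(b l : ℝ)|) +
        Height.logHeight₁ y := by
      refine (Real.log_le_log hmpos hmb).trans ?_
      rw [hfr, Real.log_mul (by positivity) (by positivity), Real.log_pow,
        Height.logHeight₁_eq_log_mulHeight₁]
    have hd0 : (0 : ℝ) ≤ d := Nat.cast_nonneg d
    by_cases h : l.1 < m0
    · rw [dif_pos h]
      set j := Fin.castLE hm' ⟨l.1, h⟩ with hj
      have hl1 := hl ⟨l.1, h⟩
      have hl2 : Fin.castLE hm ⟨l.1, h⟩ = l := rfl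
      rw [hl2, ← hj] at hl1
      have hdj := hdiv j
      rw [← hl1.1, ← hl1.2] at hdj
      have h3 := hval (a l) (b l) m hc hmv
      have h4 : (p j : ℤ) ^ k j ∣ g * m := by
        have : (p j : ℤ) ^ k j ∣ |hev d F (a l) (b l)| := (dvd_abs _ _).mpr hdj
        rw [h3] at this
        rw [← dvd_abs, abs_mul, Nat.abs_cast]
        exact this
      have h5 : IsCoprime ((p j : ℤ) ^ k j) (g : ℤ) := by
        apply IsCoprime.pow_left
        rw [Nat.isCoprime_iff_coprime]
        exact (Nat.Prime.coprime_iff_not_dvd (hp j)).mpr (hpg j)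
      have h6 := h5.dvd_of_dvd_mul_left h4
      have h7 := hDen.up (a l) (b l) m hc (hne _ _ hc) hmv T (p j) (k j) (hp j) h6
      rw [hfr] at h7
      have h8 : 0 ≤ (d : ℝ) * Real.log 2 := mul_nonneg hd0 (Real.log_nonneg (by norm_num))
      linarith
    · rw [dif_neg h]
      have h7 := hDen.up (a l) (b l) m hc (hne _ _ hc) hmv T 2 0 Nat.prime_two (by simp)
      rw [hfr] at h7
      push_cast at h7
      linarith
  have hsum := Finset.sum_le_sum fun l (_ : l ∈ Finset.univ) => hbound l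
  rw [Finset.sum_add_distrib, Finset.sum_add_distrib, sum_part hm (fun l => d * Real.log (p (Fin.castLE hm' l)) -
        k (Fin.castLE hm' l) * Real.log (p (Fin.castLE hm' l))), Finset.sum_sub_distrib,
    Finset.sum_const, Finset.card_univ, Fintype.card_fin, nsmul_eq_mul] at hsum
  have h9 : κ * Height.logHeight₁ y ≤ κ * Real.log ((d + 1) * (C * Y)) :=
    mul_le_mul_of_nonneg_left hlog hκ
  rw [hC7] at hineq
  linarith

end Pool.Agent.H42.AP
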