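import Pool.Agent.H42.AP.Defs
import Pool.Agent.H16.LP.RAD

/-! AP-RAD: few integers with a given radical -/

set_option autoImplicit false

namespace Pool.Agent.H42.AP

/-- few integers with a given radical (outside `T`) -/
theorem rad : S_RAD := by
  classical
  intro T δ hδ
  obtain ⟨C, hC, hcnt⟩ := Pool.Agent.H16.LP.RAD.cnt_T δ hδ
  refine ⟨max 1 (2 ^ T.card * C), le_max_left _ _, fun N r hN => ?_⟩
  have hN1 : (1 : ℝ) ≤ (N : ℝ) ^ δ := Real.one_le_rpow (by exact_mod_cast hN) hδ.le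
  set S := (Finset.Icc 1 N).filter (fun m => ∏ p ∈ m.primeFactors \ T, p = r) with hS
  have hF : ∀ n ∈ S, n.primeFactors = (n.primeFactors ∩ T) ∪ r.primeFactors := by
    intro n hn
    have h1 : r.primeFactors = n.primeFactors \ T := by
      rw [hS, Finset.mem_filter] at hn
      rw [← hn.2]
      refine Nat.primeFactors_prod fun p hp => ?_
      exact Nat.prime_of_mem_primeFactors (Finset.mem_sdiff.1 hp).1
    rw [h1, Finset.union_comm]
    exact (Finset.sdiff_union_inter _ _).symm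
  have h1 : S.card ≤ ⌊C * (N : ℝ) ^ δ⌋₊ * (S.image fun n => n.primeFactors ∩ T).card := by
    apply Finset.card_le_mul_card_image
    intro b hb
    apply Nat.le_floor
    refine le_trans ?_ (hcnt N (b ∪ r.primeFactors) hN)
    rw [Nat.cast_le]
    apply Finset.card_le_card
    intro n hn
    rw [Finset.mem_filter] at hn
    have h2 := hF n hn.1
    rw [hS, Finset.mem_filter] at hn
    rw [Finset.mem_filter]
    exact ⟨hn.1.1, by rw [h2, hn.2]⟩
  have h2 : (S.image fun n => n.primeFactors ∩ T).card ≤ 2 ^ T.card := by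
    rw [← Finset.card_powerset]
    apply Finset.card_le_card
    intro b hb
    obtain ⟨n, -, rfl⟩ := Finset.mem_image.1 hb
    exact Finset.mem_powerset.2 Finset.inter_subset_right
  have h3 : ((⌊C * (N : ℝ) ^ δ⌋₊ : ℕ) : ℝ) ≤ C * (N : ℝ) ^ δ := Nat.floor_le (by positivity)
  calc (S.card : ℝ) ≤ ((⌊C * (N : ℝ) ^ δ⌋₊ * 2 ^ T.card : ℕ) : ℝ) := by
        exact_mod_cast h1.trans (Nat.mul_le_mul_left _ h2)
    _ = (⌊C * (N : ℝ) ^ δ⌋₊ : ℝ) * 2 ^ T.card := by push_cast; ring
    _ ≤ (C * (N : ℝ) ^ δ) * 2 ^ T.card := mul_le_mul_of_nonneg_right h3 (by positivity)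
    _ = (2 ^ T.card * C) * (N : ℝ) ^ δ := by ring
    _ ≤ max 1 (2 ^ T.card * C) * (N : ℝ) ^ δ :=
        mul_le_mul_of_nonneg_right (le_max_right _ _) (by positivity)

end Pool.Agent.H42.AP
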