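import Pool.Agent.H42.AP.Defs
import Pool.Agent.H42.AP.DET

/-! # AP-ROOT (helper33): the number field of a root and the values -/

set_option autoImplicit false

open NumberField IsDedekindDomain Polynomial

namespace Pool.Agent.H42.AP

open Classical in
/-- the height -/
theorem root_ht (K : Type) [Field K] [NumberField K] (y : K) (F : ℤ[X])
    (hd : F.natDegree = Module.finrank ℚ K) (hmp : (minpoly ℚ y).natDegree = Module.finrank ℚ K)
    (h0 : aeval y F = 0) (hF0 : F ≠ 0) (H : ℝ) (hH : ∀ i, |(F.coeff i : ℝ)| ≤ H) :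
    |(F.leadingCoeff : ℝ)| * ∏ v : InfinitePlace K, (max 1 (v y)) ^ v.mult ≤
      (Module.finrank ℚ K + 1) * H := by
  have e1 : ∏ v : InfinitePlace K, (max 1 (v y)) ^ v.mult = ∏ φ : K →+* ℂ, max 1 ‖φ y‖ := by
    rw [← Finset.prod_fiberwise Finset.univ InfinitePlace.mk (fun φ : K →+* ℂ => max 1 ‖φ y‖)]
    refine Finset.prod_congr rfl fun w _ => ?_
    have (φ : K →+* ℂ) (hφ : φ ∈ ({φ | InfinitePlace.mk φ = w} : Finset _)) :
        max 1 ‖φ y‖ = max 1 (w y) := by
      rw [← (Finset.mem_filter.mp hφ).2, InfinitePlace.apply]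
    rw [Finset.prod_congr rfl this, Finset.prod_const, InfinitePlace.card_filter_mk_eq]
  have hinj : Function.Injective (Int.castRingHom ℂ) := Int.cast_injective
  have hP0 : F.map (Int.castRingHom ℂ) ≠ 0 := by
    rw [Ne, Polynomial.map_eq_zero_iff hinj]; exact hF0
  have hy : IsIntegral ℚ y := Algebra.IsIntegral.isIntegral y
  have htop : IntermediateField.adjoin ℚ {y} = ⊤ :=
    (Field.primitive_element_iff_minpoly_natDegree_eq ℚ y).2 hmp
  have htop' : Algebra.adjoin ℚ {y} = ⊤ := by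
    rw [← IntermediateField.adjoin_simple_toSubalgebra_of_isAlgebraic hy.isAlgebraic, htop]
    rfl
  have hin : Function.Injective (fun φ : K →+* ℂ => φ y) := by
    intro φ ψ h
    have h1 : φ.toRatAlgHom = ψ.toRatAlgHom := by
      apply AlgHom.ext_of_adjoin_eq_top htop'
      intro x hx
      rw [Set.mem_singleton_iff] at hx
      subst hx
      exact h
    ext x
    exact DFunLike.congr_fun h1 x
  have e2 : (Finset.univ.val.map (fun φ : K →+* ℂ => φ y)) = (F.map (Int.castRingHom ℂ)).roots := by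
    apply Multiset.eq_of_le_of_card_le
    · rw [Multiset.le_iff_subset (Finset.univ.nodup.map hin)]
      intro z hz
      obtain ⟨φ, -, rfl⟩ := Multiset.mem_map.1 hz
      rw [mem_roots hP0, IsRoot.def, eval_map]
      have h1 := congrArg φ h0
      rw [map_zero, aeval_def, hom_eval₂] at h1
      rw [← h1]
      congr 1
      exact RingHom.ext_int _ _
    · rw [Multiset.card_map, Finset.card_val, Finset.card_univ, NumberField.Embeddings.card K ℂ, ← hd,
        ← natDegree_map_eq_of_injective hinj F]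
      exact card_roots' _
  have e3 := mahlerMeasure_eq_leadingCoeff_mul_prod_roots (F.map (Int.castRingHom ℂ))
  rw [← e2, leadingCoeff_map_of_injective hinj, Multiset.map_map] at e3
  have e4 := mahlerMeasure_le_sum_norm_coeff (F.map (Int.castRingHom ℂ))
  rw [e3, sum_over_range _ (fun _ => norm_zero), natDegree_map_eq_of_injective hinj, hd] at e4
  rw [e1]
  have e5 : ∀ z : ℤ, ‖(Int.castRingHom ℂ) z‖ = |(z : ℝ)| := by
    intro z
    rw [eq_intCast, Complex.norm_intCast]
  rw [e5] at e4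
  refine e4.trans ?_
  calc ∑ i ∈ Finset.range (Module.finrank ℚ K + 1), ‖(F.map (Int.castRingHom ℂ)).coeff i‖
      ≤ ∑ i ∈ Finset.range (Module.finrank ℚ K + 1), H := by
        refine Finset.sum_le_sum fun i _ => ?_
        rw [coeff_map, e5]
        exact hH i
    _ = (Module.finrank ℚ K + 1) * H := by
        rw [Finset.sum_const, Finset.card_range, nsmul_eq_mul]; push_cast; rfl

namespace ROOTP

/-- the number field of a root -/
lemma field (F : ℤ[X]) (d : ℕ) (hd : F.natDegree = d)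
    (hF : Irreducible (F.map (Int.castRingHom ℚ))) :
    ∃ (K : Type) (_ : Field K) (_ : NumberField K) (_ : K →+* ℂ) (y : K),
      Module.finrank ℚ K = d ∧ aeval y F = 0 ∧
      minpoly ℚ y = F.map (Int.castRingHom ℚ) * C ((F.leadingCoeff : ℚ)⁻¹) := by
  have : Fact (Irreducible (F.map (Int.castRingHom ℚ))) := ⟨hF⟩
  have hinj : Function.Injective (Int.castRingHom ℚ) := Int.cast_injective
  refine ⟨AdjoinRoot (F.map (Int.castRingHom ℚ)), inferInstance, inferInstance, ?_,
    AdjoinRoot.root _, ?_, ?_, ?_⟩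
  · exact (Classical.arbitrary ((AdjoinRoot (F.map (Int.castRingHom ℚ))) →+* ℂ))
  · have h := (AdjoinRoot.powerBasis hF.ne_zero).finrank
    rw [AdjoinRoot.powerBasis_dim, natDegree_map_eq_of_injective hinj, hd] at h
    rw [← h]
  · have h : eval₂ (AdjoinRoot.of (F.map (Int.castRingHom ℚ))) (AdjoinRoot.root _)
        (F.map (Int.castRingHom ℚ)) = 0 := AdjoinRoot.eval₂_root _
    rw [eval₂_map] at h
    rw [aeval_def, ← h]
    congr 1
  · have h := AdjoinRoot.minpoly_root hF.ne_zero
    rw [leadingCoeff_map_of_injective hinj] at h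
    rw [eq_intCast] at h
    rw [← h]
    congr!

/-- the value at a pair -/
lemma value {K : Type} [Field K] [NumberField K] (F : ℤ[X]) (d : ℕ) (y : K)
    (hfr : Module.finrank ℚ K = d) (hd : F.natDegree = d) (hF : F ≠ 0)
    (hm : minpoly ℚ y = F.map (Int.castRingHom ℚ) * C ((F.leadingCoeff : ℚ)⁻¹)) (n : ℕ)
    (a b m : ℤ) (h : IsVal n y a b m) :
    F.leadingCoeff.natAbs * m.natAbs = n * (hev d F a b).natAbs := by
  have hl : (F.leadingCoeff : ℚ) ≠ 0 := by
    exact_mod_cast leadingCoeff_ne_zero.2 hF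
  have hdeg : (minpoly ℚ y).natDegree = Module.finrank ℚ K := by
    rw [hm, natDegree_mul_C (inv_ne_zero hl), natDegree_map_eq_of_injective Int.cast_injective,
      hd, hfr]
  have h1 : (F.leadingCoeff : ℚ) * m = (-1) ^ d * (n * (hev d F a b : ℤ)) := by
    rw [h, DETP.norm_form y a b hdeg, hfr, hm]
    unfold hev
    push_cast
    rw [show (F.leadingCoeff : ℚ) * (n * ((-1) ^ d * ∑ i ∈ Finset.range (d + 1),
      (F.map (Int.castRingHom ℚ) * C ((F.leadingCoeff : ℚ)⁻¹)).coeff i * (a : ℚ) ^ i *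
        (b : ℚ) ^ (d - i))) = (-1) ^ d * (n * (F.leadingCoeff * ∑ i ∈ Finset.range (d + 1),
      (F.map (Int.castRingHom ℚ) * C ((F.leadingCoeff : ℚ)⁻¹)).coeff i * (a : ℚ) ^ i *
        (b : ℚ) ^ (d - i))) by ring, Finset.mul_sum]
    congr 2
    refine Finset.sum_congr rfl fun i _ => ?_
    rw [coeff_mul_C, coeff_map, eq_intCast]
    field_simp
  have h2 : F.leadingCoeff * m = (-1) ^ d * (n * hev d F a b) := by exact_mod_cast h1
  have h3 := congrArg Int.natAbs h2
  simpa [Int.natAbs_mul, Int.natAbs_pow] using h3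

/-- `y` is not rational -/
lemma irr {K : Type} [Field K] [NumberField K] (y : K) (hd : 2 ≤ (minpoly ℚ y).natDegree)
    (a b : ℤ) (hab : IsCoprime a b) : (b : K) * y ≠ a := by
  intro h
  by_cases hb : b = 0
  · subst hb
    have ha : a = 0 := by
      have : (a : K) = 0 := by rw [← h]; simp
      exact_mod_cast this
    subst ha
    exact not_isCoprime_zero_zero hab
  · have hbK : (b : K) ≠ 0 := by exact_mod_cast hb
    have hy : y = algebraMap ℚ K ((a : ℚ) / b) := by
      rw [map_div₀, map_intCast, map_intCast, eq_div_iff hbK, mul_comm]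
      exact h
    rw [hy, minpoly.eq_X_sub_C, natDegree_X_sub_C] at hd
    omega

/-- the denominator divides the leading coefficient -/
lemma den_dvd (h2 : S_NR) (h3 : S_PI) {K : Type} [Field K] [NumberField K] (F : ℤ[X]) (d : ℕ)
    (y : K) (hfr : Module.finrank ℚ K = d) (hd : F.natDegree = d) (hF : F ≠ 0) (h0 : aeval y F = 0)
    (hm : minpoly ℚ y = F.map (Int.castRingHom ℚ) * C ((F.leadingCoeff : ℚ)⁻¹)) (n : ℕ)
    (hne : ∀ a b : ℤ, IsCoprime a b → (b : K) * y ≠ a)
    (hl : ∀ r : ℕ, r.Prime → r ≤ d → ¬ (r : ℤ) ∣ F.leadingCoeff)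
    (hDen : Den y n) : n ∣ F.leadingCoeff.natAbs := by
  rw [Nat.dvd_iff_prime_pow_dvd_dvd]
  intro p k hp hk
  rcases Nat.eq_zero_or_pos k with hk0 | hk0
  · subst hk0; simp
  have hpn : p ∣ n := (dvd_pow_self p hk0.ne').trans hk
  have hpl : (p : ℤ) ∣ F.leadingCoeff := by
    by_contra hc
    exact h3 K y n hDen F h0 p hp hc hpn
  have hpd : d < p := by
    by_contra hc
    exact hl p hp (not_lt.1 hc) hpl
  obtain ⟨a, b, m, hab, hv, hpm⟩ := h2 K y n hDen hne p hp (by omega)
  have h4 := value F d y hfr hd hF hm n a b m hv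
  have h5 : p ^ k ∣ F.leadingCoeff.natAbs * m.natAbs := by
    rw [h4]; exact hk.mul_right _
  refine Nat.Coprime.dvd_of_dvd_mul_right (Nat.Coprime.pow_left k ?_) h5
  rw [Nat.Prime.coprime_iff_not_dvd hp]
  rwa [← Int.natCast_dvd]

end ROOTP

open ROOTP in
theorem root (h1 : S_DEN) (h2 : S_NR) (h3 : S_PI) : S_ROOT := by
  intro d F hd2 hFd hFi hFl
  obtain ⟨K, i1, i2, φ, y, hfr, h0, hm⟩ := field F d hFd hFi
  have hF : F ≠ 0 := by
    rintro rfl
    simp at hFi
  have hl : (F.leadingCoeff : ℚ) ≠ 0 := by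
    exact_mod_cast leadingCoeff_ne_zero.2 hF
  have hl' : 0 < F.leadingCoeff.natAbs := Int.natAbs_pos.2 (leadingCoeff_ne_zero.2 hF)
  have hdeg : (minpoly ℚ y).natDegree = d := by
    rw [hm, natDegree_mul_C (inv_ne_zero hl), natDegree_map_eq_of_injective Int.cast_injective, hFd]
  have hne : ∀ a b : ℤ, IsCoprime a b → (b : K) * y ≠ a := irr y (by omega)
  obtain ⟨n, hDen⟩ := h1 K y
  obtain ⟨g, hg⟩ := den_dvd h2 h3 F d y hfr hFd hF h0 hm n hne hFl hDen
  have hg0 : 0 < g := by
    rcases Nat.eq_zero_or_pos g with h | h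
    · rw [h, mul_zero] at hg; omega
    · exact h
  refine ⟨K, i1, i2, φ, y, n, g, hDen, hfr, hdeg, h0, hg0, hne, ?_, ?_⟩
  · intro a b m _ hv
    have h4 := value F d y hfr hFd hF hm n a b m hv
    rw [hg, mul_assoc] at h4
    have h5 := Nat.eq_of_mul_eq_mul_left hDen.pos h4
    rw [Int.abs_eq_natAbs, Int.abs_eq_natAbs, ← h5]
    push_cast
    rfl
  · intro H hH
    have h6 := root_ht K y F (by rw [hFd, hfr]) (by rw [hdeg, hfr]) h0 hF H hH
    rw [hfr] at h6
    refine le_trans ?_ h6
    rw [hDen.ht]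
    have h7 : (n : ℝ) ≤ |(F.leadingCoeff : ℝ)| := by
      have h8 : n ≤ F.leadingCoeff.natAbs := by
        rw [hg]; exact Nat.le_mul_of_pos_right n hg0
      calc (n : ℝ) ≤ (F.leadingCoeff.natAbs : ℝ) := by exact_mod_cast h8
        _ = |(F.leadingCoeff : ℝ)| := by rw [Nat.cast_natAbs]; push_cast; rfl
    exact mul_le_mul_of_nonneg_right h7 (Finset.prod_nonneg fun v _ => by positivity)

end Pool.Agent.H42.AP
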