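import Pool.Agent.H42.AP.Defs

set_option autoImplicit false

open NumberField IsDedekindDomain Polynomial

namespace Pool.Agent.H42.AP

theorem tup : S_TUP := by
  classical
  intro s δ hδ
  have hsum : Summable (fun n : ℕ => 1 / (n : ℝ) ^ (1 + δ)) :=
    Real.summable_one_div_nat_rpow.mpr (by linarith)
  set Z : ℝ := ∑' n : ℕ, 1 / (n : ℝ) ^ (1 + δ) with hZ
  have hnn : ∀ n : ℕ, (0 : ℝ) ≤ 1 / (n : ℝ) ^ (1 + δ) := fun n => by positivity
  have hZ0 : 0 ≤ Z := tsum_nonneg hnn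
  refine ⟨max 1 (Z ^ s), le_max_left _ _, fun R hR => ?_⟩
  have hR0 : (0 : ℝ) < R := lt_of_lt_of_le one_pos hR
  set P : Finset (Fin s → ℕ) := Fintype.piFinset (fun _ => Finset.Icc 1 ⌊R⌋₊) with hP
  have hsub : {r : Fin s → ℕ | (∀ j, 1 ≤ r j) ∧ ((∏ j, r j : ℕ) : ℝ) ≤ R} ⊆ (P : Set (Fin s → ℕ)) := by
    rintro r ⟨h1, h2⟩
    rw [Finset.mem_coe, hP, Fintype.mem_piFinset]
    intro j
    rw [Finset.mem_Icc]
    refine ⟨h1 j, Nat.le_floor (le_trans ?_ h2)⟩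
    exact_mod_cast Nat.le_of_dvd (Finset.prod_pos fun i _ => h1 i)
      (Finset.dvd_prod_of_mem r (Finset.mem_univ j))
  have hfin : {r : Fin s → ℕ | (∀ j, 1 ≤ r j) ∧ ((∏ j, r j : ℕ) : ℝ) ≤ R}.Finite :=
    P.finite_toSet.subset hsub
  refine ⟨hfin, ?_⟩
  rw [Set.ncard_eq_toFinset_card _ hfin]
  have key : ∀ r ∈ hfin.toFinset, (1 : ℝ) ≤ R ^ (1 + δ) * ∏ j, 1 / (r j : ℝ) ^ (1 + δ) := by
    intro r hr
    obtain ⟨h1, h2⟩ := hfin.mem_toFinset.mp hr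
    have hp : (0 : ℝ) < ((∏ j, r j : ℕ) : ℝ) := by
      exact_mod_cast Finset.prod_pos fun i _ => h1 i
    have h3 : ∏ j, 1 / (r j : ℝ) ^ (1 + δ) = 1 / (((∏ j, r j : ℕ) : ℝ)) ^ (1 + δ) := by
      rw [Finset.prod_div_distrib, Finset.prod_const_one, Nat.cast_prod,
        Real.finsetProd_rpow _ _ (fun i _ => Nat.cast_nonneg _)]
    rw [h3, mul_one_div, one_le_div (Real.rpow_pos_of_pos hp _)]
    exact Real.rpow_le_rpow hp.le h2 (by linarith)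
  calc ((hfin.toFinset.card : ℕ) : ℝ) = ∑ r ∈ hfin.toFinset, (1 : ℝ) := by simp
    _ ≤ ∑ r ∈ hfin.toFinset, R ^ (1 + δ) * ∏ j, 1 / (r j : ℝ) ^ (1 + δ) := Finset.sum_le_sum key
    _ ≤ ∑ r ∈ P, R ^ (1 + δ) * ∏ j, 1 / (r j : ℝ) ^ (1 + δ) := by
        apply Finset.sum_le_sum_of_subset_of_nonneg
        · intro r hr
          exact hsub (hfin.mem_toFinset.mp hr)
        · intro r _ _
          positivity
    _ = R ^ (1 + δ) * ∏ _j : Fin s, ∑ n ∈ Finset.Icc 1 ⌊R⌋₊, 1 / (n : ℝ) ^ (1 + δ) := by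
        rw [← Finset.mul_sum, hP, Finset.prod_univ_sum]
    _ ≤ R ^ (1 + δ) * Z ^ s := by
        apply mul_le_mul_of_nonneg_left _ (by positivity)
        rw [Finset.prod_const, Finset.card_univ, Fintype.card_fin]
        apply pow_le_pow_left₀ (Finset.sum_nonneg fun n _ => hnn n)
        exact hsum.sum_le_tsum _ (fun n _ => hnn n)
    _ ≤ max 1 (Z ^ s) * R ^ (1 + δ) := by
        rw [mul_comm]
        exact mul_le_mul_of_nonneg_right (le_max_right _ _) (by positivity)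

end Pool.Agent.H42.AP
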