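import Pool.Agent.H42.AP.Defs

/-!
# The upper bound for at most `d + 1` points
-/

set_option autoImplicit false

open NumberField IsDedekindDomain Polynomial

namespace Pool.Agent.H42.AP

namespace UP1P

/-- the set of DET -/
def Dset (d : ℕ) (A B : Fin (d + 1) → ℤ) (w : Fin (d + 1) → ℤ) : Set ℂ :=
  {x : ℂ | ∃ (K : Type) (_ : Field K) (_ : NumberField K) (φ : K →+* ℂ) (y : K) (n : ℕ), φ y = x ∧
    Module.finrank ℚ K = d ∧ (minpoly ℚ y).natDegree = d ∧ 0 < n ∧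
    ∀ j, IsVal n y (A j) (B j) (w j)}

/-- the set of CNT -/
def Cset (s : ℕ) (I : Finset (Fin s)) (T : Finset ℕ) (D Y L : ℝ) : Set (Fin s → ℤ) :=
  {w : Fin s → ℤ | (∀ j, w j ≠ 0 ∧ |(w j : ℝ)| ≤ D * Y) ∧
    ∑ j ∈ I, ∑ p ∈ (w j).natAbs.primeFactors \ T, Real.log p ≤ L}

theorem irrat {K : Type} [Field K] [NumberField K] {d : ℕ} (hd : 2 ≤ d) (y : K)
    (hy : (minpoly ℚ y).natDegree = d) (a b : ℤ) (hab : IsCoprime a b) : (b : K) * y ≠ a := by
  intro h
  by_cases hb : b = 0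
  · rw [hb, Int.cast_zero, zero_mul] at h
    have ha : a = 0 := by exact_mod_cast h.symm
    rw [ha, hb] at hab
    exact not_isCoprime_zero_zero hab
  · have hbK : (b : K) ≠ 0 := by exact_mod_cast hb
    have h1 : y = algebraMap ℚ K ((a : ℚ) / b) := by
      rw [map_div₀, map_intCast, map_intCast, eq_div_iff hbK, mul_comm]
      exact h
    rw [h1, minpoly.eq_X_sub_C, natDegree_X_sub_C] at hy
    omega

end UP1P

open UP1P in
theorem up1 (h1 : S_DEN) (h2 : S_DET) (h3 : S_CNT) (h4 : S_EXT) : S_UP1 := by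
  intro d q hd hq a b hab T κ c δ hκ hκq hδ
  obtain ⟨A, B', hAB, hA⟩ := h4 q (d + 1) hq a b hab
  have hd0 : (0 : ℝ) < d := by exact_mod_cast (by omega : 0 < d)
  set D : ℝ := 1 + ∑ j, (|(A j : ℝ)| + |(B' j : ℝ)|) ^ d with hD
  have hD1 : 1 ≤ D := by
    rw [hD]
    have : (0 : ℝ) ≤ ∑ j, (|(A j : ℝ)| + |(B' j : ℝ)|) ^ d :=
      Finset.sum_nonneg fun j _ => by positivity
    linarith
  have hDj : ∀ j, (|(A j : ℝ)| + |(B' j : ℝ)|) ^ d ≤ D := by
    intro j
    have : (|(A j : ℝ)| + |(B' j : ℝ)|) ^ d ≤ ∑ j, (|(A j : ℝ)| + |(B' j : ℝ)|) ^ d :=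
      Finset.single_le_sum (f := fun j => (|(A j : ℝ)| + |(B' j : ℝ)|) ^ d)
        (fun j _ => by positivity) (Finset.mem_univ j)
    rw [hD]
    linarith
  set I : Finset (Fin (d + 1)) := Finset.univ.image (Fin.castLE hq) with hI
  have hinj : Function.Injective (Fin.castLE hq) := Fin.castLE_injective hq
  have hIc : I.card = q := by
    rw [hI, Finset.card_image_of_injective _ hinj, Finset.card_univ, Fintype.card_fin]
  obtain ⟨C, hC1, hC⟩ := h3 (d + 1) I T (δ / d) D (div_pos hδ hd0) hD1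
  have hE : (1 : ℝ) ≤ Real.exp |c| := Real.one_le_exp (abs_nonneg c)
  refine ⟨d * (C * Real.exp |c|), ?_, fun B hB => ?_⟩
  · have h5 : (1 : ℝ) ≤ C * Real.exp |c| := one_le_mul_of_one_le_of_one_le hC1 hE
    have h6 : (1 : ℝ) ≤ d := by exact_mod_cast (by omega : 1 ≤ d)
    exact one_le_mul_of_one_le_of_one_le h6 h5
  have hB0 : (0 : ℝ) < B := by linarith
  set Y : ℝ := B ^ d with hY
  have hY1 : 1 ≤ Y := one_le_pow₀ hB
  have hY0 : 0 < Y := by linarith
  set L : ℝ := (q - κ) * Real.log Y + |c| with hL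
  have hlY : 0 ≤ Real.log Y := Real.log_nonneg hY1
  have hL0 : 0 ≤ L := by
    rw [hL]
    exact add_nonneg (mul_nonneg (by linarith) hlY) (abs_nonneg c)
  obtain ⟨hfin, hcard⟩ := hC Y L hY1 hL0
  change (Cset (d + 1) I T D Y L).Finite at hfin
  change ((Cset (d + 1) I T D Y L).ncard : ℝ) ≤ _ at hcard
  have hsub : Exc d T a b κ c B ⊆ ⋃ w ∈ hfin.toFinset, Dset d A B' w := by
    rintro x ⟨K, _, _, φ, y, hx, hK, hdeg, hht, hsum⟩
    obtain ⟨n, hn⟩ := h1 K y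
    choose w hw using fun j => hn.val (A j) (B' j) (hAB.cop j)
    have hne : ∀ j, ((B' j : ℤ) : K) * y ≠ (A j : ℤ) := fun j =>
      irrat hd y hdeg (A j) (B' j) (hAB.cop j)
    have hlog : Height.logHeight₁ y ≤ Real.log Y := by
      rw [hY, Real.log_pow]
      exact hht
    have hmul : Height.mulHeight₁ y ≤ Y := by
      rw [Height.logHeight₁_eq_log_mulHeight₁] at hlog
      exact (Real.log_le_log_iff (Height.mulHeight₁_pos y) hY0).1 hlog
    refine Set.mem_iUnion₂.2 ⟨w, ?_, ⟨K, _, _, φ, y, n, hx, hK, hdeg, hn.pos, hw⟩⟩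
    rw [Set.Finite.mem_toFinset]
    refine ⟨fun j => ⟨(hn.low _ _ _ (hAB.cop j) (hne j) (hw j)).1, ?_⟩, ?_⟩
    · refine (hn.bd _ _ _ (hAB.cop j) (hw j)).trans ?_
      rw [hK]
      exact mul_le_mul (hDj j) hmul (Height.mulHeight₁_pos y).le (by linarith)
    · have h5 : ∑ j ∈ I, ∑ p ∈ (w j).natAbs.primeFactors \ T, Real.log p ≤
          ∑ j ∈ I, N1 T (A j) (B' j) y :=
        Finset.sum_le_sum fun j _ => (hn.low _ _ _ (hAB.cop j) (hne j) (hw j)).2 T
      have h6 : ∑ j ∈ I, N1 T (A j) (B' j) y = ∑ l, N1 T (a l) (b l) y := by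
        rw [hI, Finset.sum_image fun i _ j _ h => hinj h]
        refine Finset.sum_congr rfl fun l _ => ?_
        rw [(hA l).1, (hA l).2]
      have h7 : ((q : ℝ) - κ) * Height.logHeight₁ y ≤ (q - κ) * Real.log Y :=
        mul_le_mul_of_nonneg_left hlog (by linarith)
      rw [hL]
      linarith [le_abs_self c]
  have hfin2 : ∀ w, (Dset d A B' w).Finite := fun w => (h2 d (by omega) A B' hAB w).1
  have hc2 : ∀ w, (Dset d A B' w).ncard ≤ d := fun w => (h2 d (by omega) A B' hAB w).2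
  have hfin3 : (⋃ w ∈ hfin.toFinset, Dset d A B' w).Finite :=
    Set.Finite.biUnion (Finset.finite_toSet _) fun w _ => hfin2 w
  refine ⟨hfin3.subset hsub, ?_⟩
  have h5 : (Exc d T a b κ c B).ncard ≤ (Cset (d + 1) I T D Y L).ncard * d := by
    calc (Exc d T a b κ c B).ncard ≤ (⋃ w ∈ hfin.toFinset, Dset d A B' w).ncard :=
          Set.ncard_le_ncard hsub hfin3
      _ ≤ ∑ w ∈ hfin.toFinset, (Dset d A B' w).ncard := Finset.set_ncard_biUnion_le _ _
      _ ≤ ∑ w ∈ hfin.toFinset, d := Finset.sum_le_sum fun w _ => hc2 w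
      _ = (Cset (d + 1) I T D Y L).ncard * d := by
          rw [Finset.sum_const, smul_eq_mul, Set.ncard_eq_toFinset_card _ hfin]
  have h6 : ((Exc d T a b κ c B).ncard : ℝ) ≤ (Cset (d + 1) I T D Y L).ncard * d := by
    exact_mod_cast h5
  refine h6.trans ((mul_le_mul_of_nonneg_right hcard hd0.le).trans (le_of_eq ?_))
  rw [hL, Real.exp_add, hIc]
  have e1 : Real.exp ((q - κ) * Real.log Y) = Y ^ ((q : ℝ) - κ) := by
    rw [Real.rpow_def_of_pos hY0, mul_comm]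
  have e2 : Y ^ ((q : ℝ) - κ) * Y ^ (((d + 1 : ℕ) : ℝ) - q + δ / d) =
      B ^ ((d : ℝ) * (d + 1 - κ) + δ) := by
    rw [← Real.rpow_add hY0, hY, ← Real.rpow_natCast, ← Real.rpow_mul hB0.le]
    congr 1
    push_cast
    field_simp
    ring
  rw [e1]
  calc C * (Y ^ ((q : ℝ) - κ) * Real.exp |c|) * Y ^ (((d + 1 : ℕ) : ℝ) - q + δ / d) * d
      = d * (C * Real.exp |c|) * (Y ^ ((q : ℝ) - κ) * Y ^ (((d + 1 : ℕ) : ℝ) - q + δ / d)) := by ring
    _ = _ := by rw [e2]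

end Pool.Agent.H42.AP
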