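import Pool.Agent.H42.AP.Defs

/-! AP-UP2 (helper75): the upper bound for `q ≥ d + 1` points. -/

set_option autoImplicit false

open NumberField IsDedekindDomain Polynomial

namespace Pool.Agent.H42.AP

namespace UP2x

lemma exists_shift {q k : ℕ} [NeZero q] (hk : k ≤ q) (f : Fin q → ℝ) :
    ∃ t : Fin q, ∑ j : Fin k, f (Fin.castLE hk j + t) ≤ (k : ℝ) / q * ∑ l, f l := by
  have hq : (0 : ℝ) < q := by exact_mod_cast Nat.pos_of_ne_zero (NeZero.ne q)
  have h1 : ∑ t : Fin q, ∑ j : Fin k, f (Fin.castLE hk j + t) =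
      ∑ _t : Fin q, (k : ℝ) / q * ∑ l, f l := by
    rw [Finset.sum_comm]
    have h2 : ∀ j : Fin k, ∑ t : Fin q, f (Fin.castLE hk j + t) = ∑ l, f l := fun j =>
      Equiv.sum_comp (Equiv.addLeft (Fin.castLE hk j)) f
    simp_rw [h2]
    rw [Finset.sum_const, Finset.sum_const, Finset.card_univ, Finset.card_univ, Fintype.card_fin,
      Fintype.card_fin, nsmul_eq_mul, nsmul_eq_mul]
    field_simp
  obtain ⟨t, -, ht⟩ := Finset.exists_le_of_sum_le (Finset.univ_nonempty) h1.le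
  exact ⟨t, ht⟩

lemma ne_of_deg {K : Type} [Field K] [NumberField K] {y : K} {d : ℕ} (hd : 2 ≤ d)
    (hy : (minpoly ℚ y).natDegree = d) {a b : ℤ} (h : IsCoprime a b) : (b : K) * y ≠ a := by
  intro e
  by_cases hb : b = 0
  · rw [hb, Int.cast_zero, zero_mul] at e
    have ha : a = 0 := by exact_mod_cast e.symm
    rw [ha, hb] at h
    exact not_isCoprime_zero_zero h
  · have hb' : (b : K) ≠ 0 := by exact_mod_cast hb
    have h1 : y = algebraMap ℚ K ((a : ℚ) / b) := by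
      rw [map_div₀, map_intCast, map_intCast, eq_div_iff hb', mul_comm]
      exact e
    rw [h1, minpoly.eq_X_sub_C, natDegree_X_sub_C] at hy
    omega

end UP2x

open UP2x in
theorem up2 (h1 : S_DEN) (h2 : S_DET) (h3 : S_CNT) : S_UP2 := by
  intro d q hd hq a b hab T κ c δ hκ hκq hδ
  have hq0 : 0 < q := by omega
  have : NeZero q := ⟨hq0.ne'⟩
  have hd0 : (0 : ℝ) < d := by
    have : 0 < d := by omega
    exact_mod_cast this
  have hqR : (0 : ℝ) < q := by exact_mod_cast hq0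
  obtain ⟨D, hD1, hD⟩ : ∃ D : ℝ, 1 ≤ D ∧ ∀ l : Fin q, (|(a l : ℝ)| + |(b l : ℝ)|) ^ d ≤ D := by
    refine ⟨1 + ∑ l, (|(a l : ℝ)| + |(b l : ℝ)|) ^ d, ?_, fun l => ?_⟩
    · have : 0 ≤ ∑ l, (|(a l : ℝ)| + |(b l : ℝ)|) ^ d :=
        Finset.sum_nonneg fun l _ => by positivity
      linarith
    · have := Finset.single_le_sum (f := fun l => (|(a l : ℝ)| + |(b l : ℝ)|) ^ d)
        (fun i _ => by positivity) (Finset.mem_univ l)
      linarith
  obtain ⟨C, hC1, hC⟩ := h3 (d + 1) Finset.univ T (δ / d) D (by positivity) hD1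
  obtain ⟨r, hr⟩ : ∃ r : ℝ, r = ((d + 1 : ℕ) : ℝ) / q := ⟨_, rfl⟩
  have hr0 : 0 < r := by rw [hr]; positivity
  refine ⟨(q : ℝ) * d * (C * Real.exp (r * |c|)) + 1, by
    have : 0 ≤ (q : ℝ) * d * (C * Real.exp (r * |c|)) := by positivity
    linarith, fun B hB => ?_⟩
  have hB0 : 0 < B := by linarith
  obtain ⟨Y, hY⟩ : ∃ Y, Y = B ^ d := ⟨_, rfl⟩
  have hY1 : 1 ≤ Y := by rw [hY]; exact one_le_pow₀ hB
  have hY0 : 0 < Y := by linarith
  have hlY : 0 ≤ Real.log Y := Real.log_nonneg hY1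
  obtain ⟨L, hL⟩ : ∃ L, L = r * ((q - κ) * Real.log Y + |c|) := ⟨_, rfl⟩
  have hqκ : 0 ≤ (q : ℝ) - κ := by linarith
  have hL0 : 0 ≤ L := by
    rw [hL]
    have := abs_nonneg c
    positivity
  obtain ⟨hWf, hWc⟩ := hC Y L hY1 hL0
  obtain ⟨W, hW⟩ : ∃ W : Set (Fin (d + 1) → ℤ), W = {w : Fin (d + 1) → ℤ |
    (∀ j, w j ≠ 0 ∧ |(w j : ℝ)| ≤ D * Y) ∧
    ∑ j ∈ Finset.univ, ∑ p ∈ (w j).natAbs.primeFactors \ T, Real.log p ≤ L} := ⟨_, rfl⟩
  rw [← hW] at hWf hWc
  have hpts : ∀ t : Fin q, Pts (fun j : Fin (d + 1) => a (Fin.castLE hq j + t))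
      (fun j : Fin (d + 1) => b (Fin.castLE hq j + t)) := by
    intro t
    refine ⟨fun j => hab.cop _, fun i j hij => hab.ind _ _ fun h => hij ?_⟩
    exact Fin.castLE_injective hq (add_right_cancel h)
  have hX := fun (t : Fin q) (w : Fin (d + 1) → ℤ) => h2 d (by omega) _ _ (hpts t) w
  classical
  obtain ⟨F, hF⟩ : ∃ F : Finset ℂ, F = Finset.univ.biUnion fun t : Fin q =>
      hWf.toFinset.biUnion fun w => (hX t w).1.toFinset := ⟨_, rfl⟩
  have hsub : Exc d T a b κ c B ⊆ (F : Set ℂ) := by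
    rintro x ⟨K, iF, iN, φ, y, hφ, hfr, hmin, hht, hN⟩
    obtain ⟨n, hn⟩ := h1 K y
    choose m hm using fun l => hn.val (a l) (b l) (hab.cop l)
    have hlow := fun l => hn.low (a l) (b l) (m l) (hab.cop l) (ne_of_deg hd hmin (hab.cop l)) (hm l)
    have hsum : ∑ l, ∑ p ∈ (m l).natAbs.primeFactors \ T, Real.log p ≤
        (q - κ) * Real.log Y + |c| := by
      refine (Finset.sum_le_sum fun l _ => (hlow l).2 T).trans (hN.trans ?_)
      have e1 : Height.logHeight₁ y ≤ Real.log Y := by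
        rw [hY, Real.log_pow]
        exact hht
      have e2 := mul_le_mul_of_nonneg_left e1 hqκ
      have e3 := le_abs_self c
      linarith
    obtain ⟨t, ht⟩ := exists_shift hq (fun l => ∑ p ∈ (m l).natAbs.primeFactors \ T, Real.log p)
    rw [hF]
    simp only [Finset.coe_biUnion, Set.mem_iUnion]
    refine ⟨t, Finset.mem_coe.2 (Finset.mem_univ t), fun j => m (Fin.castLE hq j + t), ?_, ?_⟩
    · rw [Finset.mem_coe, Set.Finite.mem_toFinset, hW]
      refine ⟨fun j => ⟨(hlow _).1, ?_⟩, ?_⟩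
      · have e1 := hn.bd _ _ _ (hab.cop (Fin.castLE hq j + t)) (hm _)
        rw [hfr] at e1
        have e2 := Height.one_le_mulHeight₁ y
        have e3 : Height.mulHeight₁ y ≤ Y := by
          have e4 : Height.logHeight₁ y ≤ Real.log Y := by
            rw [hY, Real.log_pow]
            exact hht
          rw [Height.logHeight₁_eq_log_mulHeight₁] at e4
          exact (Real.log_le_log_iff (by linarith) hY0).1 e4
        exact e1.trans (mul_le_mul (hD _) e3 (by linarith) (by linarith))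
      · refine ht.trans ?_
        rw [hL, ← hr]
        exact mul_le_mul_of_nonneg_left hsum hr0.le
    · rw [Finset.mem_coe, Set.Finite.mem_toFinset]
      exact ⟨K, iF, iN, φ, y, n, hφ, hfr, hmin, hn.pos, fun j => hm _⟩
  refine ⟨F.finite_toSet.subset hsub, ?_⟩
  have hcard : (Exc d T a b κ c B).ncard ≤ q * (W.ncard * d) := by
    refine (Set.ncard_le_ncard hsub F.finite_toSet).trans ?_
    rw [Set.ncard_coe_finset, hF]
    have e1 := Finset.card_biUnion_le_card_mul (Finset.univ : Finset (Fin q))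
      (fun t : Fin q => hWf.toFinset.biUnion fun w => (hX t w).1.toFinset) (W.ncard * d) (by
        intro t _
        refine (Finset.card_biUnion_le_card_mul _ _ d fun w _ => ?_).trans ?_
        · rw [← Set.ncard_eq_toFinset_card _ (hX t w).1]
          exact (hX t w).2
        · rw [← Set.ncard_eq_toFinset_card _ hWf])
    rwa [Finset.card_univ, Fintype.card_fin] at e1
  have hcardR : ((Exc d T a b κ c B).ncard : ℝ) ≤ q * (W.ncard * d) := by exact_mod_cast hcard
  have hexp : Real.exp L = Y ^ (r * (q - κ)) * Real.exp (r * |c|) := by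
    rw [Real.rpow_def_of_pos hY0, ← Real.exp_add, hL]
    congr 1
    ring
  have hs : ((d + 1 : ℕ) : ℝ) - ((Finset.univ : Finset (Fin (d + 1))).card : ℝ) + δ / d = δ / d := by
    rw [Finset.card_univ, Fintype.card_fin, sub_self, zero_add]
  rw [hs, hexp] at hWc
  have hpow : Y ^ (r * (q - κ)) * Y ^ (δ / d) = B ^ ((d : ℝ) * (d + 1) * (1 - κ / q) + δ) := by
    rw [← Real.rpow_add hY0, hY, ← Real.rpow_natCast, ← Real.rpow_mul hB0.le]
    congr 1
    rw [hr]
    push_cast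
    field_simp
  have hBp : 0 ≤ B ^ ((d : ℝ) * (d + 1) * (1 - κ / q) + δ) := Real.rpow_nonneg hB0.le _
  calc ((Exc d T a b κ c B).ncard : ℝ) ≤ q * (W.ncard * d) := hcardR
    _ ≤ q * ((C * (Y ^ (r * (q - κ)) * Real.exp (r * |c|)) * Y ^ (δ / d)) * d) := by
        apply mul_le_mul_of_nonneg_left _ hqR.le
        exact mul_le_mul_of_nonneg_right hWc hd0.le
    _ = (q : ℝ) * d * (C * Real.exp (r * |c|)) * (Y ^ (r * (q - κ)) * Y ^ (δ / d)) := by ring
    _ = (q : ℝ) * d * (C * Real.exp (r * |c|)) * B ^ ((d : ℝ) * (d + 1) * (1 - κ / q) + δ) := by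
        rw [hpow]
    _ ≤ _ := by nlinarith

end Pool.Agent.H42.AP

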