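import Pool.Agent.H42.AP.Defs
import Pool.Agent.H42.AP.DEN1
import Pool.Agent.H42.AP.DEN2
import Pool.Agent.H42.AP.DEN3
import Pool.Agent.H42.AP.DEN
import Pool.Agent.H42.AP.DET
import Pool.Agent.H42.AP.RAD
import Pool.Agent.H42.AP.TUP
import Pool.Agent.H42.AP.CNT
import Pool.Agent.H42.AP.EXT
import Pool.Agent.H42.AP.UP1
import Pool.Agent.H42.AP.UP2
import Pool.Agent.H42.AP.LAG
import Pool.Agent.H42.AP.GCD
import Pool.Agent.H42.AP.EIS
import Pool.Agent.H42.AP.FAM
import Pool.Agent.H42.AP.NR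
import Pool.Agent.H42.AP.PI
import Pool.Agent.H42.AP.ROOT
import Pool.Agent.H42.AP.FIB
import Pool.Agent.H42.AP.PTW
import Pool.Agent.H42.AP.LOW

set_option autoImplicit false

/-! Assembly. -/

namespace Pool.Agent.H42.AP

theorem den' : S_DEN := den den1 den2 den3

theorem cnt' : S_CNT := cnt rad tup

theorem up1' : S_UP1 := up1 den' det cnt' ext

theorem up2' : S_UP2 := up2 den' det cnt'

theorem low' : S_LOW := low (fam lag gcd eis) (ptw (root den' nr pi)) fib ext up1' up2'

end Pool.Agent.H42.AP
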