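import Pool.Agent.H42.AP.Defs

/-!
Algebraic points of degree `d` on the projective line with large proximity functions: definitions
and statements of the lemmas.
-/

set_option autoImplicit false

open NumberField IsDedekindDomain Polynomial

namespace Pool.Agent.H42.AP

section

variable {K : Type} [Field K] [NumberField K]

open Classical in
/-- the degree times the sum of the local heights of `a / b` at `y` over the infinite places and the
places above the primes in `T` -/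
noncomputable def Prox (T : Finset ℕ) (a b : ℤ) (y : K) : ℝ :=
  (∑ v : InfinitePlace K, (v.mult : ℝ) *
    Real.log (max 1 (v y) * max |(a : ℝ)| |(b : ℝ)| / v ((b : K) * y - a))) +
  ∑ᶠ v : HeightOneSpectrum (𝓞 K), if Off T v then 0 else
    Real.log (max 1 (FinitePlace.mk v y) / FinitePlace.mk v ((b : K) * y - a))

end

/-- the algebraic numbers of degree `d`, height at most `B` and large proximity -/
def ExcP (d : ℕ) (T : Finset ℕ) {q : ℕ} (a b : Fin q → ℤ) (κ c B : ℝ) : Set ℂ :=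
  {x | ∃ (K : Type) (_ : Field K) (_ : NumberField K) (φ : K →+* ℂ) (y : K), φ y = x ∧
    Module.finrank ℚ K = d ∧ (minpoly ℚ y).natDegree = d ∧
    Height.logHeight₁ y ≤ d * Real.log B ∧
    κ * Height.logHeight₁ y - c ≤ ∑ l, Prox T (a l) (b l) y}

/-- PRX: the first main theorem -/
def S_PRX : Prop := ∀ (K : Type) [Field K] [NumberField K] (y : K) (a b : ℤ), IsCoprime a b →
  (b : K) * y ≠ a → ∀ T : Finset ℕ, Prox T a b y + N1 T a b y ≤
    Height.logHeight₁ y + Module.finrank ℚ K * Real.log (max |(a : ℝ)| |(b : ℝ)|)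

/-- PRL: the proximity at the infinite places from below -/
def S_PRL : Prop := ∀ (K : Type) [Field K] [NumberField K] (y : K) (n : ℕ), Den y n →
  ∀ a b m : ℤ, IsCoprime a b → (b : K) * y ≠ a → IsVal n y a b m → ∀ T : Finset ℕ,
    Real.log (Height.mulHeight₁ y) - Real.log |(m : ℝ)| ≤ Prox T a b y

/-- GC: a common divisor of the values divides `d!` times the content -/
def S_GC : Prop := ∀ (d g : ℕ) (F : ℤ[X]), F.natDegree ≤ d →
  (∀ t : ℕ, t ≤ d → (g : ℤ) ∣ hev d F t 1) → (g : ℤ) ∣ (d.factorial : ℤ) * F.content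

/-- FAM2: many polynomials with small values -/
def S_FAM2 : Prop := ∀ (d q : ℕ), 2 ≤ d → q ≤ d → ∀ (A B : Fin (d + 1) → ℤ), Pts A B →
  ∃ (C : ℕ) (c0 : ℝ), 0 < c0 ∧ 1 ≤ C ∧ ∀ Y Z : ℕ, C ≤ Z → Z ≤ Y → ∃ W : Finset ℤ[X],
    c0 * ((Z : ℝ) ^ q * (Y : ℝ) ^ (d + 1 - q)) ≤ W.card ∧ ∀ F ∈ W, F.natDegree = d ∧
      Irreducible (F.map (Int.castRingHom ℚ)) ∧
      (∀ r : ℕ, r.Prime → r ≤ d → ¬ (r : ℤ) ∣ F.leadingCoeff) ∧
      (∀ i, |F.coeff i| ≤ C * Y) ∧ F.content ≤ C ∧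
      (∀ j : Fin (d + 1), (j : ℕ) < q → |hev d F (A j) (B j)| ≤ C * Z) ∧
      (Y : ℤ) ≤ C * |hev d F (A (Fin.last d)) (B (Fin.last d))|

/-- PTW2: a polynomial of the family gives a number with large proximity -/
def S_PTW2 : Prop := ∀ (d q : ℕ), 2 ≤ d → ∀ (hq : q ≤ d + 1) (A B : Fin (d + 1) → ℤ), Pts A B →
  ∀ (T : Finset ℕ) (κ c : ℝ), κ ≤ q → ∀ (C : ℕ), 1 ≤ C →
  ∃ C8 : ℝ, ∀ (Y Z : ℕ) (F : ℤ[X]), 1 ≤ Y → 1 ≤ Z → F.natDegree = d →
    Irreducible (F.map (Int.castRingHom ℚ)) →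
    (∀ r : ℕ, r.Prime → r ≤ d → ¬ (r : ℤ) ∣ F.leadingCoeff) →
    (∀ i, |F.coeff i| ≤ C * Y) → F.content ≤ C →
    (∀ j : Fin (d + 1), (j : ℕ) < q → |hev d F (A j) (B j)| ≤ C * Z) →
    (Y : ℤ) ≤ C * |hev d F (A (Fin.last d)) (B (Fin.last d))| →
    q * Real.log Z + C8 ≤ (q - κ) * Real.log Y →
    ∀ H : ℝ, 1 ≤ H → ((d : ℝ) + 1) * (C * Y) ≤ H ^ d →
      ∃ x : ℂ, aeval x F = 0 ∧ x ∈ ExcP d T (fun l : Fin q => A (Fin.castLE hq l))
        (fun l : Fin q => B (Fin.castLE hq l)) κ c H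

/-- the upper bound: large proximity implies a small counting function -/
def S_SUB : Prop := ∀ (d q : ℕ), 2 ≤ d → ∀ (a b : Fin q → ℤ), Pts a b →
  ∀ (T : Finset ℕ) (κ c B : ℝ),
    ExcP d T a b κ c B ⊆ Exc d T a b κ (c + ∑ l, d * Real.log (max |(a l : ℝ)| |(b l : ℝ)|)) B

/-- the lower bound -/
def S_LOW2 : Prop := ∀ (d q : ℕ), 2 ≤ d → 1 ≤ q → q ≤ d → ∀ (a b : Fin q → ℤ), Pts a b →
  ∀ (T : Finset ℕ) (κ c : ℝ), 0 ≤ κ → κ < q → ∃ C B0 : ℝ, 0 < C ∧ ∀ B : ℝ, B0 ≤ B →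
    C * B ^ ((d : ℝ) * (d + 1 - κ)) ≤ ((ExcP d T a b κ c B).ncard : ℝ)

end Pool.Agent.H42.AP
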