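import Pool.Agent.H42.AP.Defs2
import Pool.Agent.H42.AP.FAM

/-! # AP-FAM2 (helper51): the family of polynomials with small values, adapted from `FAM` -/

set_option autoImplicit false

open NumberField IsDedekindDomain Polynomial

namespace Pool.Agent.H42.AP

namespace FAM2x

/-- the values are not zero (they are not divisible by 4) -/
lemma val_ne {M : ℕ} {a b D w : ℤ} {d : ℕ} (hd : 2 ≤ d) (hab : IsCoprime a b) (h2 : 2 ∣ M)
    (h4 : ¬ 4 ∣ M) : a ^ d + M * b ^ d + (M : ℤ) ^ 2 * D * w ≠ 0 := by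
  obtain ⟨m, rfl⟩ := h2
  have hm : ¬ (2 : ℤ) ∣ (m : ℤ) := by
    intro h
    have h5 : 2 ∣ m := by exact_mod_cast h
    exact h4 (by obtain ⟨k, rfl⟩ := h5; exact ⟨k, by ring⟩)
  intro h
  push_cast at h
  have ha : (2 : ℤ) ∣ a ^ d := ⟨-(m * b ^ d + 2 * (m : ℤ) ^ 2 * D * w), by linarith⟩
  have ha' : (2 : ℤ) ∣ a := Int.prime_two.dvd_of_dvd_pow ha
  have hb : ¬ (2 : ℤ) ∣ b := by
    intro hb
    have h5 := hab.isUnit_of_dvd' ha' hb
    exact Int.prime_two.not_isUnit h5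
  obtain ⟨a', rfl⟩ := ha'
  have h6 : (4 : ℤ) ∣ (2 * a') ^ d := by
    obtain ⟨e, rfl⟩ := Nat.exists_eq_add_of_le hd
    exact ⟨a' ^ 2 * (2 * a') ^ e, by rw [pow_add]; ring⟩
  obtain ⟨u, hu⟩ := h6
  have h7 : (2 : ℤ) ∣ m * b ^ d := ⟨-(u + (m : ℤ) ^ 2 * D * w), by rw [hu] at h; linarith⟩
  rcases Int.prime_two.dvd_or_dvd h7 with h8 | h8
  · exact hm h8
  · exact hb (Int.prime_two.dvd_of_dvd_pow h8)

lemma prod_N (n q Z Y : ℕ) (hq : q ≤ n) :
    ∏ j : Fin n, (if (j : ℕ) < q then Z else Y) = Z ^ q * Y ^ (n - q) := by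
  rw [Fin.prod_univ_eq_prod_range (fun i => if i < q then Z else Y) n,
    ← Finset.prod_range_mul_prod_Ico _ hq]
  congr 1
  · rw [Finset.prod_congr rfl (fun i hi => if_pos (Finset.mem_range.1 hi)), Finset.prod_const,
      Finset.card_range]
  · rw [Finset.prod_congr rfl (fun i hi => if_neg (not_lt.2 (Finset.mem_Ico.1 hi).1)),
      Finset.prod_const, Nat.card_Ico]

end FAM2x

open FAMx FAM2x in
theorem fam2 (hLAG : S_LAG) (hGCD : S_GCD) (hEIS : S_EIS) : S_FAM2 := by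
  classical
  intro d q hd hqd A B hP
  obtain ⟨D, G, hD, hGd, hG1, hG2⟩ := hLAG d (by omega) A B hP
  obtain ⟨M, hM⟩ : ∃ M : ℕ, M = primorial d := ⟨_, rfl⟩
  have hM0 : 0 < M := by rw [hM]; exact primorial_pos d
  have hMr : ∀ r : ℕ, r.Prime → r ≤ d → r ∣ M := by
    intro r hr hrd
    rw [hM]
    exact hr.dvd_primorial_iff.2 hrd
  have hM4 : ¬ 2 ^ 2 ∣ M := by
    intro h
    have h1 : Squarefree M := by rw [hM]; exact squarefree_primorial d
    have h2 := h1 2 (by rwa [sq] at h)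
    exact Nat.prime_two.not_isUnit h2
  have hM2 : ∃ r : ℕ, r.Prime ∧ r ∣ M ∧ ¬ r ^ 2 ∣ M :=
    ⟨2, Nat.prime_two, hMr 2 Nat.prime_two hd, hM4⟩
  have hDn : 0 < D.natAbs := Int.natAbs_pos.2 hD
  obtain ⟨Γ, hΓ⟩ := coeff_bd G
  obtain ⟨R, hR⟩ : ∃ R : Fin (d + 1) → ℤ, R = fun j => A j ^ d + M * B j ^ d := ⟨_, rfl⟩
  obtain ⟨D0, hD0⟩ : ∃ D0 : ℕ, D0 = ∑ j, ((R j).natAbs + M ^ 2 * D.natAbs * 2) +
    D.natAbs + 1 := ⟨_, rfl⟩
  have hD0j : ∀ j, (R j).natAbs + M ^ 2 * D.natAbs * 2 ≤ D0 := by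
    intro j
    have := Finset.single_le_sum (f := fun j => (R j).natAbs + M ^ 2 * D.natAbs * 2)
      (fun _ _ => Nat.zero_le _) (Finset.mem_univ j)
    omega
  obtain ⟨G0, hG0⟩ := hGCD (d + 1) D0 M (by omega) (by omega)
  obtain ⟨C0, hC0⟩ : ∃ C0 : ℕ, C0 = 1 + M + M ^ 2 * ((d + 1) * (2 * Γ)) := ⟨_, rfl⟩
  refine ⟨C0 + G0 + 2 * D0 + 2, 1 / 2, by positivity, by omega, ?_⟩
  intro Y Z hCZ hZY
  have hZ1 : 1 ≤ Z := by omega
  have hY1 : 1 ≤ Y := by omega
  obtain ⟨N, hN⟩ : ∃ N : Fin (d + 1) → ℕ, N = fun j : Fin (d + 1) =>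
    if (j : ℕ) < q then Z else Y := ⟨_, rfl⟩
  have hN1 : ∀ j, 1 ≤ N j := by
    intro j
    rw [hN]
    show 1 ≤ (if (j : ℕ) < q then Z else Y)
    split_ifs <;> assumption
  have hNY : ∀ j, N j ≤ Y := by
    intro j
    rw [hN]
    show (if (j : ℕ) < q then Z else Y) ≤ Y
    split_ifs
    · exact hZY
    · exact le_rfl
  have hNlast : N (Fin.last d) = Y := by
    rw [hN]
    show (if ((Fin.last d : Fin (d + 1)) : ℕ) < q then Z else Y) = Y
    rw [if_neg (by rw [Fin.val_last]; omega)]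
  -- the shift
  obtain ⟨om, hom⟩ : ∃ om : Fin (d + 1) → ℕ, om = fun j => if j = Fin.last d then Y else 0 :=
    ⟨_, rfl⟩
  have homN : ∀ j, om j ≤ N j := by
    intro j
    rw [hom]
    show (if j = Fin.last d then Y else 0) ≤ N j
    split_ifs with h
    · rw [h, hNlast]
    · exact Nat.zero_le _
  -- values
  obtain ⟨c, hc⟩ : ∃ c : Fin (d + 1) → ℤ, c = fun j => R j + (M : ℤ) ^ 2 * D * om j := ⟨_, rfl⟩
  obtain ⟨w, hw⟩ : ∃ w : (Fin (d + 1) → ℕ) → Fin (d + 1) → ℤ,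
    w = fun t j => (om j : ℤ) + (t j : ℤ) := ⟨_, rfl⟩
  have hV : ∀ t j, hev d (FF d M G (w t)) (A j) (B j) = c j + (M : ℤ) ^ 2 * D * (t j : ℕ) := by
    intro t j
    rw [hev_FF hG1 hG2, hc, hw, hR]
    ring
  have hVne : ∀ (t : ℕ) j, c j + (M : ℤ) ^ 2 * D * t ≠ 0 := by
    intro t j
    have h1 : c j + (M : ℤ) ^ 2 * D * t =
        A j ^ d + M * B j ^ d + (M : ℤ) ^ 2 * D * (om j + t) := by
      rw [hc, hR]; ring
    rw [h1]
    exact val_ne hd (hP.cop j) (hMr 2 Nat.prime_two hd) (by simpa using hM4)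
  have hVd : ∀ (t : ℕ) j, t < N j → |c j + (M : ℤ) ^ 2 * D * t| ≤ D0 * N j := by
    intro t j ht
    have h1 : |c j + (M : ℤ) ^ 2 * D * t| ≤
        ((R j).natAbs + M ^ 2 * D.natAbs * (om j + t) : ℕ) := by
      have h2 : c j + (M : ℤ) ^ 2 * D * t = R j + (M : ℤ) ^ 2 * D * (om j + t) := by
        rw [hc]; ring
      rw [h2]
      refine (abs_add_le _ _).trans ?_
      rw [abs_mul, abs_mul, abs_of_nonneg (show (0 : ℤ) ≤ (M : ℤ) ^ 2 by positivity),
        abs_of_nonneg (show (0 : ℤ) ≤ (om j : ℤ) + t by positivity),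
        Int.abs_eq_natAbs, Int.abs_eq_natAbs]
      push_cast
      exact le_refl _
    refine h1.trans ?_
    have h3 : om j + t ≤ 2 * N j := by
      have := homN j
      omega
    have h5 : (R j).natAbs + M ^ 2 * D.natAbs * (om j + t) ≤ D0 * N j := by
      calc (R j).natAbs + M ^ 2 * D.natAbs * (om j + t) ≤
          (R j).natAbs * N j + M ^ 2 * D.natAbs * (2 * N j) :=
            Nat.add_le_add (Nat.le_mul_of_pos_right _ (hN1 j)) (Nat.mul_le_mul_left _ h3)
        _ = ((R j).natAbs + M ^ 2 * D.natAbs * 2) * N j := by ring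
        _ ≤ D0 * N j := Nat.mul_le_mul_right _ (hD0j j)
    exact_mod_cast h5
  have hcount := hG0 N (fun _ => 1) c (fun _ => (M : ℤ) ^ 2 * D) hN1 (fun _ => le_rfl)
    (fun j t ht => ⟨by simp, hVne t j, by simpa using hVd t j ht⟩)
    (by
      intro j g hg
      refine ⟨?_, Nat.coprime_one_right g⟩
      have e1 : ((M : ℤ) ^ 2 * D).natAbs = D.natAbs * M ^ 2 := by
        rw [Int.natAbs_mul, Int.natAbs_pow, Int.natAbs_natCast, mul_comm]
      have h1 : Nat.Coprime (Nat.gcd g ((M : ℤ) ^ 2 * D).natAbs) (M ^ 2) :=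
        Nat.Coprime.coprime_dvd_left (Nat.gcd_dvd_left _ _) (hg.pow_right 2)
      have h2 : Nat.gcd g ((M : ℤ) ^ 2 * D).natAbs ∣ D.natAbs * M ^ 2 := by
        rw [← e1]; exact Nat.gcd_dvd_right _ _
      have h3 := h1.dvd_of_dvd_mul_right h2
      have h4 := Nat.le_of_dvd hDn h3
      omega)
  -- the family
  obtain ⟨Bad, hBad⟩ : ∃ Bad : Finset (Fin (d + 1) → ℕ), Bad =
    (Fintype.piFinset (fun j => Finset.range (N j))).filter (fun t : Fin (d + 1) → ℕ =>
      ∃ g : ℕ, G0 < g ∧ Nat.Coprime g M ∧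
        ∀ j, (g : ℤ) ∣ c j + (M : ℤ) ^ 2 * D * (t j : ℕ)) := ⟨_, rfl⟩
  obtain ⟨Good, hGood⟩ : ∃ Good : Finset (Fin (d + 1) → ℕ), Good =
    (Fintype.piFinset (fun j => Finset.range (N j))).filter (fun t : Fin (d + 1) → ℕ =>
      ¬ ∃ g : ℕ, G0 < g ∧ Nat.Coprime g M ∧
        ∀ j, (g : ℤ) ∣ c j + (M : ℤ) ^ 2 * D * (t j : ℕ)) := ⟨_, rfl⟩
  have hsum : Bad.card + Good.card = ∏ j, N j := by
    rw [hBad, hGood, Finset.card_filter_add_card_filter_not, Fintype.card_piFinset]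
    simp
  have hcnt : ∏ j, N j ≤ 2 * Good.card := by
    have h1 : 2 * Bad.card ≤ ∏ j, N j := by
      rw [hBad]
      convert hcount
    omega
  refine ⟨Good.image (fun t => FF d M G (w t)), ?_, ?_⟩
  · rw [Finset.card_image_of_injOn]
    · have h1 : ∏ j, N j = Z ^ q * Y ^ (d + 1 - q) := by
        rw [hN]
        exact prod_N (d + 1) q Z Y (by omega)
      rw [h1] at hcnt
      have h2 : (Z : ℝ) ^ q * (Y : ℝ) ^ (d + 1 - q) ≤ 2 * (Good.card : ℝ) := by
        exact_mod_cast hcnt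
      linarith
    · intro t _ t' _ htt
      simp only at htt
      funext j
      have h1 := hV t j
      rw [htt, hV t' j] at h1
      have h2 : (M : ℤ) ^ 2 * D ≠ 0 := by
        have h4 : (M : ℤ) ≠ 0 := by exact_mod_cast hM0.ne'
        exact mul_ne_zero (pow_ne_zero 2 h4) hD
      have h3 : (M : ℤ) ^ 2 * D * ((t' j : ℕ) : ℤ) = (M : ℤ) ^ 2 * D * ((t j : ℕ) : ℤ) := by
        linarith
      have h4 := mul_left_cancel₀ h2 h3
      exact_mod_cast h4.symm
  · intro F hF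
    rw [Finset.mem_image] at hF
    obtain ⟨t, ht, rfl⟩ := hF
    rw [hGood, Finset.mem_filter, Fintype.mem_piFinset] at ht
    obtain ⟨ht1, ht2⟩ := ht
    have hdeg : (∑ j, C (w t j) * G j).natDegree ≤ d := by
      refine natDegree_sum_le_of_forall_le _ _ fun j _ => ?_
      exact (natDegree_C_mul_le _ _).trans (hGd j)
    obtain ⟨e1, e2, e3⟩ := hEIS d M (∑ j, C (w t j) * G j) (by omega) hdeg hM2
    have hY1' : (1 : ℤ) ≤ Y := by exact_mod_cast hY1
    refine ⟨e1, e2, fun r hr hrd => e3 r hr (hMr r hr hrd), ?_, ?_, ?_, ?_⟩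
    · intro i
      refine (coeff_FF d M G (w t) i).trans ?_
      have h1 : ∀ j, |w t j| ≤ 2 * (Y : ℤ) := by
        intro j
        have h2 : 0 ≤ w t j := by rw [hw]; positivity
        rw [abs_of_nonneg h2, hw]
        have h3 : om j + t j ≤ 2 * Y := by
          have h5 := Finset.mem_range.1 (ht1 j)
          have h6 := homN j
          have h7 := hNY j
          omega
        show (om j : ℤ) + ((t j : ℕ) : ℤ) ≤ 2 * (Y : ℤ)
        exact_mod_cast h3
      have h2 : ∑ j, |w t j| * |(G j).coeff i| ≤ ∑ _j : Fin (d + 1), (2 * (Y : ℤ)) * Γ := by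
        refine Finset.sum_le_sum fun j _ => ?_
        exact mul_le_mul (h1 j) (hΓ j i) (abs_nonneg _) (by positivity)
      have h3 : ∑ _j : Fin (d + 1), (2 * (Y : ℤ)) * Γ = ((d + 1) * (2 * Γ)) * Y := by
        rw [Finset.sum_const, Finset.card_univ, Fintype.card_fin, nsmul_eq_mul]
        push_cast
        ring
      have h4 : (M : ℤ) ^ 2 * ∑ j, |w t j| * |(G j).coeff i| ≤
          (M : ℤ) ^ 2 * (((d + 1) * (2 * Γ)) * Y) := by
        rw [← h3]
        exact mul_le_mul_of_nonneg_left h2 (by positivity)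
      have h5 : (1 : ℤ) + M ≤ (1 + M) * Y := by
        have hM' : (0 : ℤ) ≤ M := by positivity
        nlinarith
      have h6 : (0 : ℤ) ≤ ((G0 : ℤ) + 2 * D0 + 2) * Y := by positivity
      rw [hC0]
      push_cast
      nlinarith
    · by_contra hcon
      push Not at hcon
      apply ht2
      refine ⟨(FF d M G (w t)).content.natAbs, ?_, ?_, ?_⟩
      · have h1 : (FF d M G (w t)).content ≤ ((FF d M G (w t)).content.natAbs : ℤ) :=
          Int.le_natAbs
        have h2 : ((G0 : ℕ) : ℤ) < ((FF d M G (w t)).content.natAbs : ℤ) := by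
          push_cast at hcon ⊢
          push_cast at h1
          have : (0 : ℤ) ≤ C0 := by positivity
          have : (0 : ℤ) ≤ D0 := by positivity
          linarith
        exact_mod_cast h2
      · refine Nat.coprime_of_dvd fun r hr hr1 hr2 => ?_
        refine e3 r hr hr2 ?_
        refine dvd_trans ?_ (content_dvd_coeff _)
        exact Int.natCast_dvd.2 hr1
      · intro j
        rw [← hV t j]
        exact Int.natAbs_dvd.2 (content_dvd_hev _ _ _ _)
    · intro j hj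
      rw [hV]
      have h1 := hVd (t j) j (Finset.mem_range.1 (ht1 j))
      have h2 : N j = Z := by
        rw [hN]
        exact if_pos hj
      rw [h2] at h1
      have h3 : (0 : ℤ) ≤ ((C0 : ℤ) + G0 + D0 + 2) * Z := by positivity
      push_cast
      nlinarith
    · rw [hV]
      have h1 : c (Fin.last d) + (M : ℤ) ^ 2 * D * (t (Fin.last d) : ℕ) =
          R (Fin.last d) + (M : ℤ) ^ 2 * D * (Y + t (Fin.last d)) := by
        rw [hc]
        have h2 : om (Fin.last d) = Y := by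
          rw [hom]
          exact if_pos rfl
        simp only [h2]
        ring
      rw [h1]
      have h3 : (1 : ℤ) ≤ |(M : ℤ) ^ 2 * D| := by
        refine Int.one_le_abs ?_
        have h4 : (M : ℤ) ≠ 0 := by exact_mod_cast hM0.ne'
        exact mul_ne_zero (pow_ne_zero 2 h4) hD
      have h4 : (Y : ℤ) ≤ |(M : ℤ) ^ 2 * D * (Y + t (Fin.last d))| := by
        rw [abs_mul, abs_of_nonneg (show (0 : ℤ) ≤ (Y : ℤ) + t (Fin.last d) by positivity)]
        have h5 : (0 : ℤ) ≤ (t (Fin.last d) : ℤ) := by positivity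
        nlinarith
      have h5 : |(M : ℤ) ^ 2 * D * (Y + t (Fin.last d))| - |R (Fin.last d)| ≤
          |R (Fin.last d) + (M : ℤ) ^ 2 * D * (Y + t (Fin.last d))| := by
        have h6 := abs_sub_abs_le_abs_sub ((M : ℤ) ^ 2 * D * (Y + t (Fin.last d)))
          (-R (Fin.last d))
        rw [abs_neg, sub_neg_eq_add, add_comm _ (R (Fin.last d))] at h6
        exact h6
      have h6 : |R (Fin.last d)| ≤ (D0 : ℤ) := by
        rw [Int.abs_eq_natAbs]
        have := hD0j (Fin.last d)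
        have h7 : (R (Fin.last d)).natAbs ≤ D0 := by omega
        exact_mod_cast h7
      have h7 : 2 * (D0 : ℤ) ≤ Y := by
        have : 2 * D0 ≤ Y := by omega
        exact_mod_cast this
      have h8 : (Y : ℤ) ≤ 2 * |R (Fin.last d) + (M : ℤ) ^ 2 * D * (Y + t (Fin.last d))| := by
        linarith
      have h9 : (0 : ℤ) ≤ ((C0 : ℤ) + G0 + 2 * D0) *
          |R (Fin.last d) + (M : ℤ) ^ 2 * D * (Y + t (Fin.last d))| := by positivity
      push_cast
      nlinarith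

end Pool.Agent.H42.AP
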