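import Pool.Agent.H42.AP.Defs2

/-!
A common divisor of the values of an integer polynomial of degree at most `d` at `0, …, d` divides
`d!` times the content.
-/

set_option autoImplicit false

open Polynomial

namespace Pool.Agent.H42.AP

private theorem gc_basis : ∀ (d : ℕ) (F : ℤ[X]), F.natDegree ≤ d →
    ∃ c : ℕ → ℤ, F = ∑ k ∈ Finset.range (d + 1), C (c k) * descPochhammer ℤ k := by
  intro d
  induction d with
  | zero =>
    intro F hF
    refine ⟨fun _ => F.coeff 0, ?_⟩
    rw [Finset.sum_range_one, descPochhammer_zero, mul_one]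
    exact Polynomial.eq_C_of_natDegree_le_zero hF
  | succ d ih =>
    intro F hF
    have hmon : (descPochhammer ℤ (d + 1)).Monic := monic_descPochhammer ℤ (d + 1)
    have hdeg : (descPochhammer ℤ (d + 1)).natDegree = d + 1 :=
      descPochhammer_natDegree (R := ℤ) (d + 1)
    have h1 : (F - C (F.coeff (d + 1)) * descPochhammer ℤ (d + 1)).natDegree ≤ d := by
      rw [Polynomial.natDegree_le_iff_coeff_eq_zero]
      intro N hN
      rw [Polynomial.coeff_sub, Polynomial.coeff_C_mul]
      rcases Nat.lt_or_ge (d + 1) N with h | h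
      · have h5 : (descPochhammer ℤ (d + 1)).coeff N = 0 :=
          Polynomial.coeff_eq_zero_of_natDegree_lt (by rw [hdeg]; exact h)
        rw [Polynomial.coeff_eq_zero_of_natDegree_lt (lt_of_le_of_lt hF h), h5]
        ring
      · have hN' : N = d + 1 := by omega
        subst hN'
        have h2 : (descPochhammer ℤ (d + 1)).coeff (d + 1) = 1 := by
          have := hmon.coeff_natDegree
          rwa [hdeg] at this
        rw [h2]
        ring
    obtain ⟨c, hc⟩ := ih _ h1
    refine ⟨fun k => if k = d + 1 then F.coeff (d + 1) else c k, ?_⟩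
    rw [Finset.sum_range_succ]
    simp only [if_true]
    have h3 : ∑ x ∈ Finset.range (d + 1),
        C (if x = d + 1 then F.coeff (d + 1) else c x) * descPochhammer ℤ x =
        ∑ k ∈ Finset.range (d + 1), C (c k) * descPochhammer ℤ k := by
      refine Finset.sum_congr rfl fun x hx => ?_
      rw [if_neg (by have := Finset.mem_range.1 hx; omega)]
    rw [h3, ← hc]
    ring

private theorem gc_hev (d : ℕ) (F : ℤ[X]) (hF : F.natDegree ≤ d) (t : ℕ) :
    hev d F t 1 = F.eval (t : ℤ) := by
  rw [hev, Polynomial.eval_eq_sum_range' (Nat.lt_succ_of_le hF)]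
  refine Finset.sum_congr rfl fun i _ => ?_
  rw [one_pow, mul_one]

/-- a common divisor of the values divides `d!` times the content -/
theorem gc : S_GC := by
  intro d g F hF hg
  obtain ⟨c, hc⟩ := gc_basis d F hF
  have hval : ∀ t : ℕ, F.eval (t : ℤ) =
      ∑ k ∈ Finset.range (d + 1), c k * (k.factorial : ℤ) * (t.choose k : ℤ) := by
    intro t
    conv_lhs => rw [hc]
    rw [Polynomial.eval_finsetSum]
    refine Finset.sum_congr rfl fun k _ => ?_
    rw [Polynomial.eval_mul, Polynomial.eval_C, descPochhammer_eval_eq_descFactorial,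
      Nat.descFactorial_eq_factorial_mul_choose]
    push_cast
    ring
  have hdiv : ∀ k : ℕ, k ≤ d → (g : ℤ) ∣ c k * (k.factorial : ℤ) := by
    intro k
    induction k using Nat.strong_induction_on with
    | _ k ih =>
      intro hk
      have h1 := hg k hk
      rw [gc_hev d F hF, hval k] at h1
      rw [← Finset.sum_erase_add _ _ (Finset.mem_range.2 (Nat.lt_succ_of_le hk))] at h1
      have h2 : (g : ℤ) ∣ ∑ x ∈ (Finset.range (d + 1)).erase k,
          c x * (x.factorial : ℤ) * (k.choose x : ℤ) := by
        refine Finset.dvd_sum fun x hx => ?_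
        have hx1 := Finset.ne_of_mem_erase hx
        have hx2 := Finset.mem_range.1 (Finset.mem_of_mem_erase hx)
        rcases lt_or_gt_of_ne hx1 with h | h
        · exact Dvd.dvd.mul_right (ih x h (by omega)) _
        · rw [Nat.choose_eq_zero_of_lt h]
          simp
      have h3 := (Int.dvd_add_right h2).1 h1
      rwa [Nat.choose_self, Nat.cast_one, mul_one] at h3
  have hdiv2 : ∀ k : ℕ, k ≤ d → (g : ℤ) ∣ (d.factorial : ℤ) * c k := by
    intro k hk
    obtain ⟨m, hm⟩ := Nat.factorial_dvd_factorial hk
    rw [hm]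
    have h1 : ((k.factorial * m : ℕ) : ℤ) * c k = c k * (k.factorial : ℤ) * m := by
      push_cast
      ring
    rw [h1]
    exact Dvd.dvd.mul_right (hdiv k hk) _
  have hC : C (g : ℤ) ∣ C (d.factorial : ℤ) * F := by
    conv_rhs => rw [hc]
    rw [Finset.mul_sum]
    refine Finset.dvd_sum fun k hk => ?_
    rw [← mul_assoc, ← C_mul]
    exact Dvd.dvd.mul_right (_root_.map_dvd C
      (hdiv2 k (Nat.lt_succ_iff.1 (Finset.mem_range.1 hk)))) _
  have h4 := Polynomial.dvd_content_iff_C_dvd.2 hC
  rwa [Polynomial.content_C_mul, Int.normalize_of_nonneg (by positivity)] at h4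

end Pool.Agent.H42.AP
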