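import Pool.Agent.H42.AP.Defs2

/-!
LOW2: the lower bound for the number of algebraic numbers with large proximity.
-/

set_option autoImplicit false

open NumberField IsDedekindDomain Polynomial

namespace Pool.Agent.H42.AP

/-- the choice of the size of the small values -/
lemma low2_exp (d q C : ℕ) (hq1 : 1 ≤ q) (hq : q ≤ d) (κ C8 : ℝ) (hκ : 0 ≤ κ) (hκq : κ < q) :
    ∃ (c1 : ℝ) (Y0 : ℕ), 0 < c1 ∧ ∀ Y : ℕ, Y0 ≤ Y → 1 ≤ Y → ∃ Z : ℕ, C ≤ Z ∧ Z ≤ Y ∧ 1 ≤ Z ∧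
      q * Real.log Z + C8 ≤ (q - κ) * Real.log Y ∧
      c1 * (Y : ℝ) ^ ((d : ℝ) + 1 - κ) ≤ (Z : ℝ) ^ q * (Y : ℝ) ^ (d + 1 - q) := by
  have hqr : (0 : ℝ) < q := by exact_mod_cast hq1
  obtain ⟨θ, hθ⟩ : ∃ θ : ℝ, θ = (q - κ) / q := ⟨_, rfl⟩
  have hθ0 : 0 < θ := by
    rw [hθ]
    exact div_pos (by linarith) hqr
  have hθ1 : θ ≤ 1 := by
    rw [hθ, div_le_one hqr]
    linarith
  have hθq : θ * q = q - κ := by
    rw [hθ, div_mul_cancel₀ _ hqr.ne']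
  obtain ⟨ε, hε⟩ : ∃ ε : ℝ, ε = Real.exp (-(|C8| / q)) := ⟨_, rfl⟩
  have hε0 : 0 < ε := by rw [hε]; exact Real.exp_pos _
  have hε1 : ε ≤ 1 := by
    rw [hε]
    apply Real.exp_le_one_iff.2
    have : 0 ≤ |C8| / q := by positivity
    linarith
  obtain ⟨Y0, hY0⟩ : ∃ Y0 : ℕ, ∀ Y : ℕ, Y0 ≤ Y → ((C : ℝ) + 2) / ε ≤ (Y : ℝ) ^ θ := by
    have h1 := (tendsto_rpow_atTop hθ0).comp tendsto_natCast_atTop_atTop
    obtain ⟨Y0, h⟩ := Filter.eventually_atTop.1 (h1.eventually_ge_atTop (((C : ℝ) + 2) / ε))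
    exact ⟨Y0, fun Y hY => h Y hY⟩
  refine ⟨(ε / 2) ^ q, Y0, by positivity, fun Y hY hY1 => ?_⟩
  have hY1r : (1 : ℝ) ≤ Y := by exact_mod_cast hY1
  have hYpos : (0 : ℝ) < Y := by linarith
  obtain ⟨x, hx⟩ : ∃ x : ℝ, x = ε * (Y : ℝ) ^ θ := ⟨_, rfl⟩
  have hxC : (C : ℝ) + 2 ≤ x := by
    have h1 := hY0 Y hY
    rw [div_le_iff₀ hε0] at h1
    rw [hx]
    linarith
  have hC0 : (0 : ℝ) ≤ C := Nat.cast_nonneg C
  have hx0 : 0 < x := by linarith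
  have hfl : ((⌊x⌋₊ : ℕ) : ℝ) ≤ x := Nat.floor_le hx0.le
  have hfl' : x < (⌊x⌋₊ : ℕ) + 1 := Nat.lt_floor_add_one x
  have hZC : C ≤ ⌊x⌋₊ := by
    apply Nat.le_floor
    linarith
  have hZ1 : 1 ≤ ⌊x⌋₊ := by
    apply Nat.le_floor
    push_cast
    linarith
  have hxY : x ≤ Y := by
    rw [hx]
    calc ε * (Y : ℝ) ^ θ ≤ 1 * (Y : ℝ) ^ (1 : ℝ) := by
          apply mul_le_mul hε1 (Real.rpow_le_rpow_of_exponent_le hY1r hθ1) (by positivity)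
            zero_le_one
      _ = Y := by rw [one_mul, Real.rpow_one]
  have hZpos : (0 : ℝ) < (⌊x⌋₊ : ℕ) := by exact_mod_cast hZ1
  refine ⟨⌊x⌋₊, hZC, ?_, hZ1, ?_, ?_⟩
  · have : ((⌊x⌋₊ : ℕ) : ℝ) ≤ Y := hfl.trans hxY
    exact_mod_cast this
  · have h1 : Real.log ((⌊x⌋₊ : ℕ) : ℝ) ≤ Real.log x := Real.log_le_log hZpos hfl
    have h2 : Real.log x = -(|C8| / q) + θ * Real.log Y := by
      rw [hx, Real.log_mul hε0.ne' (Real.rpow_pos_of_pos hYpos _).ne', hε, Real.log_exp,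
        Real.log_rpow hYpos]
    have h3 : (q : ℝ) * Real.log ((⌊x⌋₊ : ℕ) : ℝ) ≤ q * Real.log x :=
      mul_le_mul_of_nonneg_left h1 hqr.le
    have h4 : (q : ℝ) * Real.log x = -|C8| + (q - κ) * Real.log Y := by
      rw [h2, ← hθq]
      field_simp
    have h5 := le_abs_self C8
    linarith
  · have h1 : x / 2 ≤ (⌊x⌋₊ : ℕ) := by linarith
    have h2 : (x / 2) ^ q ≤ ((⌊x⌋₊ : ℕ) : ℝ) ^ q := pow_le_pow_left₀ (by linarith) h1 q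
    have h3 : (x / 2) ^ q = (ε / 2) ^ q * (Y : ℝ) ^ ((q : ℝ) - κ) := by
      rw [hx, mul_div_right_comm, mul_pow, ← Real.rpow_natCast ((Y : ℝ) ^ θ) q,
        ← Real.rpow_mul hYpos.le, hθq]
    have h4 : (Y : ℝ) ^ ((d : ℝ) + 1 - κ) = (Y : ℝ) ^ ((q : ℝ) - κ) * (Y : ℝ) ^ (d + 1 - q) := by
      rw [← Real.rpow_natCast (Y : ℝ) (d + 1 - q), ← Real.rpow_add hYpos]
      congr 1
      rw [Nat.cast_sub (by omega)]
      push_cast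
      ring
    rw [h4, ← mul_assoc, ← h3]
    exact mul_le_mul_of_nonneg_right h2 (by positivity)

theorem low2 (h1 : S_FAM2) (h2 : S_PTW2) (h3 : S_FIB) (h4 : S_EXT) (h5 : S_SUB) (h6 : S_UP1) :
    S_LOW2 := by
  classical
  intro d q hd hq1 hq a b hab T κ c hκ hκq
  have hqd : q ≤ d + 1 := by omega
  obtain ⟨A, B, hAB, hl⟩ := h4 q (d + 1) hqd a b hab
  have hA : (fun l : Fin q => A (Fin.castLE hqd l)) = a := funext fun l => (hl l).1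
  have hB : (fun l : Fin q => B (Fin.castLE hqd l)) = b := funext fun l => (hl l).2
  obtain ⟨C, c0, hc0, hC, hfam⟩ := h1 d q hd hq A B hAB
  obtain ⟨C8, hC8⟩ := h2 d q hd hqd A B hAB T κ c hκq.le C hC
  rw [hA, hB] at hC8
  obtain ⟨c1, Y0, hc1, hexp⟩ := low2_exp d q C hq1 hq κ C8 hκ hκq
  have hCr : (1 : ℝ) ≤ C := by exact_mod_cast hC
  obtain ⟨D, hD⟩ : ∃ D : ℝ, D = ((d : ℝ) + 1) * C := ⟨_, rfl⟩
  have hD1 : 1 ≤ D := by
    rw [hD]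
    have : (0 : ℝ) ≤ d := Nat.cast_nonneg d
    nlinarith
  have hD0 : 0 < D := by linarith
  have hβ : 0 < (d : ℝ) + 1 - κ := by
    have : (q : ℝ) ≤ d := by exact_mod_cast hq
    linarith
  refine ⟨c0 * c1 * ((2 * D)⁻¹) ^ ((d : ℝ) + 1 - κ) / (2 * C), D * ((Y0 : ℝ) + 2), by positivity, ?_⟩
  intro Z hZ
  have hY0r : (0 : ℝ) ≤ Y0 := Nat.cast_nonneg Y0
  have hZ1 : 1 ≤ Z := by nlinarith
  have hZ0 : 0 < Z := by linarith
  have hZd : Z ≤ Z ^ d := le_self_pow₀ hZ1 (by omega)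
  obtain ⟨t, ht⟩ : ∃ t : ℝ, t = Z ^ d / D := ⟨_, rfl⟩
  have htY : (Y0 : ℝ) + 2 ≤ t := by
    rw [ht, le_div_iff₀ hD0]
    linarith
  have ht0 : 0 ≤ t := by linarith
  obtain ⟨Y, hYdef⟩ : ∃ Y : ℕ, Y = ⌊t⌋₊ := ⟨_, rfl⟩
  have hYt : (Y : ℝ) ≤ t := by rw [hYdef]; exact Nat.floor_le ht0
  have hYt' : t < Y + 1 := by rw [hYdef]; exact Nat.lt_floor_add_one t
  have hYY0 : Y0 ≤ Y := by
    have : (Y0 : ℝ) ≤ Y := by linarith
    exact_mod_cast this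
  have hY1 : 1 ≤ Y := by
    have : (1 : ℝ) ≤ Y := by linarith
    exact_mod_cast this
  have hYhalf : t / 2 ≤ Y := by linarith
  obtain ⟨z, hzC, hzY, hz1, hzlog, hz3⟩ := hexp Y hYY0 hY1
  obtain ⟨W, hWcard, hW⟩ := hfam Y z hzC hzY
  -- the points
  have hH : ((d : ℝ) + 1) * (C * Y) ≤ Z ^ d := by
    have h7 : (Y : ℝ) * D ≤ Z ^ d := by
      rw [ht] at hYt
      exact (le_div_iff₀ hD0).1 hYt
    calc ((d : ℝ) + 1) * (C * Y) = Y * D := by rw [hD]; ring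
      _ ≤ _ := h7
  have hpt : ∀ F : ℤ[X], ∃ x : ℂ, F ∈ W → aeval x F = 0 ∧ x ∈ ExcP d T a b κ c Z := by
    intro F
    by_cases hF : F ∈ W
    · obtain ⟨g1, g2, g3, g4, g5, g6, g7⟩ := hW F hF
      obtain ⟨x, hx1, hx2⟩ := hC8 Y z F hY1 hz1 g1 g2 g3 g4 g5 g6 g7 hzlog Z hZ1 hH
      exact ⟨x, fun _ => ⟨hx1, hx2⟩⟩
    · exact ⟨0, fun h => absurd h hF⟩
  choose f hf using hpt
  have hfib := h3 d C W f (by omega) (fun F hF => by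
    obtain ⟨g1, g2, g3, g4, g5, g6, g7⟩ := hW F hF
    exact ⟨g1, g2, g5, (hf F hF).1⟩)
  have hfin : (ExcP d T a b κ c Z).Finite := by
    obtain ⟨C', -, hC'⟩ := h6 d q hd hqd a b hab T κ
      (c + ∑ l, d * Real.log (max |(a l : ℝ)| |(b l : ℝ)|)) 1 hκ hκq.le one_pos
    exact (hC' Z hZ1).1.subset (h5 d q hd a b hab T κ c Z)
  have himg : (W.image f).card ≤ (ExcP d T a b κ c Z).ncard := by
    have hsub : ((W.image f : Finset ℂ) : Set ℂ) ⊆ ExcP d T a b κ c Z := by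
      intro x hx
      rw [Finset.mem_coe, Finset.mem_image] at hx
      obtain ⟨F, hF, rfl⟩ := hx
      exact (hf F hF).2
    have := Set.ncard_le_ncard hsub hfin
    rwa [Set.ncard_coe_finset] at this
  have hfinal : (W.card : ℝ) ≤ 2 * C * ((ExcP d T a b κ c Z).ncard : ℝ) := by
    have h7 : W.card ≤ 2 * C * (ExcP d T a b κ c Z).ncard :=
      hfib.trans (Nat.mul_le_mul_left _ himg)
    exact_mod_cast h7
  have hYpow : ((2 * D)⁻¹) ^ ((d : ℝ) + 1 - κ) * Z ^ ((d : ℝ) * (d + 1 - κ)) ≤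
      (Y : ℝ) ^ ((d : ℝ) + 1 - κ) := by
    have e1 : Z ^ ((d : ℝ) * (d + 1 - κ)) = (Z ^ d) ^ ((d : ℝ) + 1 - κ) := by
      rw [Real.rpow_mul hZ0.le, Real.rpow_natCast]
    rw [e1, ← Real.mul_rpow (by positivity) (by positivity)]
    apply Real.rpow_le_rpow (by positivity) _ hβ.le
    calc (2 * D)⁻¹ * Z ^ d = t / 2 := by
          rw [ht]
          field_simp
      _ ≤ Y := hYhalf
  have hmain : c0 * c1 * (((2 * D)⁻¹) ^ ((d : ℝ) + 1 - κ) * Z ^ ((d : ℝ) * (d + 1 - κ))) ≤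
      2 * C * ((ExcP d T a b κ c Z).ncard : ℝ) := by
    calc c0 * c1 * (((2 * D)⁻¹) ^ ((d : ℝ) + 1 - κ) * Z ^ ((d : ℝ) * (d + 1 - κ)))
        ≤ c0 * c1 * (Y : ℝ) ^ ((d : ℝ) + 1 - κ) :=
          mul_le_mul_of_nonneg_left hYpow (by positivity)
      _ = c0 * (c1 * (Y : ℝ) ^ ((d : ℝ) + 1 - κ)) := by ring
      _ ≤ c0 * ((z : ℝ) ^ q * (Y : ℝ) ^ (d + 1 - q)) := mul_le_mul_of_nonneg_left hz3 hc0.le
      _ ≤ W.card := hWcard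
      _ ≤ _ := hfinal
  have h2C : (0 : ℝ) < 2 * C := by linarith
  calc c0 * c1 * ((2 * D)⁻¹) ^ ((d : ℝ) + 1 - κ) / (2 * C) * Z ^ ((d : ℝ) * (d + 1 - κ))
      = (c0 * c1 * (((2 * D)⁻¹) ^ ((d : ℝ) + 1 - κ) * Z ^ ((d : ℝ) * (d + 1 - κ)))) / (2 * C) := by
        ring
    _ ≤ _ := by
        rw [div_le_iff₀ h2C]
        linarith

end Pool.Agent.H42.AP
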