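import Pool.Agent.H42.AP.PRX

/-! PRL: the proximity at the infinite places from below -/

set_option autoImplicit false

open NumberField IsDedekindDomain

namespace Pool.Agent.H42.AP

open PRX in
theorem prl : S_PRL := by
  classical
  intro K _ _ y n hD a b m hab hy hm T
  have hz : (b : K) * y - a ≠ 0 := sub_ne_zero.2 hy
  set z := (b : K) * y - a with hzdef
  have hM : 1 ≤ max |(a : ℝ)| |(b : ℝ)| := by
    by_contra h
    push Not at h
    have h1 : |(a : ℝ)| < 1 := (le_max_left _ _).trans_lt h
    have h2 : |(b : ℝ)| < 1 := (le_max_right _ _).trans_lt h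
    have h3 : a = 0 := by
      have : |a| < 1 := by exact_mod_cast h1
      exact Int.abs_lt_one_iff.1 this
    have h4 : b = 0 := by
      have : |b| < 1 := by exact_mod_cast h2
      exact Int.abs_lt_one_iff.1 this
    rw [h3, h4] at hab
    exact absurd hab (by simp [isCoprime_zero_left])
  have hn : (0 : ℝ) < n := by exact_mod_cast hD.pos
  have hmabs : |(m : ℝ)| = n * ∏ v : InfinitePlace K, v z ^ v.mult := by
    unfold IsVal at hm
    have h1 : ((m : ℚ) : ℝ) = ((n * Algebra.norm ℚ z : ℚ) : ℝ) := by rw [hm]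
    push_cast at h1
    rw [h1, abs_mul, abs_of_pos hn, InfinitePlace.prod_eq_abs_norm]
    push_cast
    rfl
  have hpos1 : ∀ v : InfinitePlace K, 0 < max 1 (v y) := fun v =>
    lt_of_lt_of_le one_pos (le_max_left _ _)
  have hpos2 : ∀ v : InfinitePlace K, 0 < v z := fun v => InfinitePlace.pos_iff.2 hz
  have hH : Real.log (Height.mulHeight₁ y) = Real.log n +
      ∑ v : InfinitePlace K, (v.mult : ℝ) * Real.log (max 1 (v y)) := by
    rw [hD.ht, Real.log_mul hn.ne' (Finset.prod_ne_zero_iff.2 fun v _ =>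
      pow_ne_zero _ (hpos1 v).ne'), Real.log_prod (fun v _ => pow_ne_zero _ (hpos1 v).ne')]
    congr 1
    exact Finset.sum_congr rfl fun v _ => Real.log_pow _ _
  have hmlog : Real.log |(m : ℝ)| = Real.log n +
      ∑ v : InfinitePlace K, (v.mult : ℝ) * Real.log (v z) := by
    rw [hmabs, Real.log_mul hn.ne' (Finset.prod_ne_zero_iff.2 fun v _ =>
      pow_ne_zero _ (hpos2 v).ne'), Real.log_prod (fun v _ => pow_ne_zero _ (hpos2 v).ne')]
    congr 1
    exact Finset.sum_congr rfl fun v _ => Real.log_pow _ _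
  have hfin : 0 ≤ ∑ᶠ v : HeightOneSpectrum (𝓞 K), if Off T v then 0 else
      Real.log (max 1 (FinitePlace.mk v y) / FinitePlace.mk v z) := by
    refine finsum_nonneg fun v => ?_
    split_ifs with ho
    · exact le_rfl
    · refine Real.log_nonneg ?_
      rw [one_le_div (mk_pos v hz)]
      exact z_le v y a b
  have hinf : ∑ v : InfinitePlace K, (v.mult : ℝ) * Real.log (max 1 (v y)) -
      ∑ v : InfinitePlace K, (v.mult : ℝ) * Real.log (v z) ≤
      ∑ v : InfinitePlace K, (v.mult : ℝ) *
      Real.log (max 1 (v y) * max |(a : ℝ)| |(b : ℝ)| / v z) := by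
    rw [← Finset.sum_sub_distrib]
    refine Finset.sum_le_sum fun v _ => ?_
    rw [← mul_sub]
    refine mul_le_mul_of_nonneg_left ?_ (Nat.cast_nonneg _)
    rw [← Real.log_div (hpos1 v).ne' (hpos2 v).ne']
    refine Real.log_le_log (div_pos (hpos1 v) (hpos2 v)) ?_
    refine div_le_div_of_nonneg_right ?_ (hpos2 v).le
    exact le_mul_of_one_le_right (hpos1 v).le hM
  unfold Prox
  rw [← hzdef, hH, hmlog]
  linarith

end Pool.Agent.H42.AP
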