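import Pool.Agent.H42.AP.Defs2

/-! PRX (first main theorem), SUB and PRL -/

set_option autoImplicit false

open NumberField IsDedekindDomain

namespace Pool.Agent.H42.AP

namespace PRX

variable {K : Type} [Field K] [NumberField K]

/-- at a pole the absolute value is at least the norm of the place -/
theorem norm_le (v : HeightOneSpectrum (𝓞 K)) (x : K)
    (h : 1 < FinitePlace.mk v x) : (Ideal.absNorm v.asIdeal : ℝ) ≤ FinitePlace.mk v x := by
  have hx : x ≠ 0 := by
    rintro rfl
    rw [map_zero] at h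
    linarith
  have hv : v.valuation K x ≠ 0 := ((v.valuation K).ne_zero_iff).2 hx
  have h1 : FinitePlace.mk v x =
      ((Ideal.absNorm v.asIdeal : ℝ)) ^ (Multiplicative.toAdd (WithZero.unzero hv)) := by
    rw [FinitePlace.mk_apply, FinitePlace.norm_embedding',
      WithZeroMulInt.toNNReal_neg_apply _ hv]
    push_cast
    rfl
  have hN : (1 : ℝ) < (Ideal.absNorm v.asIdeal : ℝ) := by
    exact_mod_cast HeightOneSpectrum.one_lt_absNorm v
  rw [h1] at h ⊢
  have h2 : 0 < Multiplicative.toAdd (WithZero.unzero hv) := by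
    by_contra h3
    have h4 : Multiplicative.toAdd (WithZero.unzero hv) ≤ 0 := not_lt.1 h3
    have h5 := zpow_le_zpow_right₀ hN.le h4
    rw [zpow_zero] at h5
    linarith
  calc (Ideal.absNorm v.asIdeal : ℝ) = (Ideal.absNorm v.asIdeal : ℝ) ^ (1 : ℤ) := (zpow_one _).symm
    _ ≤ _ := zpow_le_zpow_right₀ hN.le (by omega)

lemma int_le_one (v : HeightOneSpectrum (𝓞 K)) (n : ℤ) : FinitePlace.mk v (n : K) ≤ 1 := by
  have := FinitePlace.norm_le_one K v (n : 𝓞 K)
  rw [FinitePlace.mk_apply]
  rwa [map_intCast] at this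

lemma z_le (v : HeightOneSpectrum (𝓞 K)) (y : K) (a b : ℤ) :
    FinitePlace.mk v ((b : K) * y - a) ≤ max 1 (FinitePlace.mk v y) := by
  have h1 : FinitePlace.mk v ((b : K) * y - a) ≤
      max (FinitePlace.mk v ((b : K) * y)) (FinitePlace.mk v (-(a : K))) := by
    rw [sub_eq_add_neg]
    exact FinitePlace.add_le _ _ _
  refine h1.trans (max_le ?_ ?_)
  · rw [map_mul]
    refine le_max_of_le_right ?_
    have h2 := int_le_one v b
    have h3 : 0 ≤ FinitePlace.mk v y := apply_nonneg _ _
    nlinarith
  · refine le_max_of_le_left ?_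
    have h2 := int_le_one v (-a)
    push_cast at h2
    exact h2

lemma mk_pos (v : HeightOneSpectrum (𝓞 K)) {x : K} (hx : x ≠ 0) : 0 < FinitePlace.mk v x :=
  FinitePlace.pos_iff.2 hx

/-- the ratio at a close place is at least the norm -/
lemma close_le (v : HeightOneSpectrum (𝓞 K)) (y : K) (a b : ℤ) (hz : (b : K) * y - a ≠ 0)
    (h : Close a b y v) : (Ideal.absNorm v.asIdeal : ℝ) ≤
      max 1 (FinitePlace.mk v y) / FinitePlace.mk v ((b : K) * y - a) := by
  have hp := mk_pos v hz
  have h1 : 1 < max 1 (FinitePlace.mk v y) / FinitePlace.mk v ((b : K) * y - a) := by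
    rw [one_lt_div hp]; exact h
  have h2 : max 1 (FinitePlace.mk v y) / FinitePlace.mk v ((b : K) * y - a) =
      max (FinitePlace.mk v (((b : K) * y - a)⁻¹)) (FinitePlace.mk v (y / ((b : K) * y - a))) := by
    rw [map_inv₀, map_div₀, ← one_div, max_div_div_right hp.le]
  rw [h2] at h1 ⊢
  rcases lt_max_iff.1 h1 with h3 | h3
  · exact le_max_of_le_left (norm_le v _ h3)
  · exact le_max_of_le_right (norm_le v _ h3)

/-- a finite set of places outside of which everything is a unit -/
lemma exists_fin (y z : K) (hz : z ≠ 0) : ∃ S : Finset (HeightOneSpectrum (𝓞 K)),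
    ∀ v ∉ S, FinitePlace.mk v z = 1 ∧ max 1 (FinitePlace.mk v y) = 1 := by
  classical
  have h1 : ∀ x : K, x ≠ 0 → {v : HeightOneSpectrum (𝓞 K) | FinitePlace.mk v x ≠ 1}.Finite := by
    intro x hx
    have h2 : ({w : FinitePlace K | w x ≠ 1}).Finite := FinitePlace.hasFiniteMulSupport hx
    refine (h2.preimage (f := fun v : HeightOneSpectrum (𝓞 K) => FinitePlace.mk v) ?_)
    intro v _ w _ h
    exact FinitePlace.mk_eq_iff.1 h
  by_cases hy : y = 0
  · refine ⟨(h1 z hz).toFinset, fun v hv => ⟨?_, ?_⟩⟩
    · by_contra h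
      exact hv ((h1 z hz).mem_toFinset.2 h)
    · subst hy
      rw [map_zero]
      simp
  · refine ⟨(h1 z hz).toFinset ∪ (h1 y hy).toFinset, fun v hv => ⟨?_, ?_⟩⟩
    · by_contra h
      exact hv (Finset.mem_union_left _ ((h1 z hz).mem_toFinset.2 h))
    · have : FinitePlace.mk v y = 1 := by
        by_contra h
        exact hv (Finset.mem_union_right _ ((h1 y hy).mem_toFinset.2 h))
      rw [this]
      simp

/-- the logarithm of the product formula -/
lemma prod_formula (z : K) (hz : z ≠ 0) (S : Finset (HeightOneSpectrum (𝓞 K)))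
    (hS : ∀ v ∉ S, FinitePlace.mk v z = 1) :
    ∑ v : InfinitePlace K, (v.mult : ℝ) * Real.log (v z) +
      ∑ v ∈ S, Real.log (FinitePlace.mk v z) = 0 := by
  have h1 : ∏ᶠ w : FinitePlace K, w z = ∏ v ∈ S, FinitePlace.mk v z := by
    rw [← finprod_comp_equiv (FinitePlace.equivHeightOneSpectrum (K := K)).symm]
    refine finprod_eq_prod_of_mulSupport_subset _ ?_
    intro v hv
    by_contra h
    exact hv (hS v h)
  have h2 := prod_abs_eq_one hz
  rw [h1] at h2
  have h3 := congrArg Real.log h2
  rw [Real.log_one, Real.log_mul, Real.log_prod, Real.log_prod] at h3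
  · rw [← h3]
    congr 1
    refine Finset.sum_congr rfl fun v _ => ?_
    rw [Real.log_pow]
  · intro v _
    exact (mk_pos v hz).ne'
  · intro v _
    exact pow_ne_zero _ (InfinitePlace.pos_iff.2 hz).ne'
  · exact Finset.prod_ne_zero_iff.2 fun v _ => pow_ne_zero _ (InfinitePlace.pos_iff.2 hz).ne'
  · exact Finset.prod_ne_zero_iff.2 fun v _ => (mk_pos v hz).ne'

lemma height (y : K) (S : Finset (HeightOneSpectrum (𝓞 K)))
    (hS : ∀ v ∉ S, max 1 (FinitePlace.mk v y) = 1) :
    Height.logHeight₁ y = ∑ v : InfinitePlace K, (v.mult : ℝ) * Real.log (max 1 (v y)) +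
      ∑ v ∈ S, Real.log (max 1 (FinitePlace.mk v y)) := by
  rw [NumberField.logHeight₁_eq]
  congr 1
  · refine Finset.sum_congr rfl fun v _ => ?_
    rw [Real.posLog_eq_log_max_one (apply_nonneg _ _)]
  · rw [← finsum_comp_equiv (FinitePlace.equivHeightOneSpectrum (K := K)).symm]
    rw [← finsum_eq_sum_of_support_subset]
    · refine finsum_congr fun v => ?_
      rw [Real.posLog_eq_log_max_one (apply_nonneg _ _)]
      rfl
    · intro v hv
      by_contra h
      apply hv
      simp only
      rw [hS v h, Real.log_one]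

end PRX

open PRX in
theorem prx : S_PRX := by
  classical
  intro K _ _ y a b hab hy T
  have hz : (b : K) * y - a ≠ 0 := sub_ne_zero.2 hy
  set z := (b : K) * y - a with hzdef
  obtain ⟨S, hS⟩ := exists_fin y z hz
  have hM : 1 ≤ max |(a : ℝ)| |(b : ℝ)| := by
    by_contra h
    push Not at h
    have h1 : |(a : ℝ)| < 1 := (le_max_left _ _).trans_lt h
    have h2 : |(b : ℝ)| < 1 := (le_max_right _ _).trans_lt h
    have h3 : a = 0 := by
      have : |a| < 1 := by exact_mod_cast h1
      exact Int.abs_lt_one_iff.1 this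
    have h4 : b = 0 := by
      have : |b| < 1 := by exact_mod_cast h2
      exact Int.abs_lt_one_iff.1 this
    rw [h3, h4] at hab
    exact absurd hab (by simp [isCoprime_zero_left])
  have hN1 : N1 T a b y = ∑ v ∈ S, if Close a b y v ∧ Off T v then
      Real.log (Ideal.absNorm v.asIdeal) else 0 := by
    unfold N1
    refine finsum_eq_sum_of_support_subset _ ?_
    intro v hv
    by_contra h
    apply hv
    simp only
    rw [if_neg]
    rintro ⟨h1, _⟩
    unfold Close at h1
    rw [← hzdef, (hS v h).1, (hS v h).2] at h1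
    exact lt_irrefl _ h1
  have hPf : (∑ᶠ v : HeightOneSpectrum (𝓞 K), if Off T v then 0 else
      Real.log (max 1 (FinitePlace.mk v y) / FinitePlace.mk v z)) =
      ∑ v ∈ S, if Off T v then 0 else
      Real.log (max 1 (FinitePlace.mk v y) / FinitePlace.mk v z) := by
    refine finsum_eq_sum_of_support_subset _ ?_
    intro v hv
    by_contra h
    apply hv
    simp only
    rw [(hS v h).1, (hS v h).2]
    simp
  have hloc : ∑ v ∈ S, (if Off T v then 0 else
      Real.log (max 1 (FinitePlace.mk v y) / FinitePlace.mk v z)) +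
      ∑ v ∈ S, (if Close a b y v ∧ Off T v then Real.log (Ideal.absNorm v.asIdeal) else 0) ≤
      ∑ v ∈ S, Real.log (max 1 (FinitePlace.mk v y)) - ∑ v ∈ S, Real.log (FinitePlace.mk v z) := by
    rw [← Finset.sum_add_distrib, ← Finset.sum_sub_distrib]
    refine Finset.sum_le_sum fun v _ => ?_
    have hp := mk_pos v hz
    have h1 : Real.log (max 1 (FinitePlace.mk v y) / FinitePlace.mk v z) =
        Real.log (max 1 (FinitePlace.mk v y)) - Real.log (FinitePlace.mk v z) :=
      Real.log_div (lt_of_lt_of_le one_pos (le_max_left _ _)).ne' hp.ne'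
    rw [← h1]
    by_cases ho : Off T v
    · rw [if_pos ho, zero_add]
      by_cases hc : Close a b y v
      · rw [if_pos ⟨hc, ho⟩]
        have hN : (1 : ℝ) < (Ideal.absNorm v.asIdeal : ℝ) := by
          exact_mod_cast HeightOneSpectrum.one_lt_absNorm v
        exact Real.log_le_log (by linarith) (close_le v y a b hz hc)
      · rw [if_neg fun h => hc h.1]
        refine Real.log_nonneg ?_
        rw [one_le_div hp]
        exact z_le v y a b
    · rw [if_neg ho, if_neg fun h => ho h.2, add_zero]
  have hprod := prod_formula z hz S fun v hv => (hS v hv).1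
  have hht := height y S fun v hv => (hS v hv).2
  have hinf : ∑ v : InfinitePlace K, (v.mult : ℝ) *
      Real.log (max 1 (v y) * max |(a : ℝ)| |(b : ℝ)| / v z) =
      ∑ v : InfinitePlace K, (v.mult : ℝ) * Real.log (max 1 (v y)) +
        Module.finrank ℚ K * Real.log (max |(a : ℝ)| |(b : ℝ)|) -
        ∑ v : InfinitePlace K, (v.mult : ℝ) * Real.log (v z) := by
    have h1 : (Module.finrank ℚ K : ℝ) = ∑ v : InfinitePlace K, (v.mult : ℝ) := by
      rw [← InfinitePlace.sum_mult_eq]
      push_cast
      rfl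
    rw [h1, Finset.sum_mul, ← Finset.sum_add_distrib, ← Finset.sum_sub_distrib]
    refine Finset.sum_congr rfl fun v _ => ?_
    have hvz : 0 < v z := InfinitePlace.pos_iff.2 hz
    have hvy : 0 < max 1 (v y) := lt_of_lt_of_le one_pos (le_max_left _ _)
    rw [Real.log_div (mul_pos hvy (by linarith)).ne' hvz.ne', Real.log_mul hvy.ne' (by linarith)]
    ring
  unfold Prox
  rw [← hzdef, hPf, hN1, hinf, hht]
  linarith

end Pool.Agent.H42.AP
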