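import Pool.Agent.H42.AP.Defs2
import Pool.Agent.H42.AP.PTW

/-! AP-PTW2 (helper62): a polynomial of the family gives an algebraic number with large proximity. -/

set_option autoImplicit false

open NumberField IsDedekindDomain Polynomial

namespace Pool.Agent.H42.AP

theorem ptw2 (hR : S_ROOT) (hP : S_PRL) (hG : S_GC) : S_PTW2 := by
  intro d q hd hq A B hAB T κ c hκ C hC
  set s : ℝ := |(A (Fin.last d) : ℝ)| + |(B (Fin.last d) : ℝ)| with hs
  have hs1 : 1 ≤ s := PTWx.one_le_abs_add (hAB.cop _)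
  have hC0 : (0 : ℝ) < C := by exact_mod_cast hC
  set C' : ℝ := C * (d.factorial * C) * s ^ d with hC'
  have hfac : (0 : ℝ) < (d.factorial : ℝ) := by exact_mod_cast d.factorial_pos
  have hC'pos : 0 < C' := by positivity
  refine ⟨(q - κ) * Real.log C' + q * Real.log C - c, ?_⟩
  intro Y Z F hY hZ hF hirr hlead hco hcont hsmall hlast hineq H hH hYH
  obtain ⟨K, _, _, φ, y, n, g, hDen, hfr, hmin, hy, hg, hne, hval, hht⟩ := hR d F hd hF hirr hlead
  have hH0 : Height.mulHeight₁ y ≤ (d + 1) * (C * Y) := by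
    refine hht _ fun i => ?_
    exact_mod_cast hco i
  have h1 := Height.one_le_mulHeight₁ y
  have h1pos : 0 < Height.mulHeight₁ y := by linarith
  have hlog : Height.logHeight₁ y ≤ Real.log ((d + 1) * (C * Y)) := by
    rw [Height.logHeight₁_eq_log_mulHeight₁]
    exact Real.log_le_log h1pos hH0
  have hlog2 : Height.logHeight₁ y ≤ d * Real.log H := by
    refine hlog.trans ?_
    rw [← Real.log_pow]
    exact Real.log_le_log (h1pos.trans_le hH0) hYH
  refine ⟨φ y, ?_, K, _, _, φ, y, rfl, hfr, hmin, hlog2, ?_⟩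
  · have h0 := Polynomial.aeval_algHom_apply φ.toIntAlgHom y F
    rw [hy, map_zero] at h0
    exact h0
  -- `g` is bounded
  have hF0 : F ≠ 0 := by
    rintro rfl
    rw [Polynomial.natDegree_zero] at hF
    omega
  have hcnn : 0 ≤ F.content := Int.nonneg_of_normalize_eq_self Polynomial.normalize_content
  have hcne : F.content ≠ 0 := fun h => hF0 (Polynomial.content_eq_zero_iff.1 h)
  have hcpos : 0 < F.content := lt_of_le_of_ne hcnn (Ne.symm hcne)
  have hgdvd : (g : ℤ) ∣ (d.factorial : ℤ) * F.content := by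
    refine hG d g F hF.le fun t _ => ?_
    obtain ⟨m, hm⟩ := hDen.val t 1 isCoprime_one_right
    have h2 := hval t 1 m isCoprime_one_right hm
    rw [← dvd_abs, h2]
    exact dvd_mul_right _ _
  have hgle : (g : ℝ) ≤ d.factorial * C := by
    have h2 := Int.le_of_dvd (mul_pos (by exact_mod_cast d.factorial_pos) hcpos) hgdvd
    have h3 : (g : ℤ) ≤ (d.factorial : ℤ) * (C : ℤ) :=
      h2.trans (mul_le_mul_of_nonneg_left hcont (by positivity))
    exact_mod_cast h3
  -- the height from below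
  obtain ⟨m, hm⟩ := hDen.val (A (Fin.last d)) (B (Fin.last d)) (hAB.cop _)
  have hml := hDen.bd _ _ m (hAB.cop _) hm
  rw [hfr] at hml
  have hvl := hval _ _ m (hAB.cop _) hm
  have hYr : (Y : ℝ) ≤ C' * Height.mulHeight₁ y := by
    have h2 : (Y : ℤ) ≤ C * (g * |m|) := by rw [← hvl]; exact hlast
    have h3 : (Y : ℝ) ≤ C * (g * |(m : ℝ)|) := by exact_mod_cast h2
    calc (Y : ℝ) ≤ C * (g * |(m : ℝ)|) := h3
      _ ≤ C * ((d.factorial * C) * (s ^ d * Height.mulHeight₁ y)) :=
        mul_le_mul_of_nonneg_left (mul_le_mul hgle hml (abs_nonneg _) (by positivity))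
          (by positivity)
      _ = C' * Height.mulHeight₁ y := by rw [hC']; ring
  have hlogY : Real.log Y ≤ Real.log C' + Real.log (Height.mulHeight₁ y) := by
    rw [← Real.log_mul hC'pos.ne' h1pos.ne']
    exact Real.log_le_log (by exact_mod_cast hY) hYr
  -- the proximity
  have hbound : ∀ l : Fin q, Real.log (Height.mulHeight₁ y) - (Real.log C + Real.log Z) ≤
      Prox T (A (Fin.castLE hq l)) (B (Fin.castLE hq l)) y := by
    intro l
    have hc := hAB.cop (Fin.castLE hq l)
    obtain ⟨m, hmv⟩ := hDen.val (A (Fin.castLE hq l)) (B (Fin.castLE hq l)) hc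
    obtain ⟨hm0, -⟩ := hDen.low _ _ m hc (hne _ _ hc) hmv
    have h2 := hval _ _ m hc hmv
    have h3 := hsmall (Fin.castLE hq l) l.2
    rw [h2] at h3
    have h4 : |m| ≤ C * Z := by
      have h5 : (1 : ℤ) ≤ g := by exact_mod_cast hg
      nlinarith [abs_nonneg m]
    have h5 : |(m : ℝ)| ≤ C * Z := by exact_mod_cast h4
    have hmpos : 0 < |(m : ℝ)| := abs_pos.mpr (by exact_mod_cast hm0)
    have hZ0 : (0 : ℝ) < Z := by exact_mod_cast hZ
    have h6 : Real.log |(m : ℝ)| ≤ Real.log C + Real.log Z := by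
      rw [← Real.log_mul hC0.ne' hZ0.ne']
      exact Real.log_le_log hmpos h5
    have h7 := hP K y n hDen _ _ m hc (hne _ _ hc) hmv T
    linarith
  have hsum := Finset.sum_le_sum fun l (_ : l ∈ Finset.univ) => hbound l
  rw [Finset.sum_const, Finset.card_univ, Fintype.card_fin, nsmul_eq_mul] at hsum
  have hqκ : 0 ≤ (q : ℝ) - κ := by linarith
  have h9 := mul_le_mul_of_nonneg_left hlogY hqκ
  rw [Height.logHeight₁_eq_log_mulHeight₁]
  linarith

end Pool.Agent.H42.AP
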