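import Pool.Agent.H42.AP.Defs2

/-! SUB: large proximity implies a small counting function -/

set_option autoImplicit false

open NumberField IsDedekindDomain

namespace Pool.Agent.H42.AP

lemma SUB.ne (K : Type) [Field K] [NumberField K] (y : K) (d : ℕ) (hd : 2 ≤ d)
    (hy : (minpoly ℚ y).natDegree = d) (a b : ℤ) (hab : IsCoprime a b) : (b : K) * y ≠ a := by
  intro h
  by_cases hb : b = 0
  · subst hb
    have ha : a = 0 := by
      have : ((a : ℤ) : K) = 0 := by rw [← h]; simp
      exact_mod_cast this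
    subst ha
    exact absurd hab (by simp [isCoprime_zero_left])
  · have hbK : (b : K) ≠ 0 := by exact_mod_cast hb
    have h1 : y = algebraMap ℚ K ((a : ℚ) / b) := by
      rw [map_div₀]
      simp only [eq_ratCast, Rat.cast_intCast]
      rw [eq_div_iff hbK, mul_comm]
      exact h
    have h2 : (minpoly ℚ y).natDegree = 1 := by
      rw [h1, minpoly.eq_X_sub_C, Polynomial.natDegree_X_sub_C]
    omega

theorem sub (h : S_PRX) : S_SUB := by
  intro d q hd a b hP T κ c B x hx
  obtain ⟨K, i1, i2, φ, y, h1, h2, h3, h4, h5⟩ := hx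
  refine ⟨K, i1, i2, φ, y, h1, h2, h3, h4, ?_⟩
  have h6 : ∀ l, N1 T (a l) (b l) y ≤ Height.logHeight₁ y +
      d * Real.log (max |(a l : ℝ)| |(b l : ℝ)|) - Prox T (a l) (b l) y := by
    intro l
    have := h K y (a l) (b l) (hP.cop l) (SUB.ne K y d hd h3 _ _ (hP.cop l)) T
    rw [h2] at this
    linarith
  have h7 := Finset.sum_le_sum fun l (_ : l ∈ Finset.univ) => h6 l
  rw [Finset.sum_sub_distrib, Finset.sum_add_distrib, Finset.sum_const, Finset.card_univ,
    Fintype.card_fin, nsmul_eq_mul] at h7
  linarith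

end Pool.Agent.H42.AP
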