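import Pool.Agent.H42.AP.All
import Pool.Agent.H42.AP.Defs2
import Pool.Agent.H42.AP.GC
import Pool.Agent.H42.AP.FAM2
import Pool.Agent.H42.AP.PRX
import Pool.Agent.H42.AP.PRL
import Pool.Agent.H42.AP.SUB
import Pool.Agent.H42.AP.PTW2
import Pool.Agent.H42.AP.LOW2

set_option autoImplicit false

/-! Assembly. -/

namespace Pool.Agent.H42.AP

theorem sub' : S_SUB := sub prx

theorem low2' : S_LOW2 :=
  low2 (fam2 lag gcd eis) (ptw2 (root den' nr pi) prl gc) fib ext sub' up1'

end Pool.Agent.H42.AP
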