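import Mathlib

/-!
Algebraic points of degree `d` on the projective line which violate the inequality with truncated
counting functions: definitions and statements of the lemmas.
-/

set_option autoImplicit false

open NumberField IsDedekindDomain Polynomial

namespace Pool.Agent.H42.AP

section

variable {K : Type} [Field K] [NumberField K]

/-- `y` is congruent to the point `a / b` modulo the prime `v` (for coprime `a`, `b`) -/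
def Close (a b : ℤ) (y : K) (v : HeightOneSpectrum (𝓞 K)) : Prop :=
  FinitePlace.mk v ((b : K) * y - a) < max 1 (FinitePlace.mk v y)

/-- `v` does not lie above a prime in `T` -/
def Off (T : Finset ℕ) (v : HeightOneSpectrum (𝓞 K)) : Prop :=
  ∀ p ∈ T, p.Prime → ((p : ℕ) : 𝓞 K) ∉ v.asIdeal

open Classical in
/-- the degree times the truncated counting function -/
noncomputable def N1 (T : Finset ℕ) (a b : ℤ) (y : K) : ℝ :=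
  ∑ᶠ v : HeightOneSpectrum (𝓞 K),
    if Close a b y v ∧ Off T v then Real.log (Ideal.absNorm v.asIdeal) else 0

/-- the integer `n * N (b y - a)` -/
def IsVal (n : ℕ) (y : K) (a b m : ℤ) : Prop := (m : ℚ) = n * Algebra.norm ℚ ((b : K) * y - a)

/-- everything needed of the denominator `n` of `y` -/
structure Den (y : K) (n : ℕ) : Prop where
  pos : 0 < n
  ht : Height.mulHeight₁ y = n * ∏ v : InfinitePlace K, (max 1 (v y)) ^ v.mult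
  val : ∀ a b : ℤ, IsCoprime a b → ∃ m : ℤ, IsVal n y a b m
  bd : ∀ a b m : ℤ, IsCoprime a b → IsVal n y a b m →
    |(m : ℝ)| ≤ (|(a : ℝ)| + |(b : ℝ)|) ^ Module.finrank ℚ K * Height.mulHeight₁ y
  low : ∀ a b m : ℤ, IsCoprime a b → (b : K) * y ≠ a → IsVal n y a b m → m ≠ 0 ∧
    ∀ T : Finset ℕ, ∑ p ∈ m.natAbs.primeFactors \ T, Real.log p ≤ N1 T a b y
  up : ∀ a b m : ℤ, IsCoprime a b → (b : K) * y ≠ a → IsVal n y a b m →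
    ∀ (T : Finset ℕ) (p k : ℕ), p.Prime → (p : ℤ) ^ k ∣ m →
      N1 T a b y ≤ Real.log |(m : ℝ)| - k * Real.log p + Module.finrank ℚ K * Real.log p
  pr : ∀ a b m : ℤ, IsCoprime a b → (b : K) * y ≠ a → IsVal n y a b m → ∀ p : ℕ, p.Prime →
    (p : ℤ) ∣ m → ∃ v : HeightOneSpectrum (𝓞 K), Close a b y v ∧ ((p : ℕ) : 𝓞 K) ∈ v.asIdeal

end

/-- pairwise different points of the projective line over `ℚ` -/
structure Pts {s : ℕ} (A B : Fin s → ℤ) : Prop where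
  cop : ∀ j, IsCoprime (A j) (B j)
  ind : ∀ i j, i ≠ j → A i * B j ≠ A j * B i

/-- the value at `(a, b)` of the form of degree `d` belonging to `F` -/
noncomputable def hev (d : ℕ) (F : ℤ[X]) (a b : ℤ) : ℤ :=
  ∑ i ∈ Finset.range (d + 1), F.coeff i * a ^ i * b ^ (d - i)

/-- the exceptional algebraic numbers of degree `d` and height at most `B` -/
def Exc (d : ℕ) (T : Finset ℕ) {q : ℕ} (a b : Fin q → ℤ) (κ c B : ℝ) : Set ℂ :=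
  {x | ∃ (K : Type) (_ : Field K) (_ : NumberField K) (φ : K →+* ℂ) (y : K), φ y = x ∧
    Module.finrank ℚ K = d ∧ (minpoly ℚ y).natDegree = d ∧
    Height.logHeight₁ y ≤ d * Real.log B ∧
    ∑ l, N1 T (a l) (b l) y ≤ (q - κ) * Height.logHeight₁ y + c}

/-- DEN1: the denominator and the ideals -/
def S_DEN1 : Prop := ∀ (K : Type) [Field K] [NumberField K] (y : K), ∃ n : ℕ, 0 < n ∧
  Height.mulHeight₁ y = n * ∏ v : InfinitePlace K, (max 1 (v y)) ^ v.mult ∧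
  ∀ a b : ℤ, IsCoprime a b → (b : K) * y ≠ a → ∃ J : Ideal (𝓞 K), J ≠ ⊥ ∧
    (n : ℚ) * |Algebra.norm ℚ ((b : K) * y - a)| = (Ideal.absNorm J : ℕ) ∧
    ∀ v : HeightOneSpectrum (𝓞 K), Close a b y v ↔ J ≤ v.asIdeal

open Classical in
/-- DEN2: prime factors and norms of an ideal -/
def S_DEN2 : Prop := ∀ (K : Type) [Field K] [NumberField K] (J : Ideal (𝓞 K)), J ≠ ⊥ →
  ∃ hf : {v : HeightOneSpectrum (𝓞 K) | J ≤ v.asIdeal}.Finite,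
    (∀ p : ℕ, p.Prime → p ∣ Ideal.absNorm J →
      ∃ v : HeightOneSpectrum (𝓞 K), J ≤ v.asIdeal ∧ ((p : ℕ) : 𝓞 K) ∈ v.asIdeal) ∧
    (∀ T : Finset ℕ, ∑ p ∈ (Ideal.absNorm J).primeFactors \ T, Real.log p ≤
      ∑ v ∈ hf.toFinset.filter (fun v => Off T v),
        Real.log (Ideal.absNorm v.asIdeal)) ∧
    (∀ p k : ℕ, p.Prime → p ^ k ∣ Ideal.absNorm J →
      ∑ v ∈ hf.toFinset, Real.log (Ideal.absNorm v.asIdeal) ≤
        Real.log (Ideal.absNorm J) - k * Real.log p + Module.finrank ℚ K * Real.log p)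

/-- DEN3: the archimedean bound -/
def S_DEN3 : Prop := ∀ (K : Type) [Field K] [NumberField K] (y : K) (a b : ℤ),
  (|(Algebra.norm ℚ ((b : K) * y - a) : ℚ)| : ℝ) ≤
    (|(a : ℝ)| + |(b : ℝ)|) ^ Module.finrank ℚ K * ∏ v : InfinitePlace K, (max 1 (v y)) ^ v.mult

/-- DEN: assembly -/
def S_DEN : Prop := ∀ (K : Type) [Field K] [NumberField K] (y : K), ∃ n : ℕ, Den y n

/-- DET: `d + 1` values determine the minimal polynomial -/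
def S_DET : Prop := ∀ (d : ℕ), 1 ≤ d → ∀ (A B : Fin (d + 1) → ℤ), Pts A B → ∀ (w : Fin (d + 1) → ℤ),
  {x : ℂ | ∃ (K : Type) (_ : Field K) (_ : NumberField K) (φ : K →+* ℂ) (y : K) (n : ℕ), φ y = x ∧
    Module.finrank ℚ K = d ∧ (minpoly ℚ y).natDegree = d ∧ 0 < n ∧
    ∀ j, IsVal n y (A j) (B j) (w j)}.Finite ∧
  {x : ℂ | ∃ (K : Type) (_ : Field K) (_ : NumberField K) (φ : K →+* ℂ) (y : K) (n : ℕ), φ y = x ∧
    Module.finrank ℚ K = d ∧ (minpoly ℚ y).natDegree = d ∧ 0 < n ∧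
    ∀ j, IsVal n y (A j) (B j) (w j)}.ncard ≤ d

/-- RAD: few integers with a given radical (outside `T`) -/
def S_RAD : Prop := ∀ (T : Finset ℕ) (δ : ℝ), 0 < δ → ∃ C : ℝ, 1 ≤ C ∧ ∀ N r : ℕ, 1 ≤ N →
  (((Finset.Icc 1 N).filter (fun m => ∏ p ∈ m.primeFactors \ T, p = r)).card : ℝ) ≤ C * (N : ℝ) ^ δ

/-- TUP: tuples with a bounded product -/
def S_TUP : Prop := ∀ (s : ℕ) (δ : ℝ), 0 < δ → ∃ C : ℝ, 1 ≤ C ∧ ∀ R : ℝ, 1 ≤ R →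
  {r : Fin s → ℕ | (∀ j, 1 ≤ r j) ∧ ((∏ j, r j : ℕ) : ℝ) ≤ R}.Finite ∧
  ({r : Fin s → ℕ | (∀ j, 1 ≤ r j) ∧ ((∏ j, r j : ℕ) : ℝ) ≤ R}.ncard : ℝ) ≤ C * R ^ (1 + δ)

/-- CNT: vectors of integers with small radicals -/
def S_CNT : Prop := ∀ (s : ℕ) (I : Finset (Fin s)) (T : Finset ℕ) (δ D : ℝ), 0 < δ → 1 ≤ D →
  ∃ C : ℝ, 1 ≤ C ∧ ∀ Y L : ℝ, 1 ≤ Y → 0 ≤ L →
  {w : Fin s → ℤ | (∀ j, w j ≠ 0 ∧ |(w j : ℝ)| ≤ D * Y) ∧
    ∑ j ∈ I, ∑ p ∈ (w j).natAbs.primeFactors \ T, Real.log p ≤ L}.Finite ∧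
  ({w : Fin s → ℤ | (∀ j, w j ≠ 0 ∧ |(w j : ℝ)| ≤ D * Y) ∧
    ∑ j ∈ I, ∑ p ∈ (w j).natAbs.primeFactors \ T, Real.log p ≤ L}.ncard : ℝ) ≤
    C * Real.exp L * Y ^ ((s : ℝ) - I.card + δ)

/-- EXT: more points -/
def S_EXT : Prop := ∀ (q s : ℕ) (h : q ≤ s) (a b : Fin q → ℤ), Pts a b →
  ∃ A B : Fin s → ℤ, Pts A B ∧ ∀ l : Fin q, A (Fin.castLE h l) = a l ∧ B (Fin.castLE h l) = b l

/-- UPQ: the upper bound for `q ≤ d + 1` points -/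
def S_UP1 : Prop := ∀ (d q : ℕ), 2 ≤ d → q ≤ d + 1 → ∀ (a b : Fin q → ℤ), Pts a b →
  ∀ (T : Finset ℕ) (κ c δ : ℝ), 0 ≤ κ → κ ≤ q → 0 < δ → ∃ C : ℝ, 1 ≤ C ∧ ∀ B : ℝ, 1 ≤ B →
    (Exc d T a b κ c B).Finite ∧
    ((Exc d T a b κ c B).ncard : ℝ) ≤ C * B ^ ((d : ℝ) * (d + 1 - κ) + δ)

/-- the upper bound for `q ≥ d + 1` points -/
def S_UP2 : Prop := ∀ (d q : ℕ), 2 ≤ d → d + 1 ≤ q → ∀ (a b : Fin q → ℤ), Pts a b →
  ∀ (T : Finset ℕ) (κ c δ : ℝ), 0 ≤ κ → κ ≤ q → 0 < δ → ∃ C : ℝ, 1 ≤ C ∧ ∀ B : ℝ, 1 ≤ B →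
    (Exc d T a b κ c B).Finite ∧
    ((Exc d T a b κ c B).ncard : ℝ) ≤ C * B ^ ((d : ℝ) * (d + 1) * (1 - κ / q) + δ)

/-- LAG: the polynomials of Lagrange -/
def S_LAG : Prop := ∀ (d : ℕ), 1 ≤ d → ∀ (A B : Fin (d + 1) → ℤ), Pts A B →
  ∃ (D : ℤ) (G : Fin (d + 1) → ℤ[X]), D ≠ 0 ∧ (∀ j, (G j).natDegree ≤ d) ∧
    (∀ j, hev d (G j) (A j) (B j) = D) ∧ ∀ i j, i ≠ j → hev d (G j) (A i) (B i) = 0

open Classical in
/-- GCD: few tuples of values of linear polynomials have a large common divisor -/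
def S_GCD : Prop := ∀ (s D0 E : ℕ), 2 ≤ s → 1 ≤ D0 → ∃ G : ℕ, ∀ (N Pw : Fin s → ℕ) (c D : Fin s → ℤ),
  (∀ j, 1 ≤ N j) → (∀ j, 1 ≤ Pw j) →
  (∀ j, ∀ t : ℕ, t < N j → (Pw j : ℤ) ∣ c j + D j * t ∧ c j + D j * t ≠ 0 ∧
    |c j + D j * t| ≤ D0 * N j * Pw j) →
  (∀ j (g : ℕ), Nat.Coprime g E → Nat.gcd g (D j).natAbs ≤ D0 ∧ Nat.Coprime g (Pw j)) →
  2 * ((Fintype.piFinset (fun j => Finset.range (N j))).filter (fun t : Fin s → ℕ => ∃ g : ℕ, G < g ∧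
    Nat.Coprime g E ∧ ∀ j, (g : ℤ) ∣ c j + D j * (t j : ℕ))).card ≤ ∏ j, N j

/-- EIS: Eisenstein -/
def S_EIS : Prop := ∀ (d M : ℕ) (H : ℤ[X]), 1 ≤ d → H.natDegree ≤ d → (∃ r : ℕ, r.Prime ∧ r ∣ M ∧ ¬ r ^ 2 ∣ M) →
  let F : ℤ[X] := X ^ d + C (M : ℤ) + C ((M : ℤ) ^ 2) * H
  F.natDegree = d ∧ Irreducible (F.map (Int.castRingHom ℚ)) ∧
    ∀ r : ℕ, r.Prime → r ∣ M → ¬ (r : ℤ) ∣ F.leadingCoeff

/-- FAM: many polynomials with values divisible by powers -/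
def S_FAM : Prop := ∀ (d : ℕ), 2 ≤ d → ∀ (A B : Fin (d + 1) → ℤ), Pts A B →
  ∃ (p : Fin (d + 1) → ℕ) (C : ℕ) (c0 : ℝ), 0 < c0 ∧ 1 ≤ C ∧ (∀ j, (p j).Prime) ∧
    ∀ (Y : ℕ) (k : Fin (d + 1) → ℕ), (∀ j, C * p j ^ k j ≤ Y) → ∃ W : Finset ℤ[X],
      c0 * ∏ j, ((Y : ℝ) / (p j : ℝ) ^ k j) ≤ W.card ∧ ∀ F ∈ W, F.natDegree = d ∧
        Irreducible (F.map (Int.castRingHom ℚ)) ∧
        (∀ r : ℕ, r.Prime → r ≤ d → ¬ (r : ℤ) ∣ F.leadingCoeff) ∧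
        (∀ i, |F.coeff i| ≤ C * Y) ∧ (∀ j, (p j : ℤ) ^ k j ∣ hev d F (A j) (B j)) ∧
        (∀ j, ∃ i, ¬ (p j : ℤ) ∣ hev d F (A i) (B i)) ∧ F.content ≤ C

/-- NR: the values have no common prime factor `p ≥ d` -/
def S_NR : Prop := ∀ (K : Type) [Field K] [NumberField K] (y : K) (n : ℕ), Den y n →
  (∀ a b : ℤ, IsCoprime a b → (b : K) * y ≠ a) →
  ∀ p : ℕ, p.Prime → Module.finrank ℚ K ≤ p →
    ∃ a b m : ℤ, IsCoprime a b ∧ IsVal n y a b m ∧ ¬ (p : ℤ) ∣ m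

/-- PI: no pole modulo `p` if the leading coefficient is prime to `p` -/
def S_PI : Prop := ∀ (K : Type) [Field K] [NumberField K] (y : K) (n : ℕ), Den y n →
  ∀ F : ℤ[X], aeval y F = 0 → ∀ p : ℕ, p.Prime → ¬ (p : ℤ) ∣ F.leadingCoeff → ¬ p ∣ n

/-- ROOT: the number field of a root and the values -/
def S_ROOT : Prop := ∀ (d : ℕ) (F : ℤ[X]), 2 ≤ d → F.natDegree = d →
  Irreducible (F.map (Int.castRingHom ℚ)) → (∀ r : ℕ, r.Prime → r ≤ d → ¬ (r : ℤ) ∣ F.leadingCoeff) →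
  ∃ (K : Type) (_ : Field K) (_ : NumberField K) (_ : K →+* ℂ) (y : K) (n g : ℕ), Den y n ∧
    Module.finrank ℚ K = d ∧ (minpoly ℚ y).natDegree = d ∧ aeval y F = 0 ∧ 0 < g ∧
    (∀ a b : ℤ, IsCoprime a b → (b : K) * y ≠ a) ∧
    (∀ a b m : ℤ, IsCoprime a b → IsVal n y a b m → |hev d F a b| = g * |m|) ∧
    ∀ H : ℝ, (∀ i, |(F.coeff i : ℝ)| ≤ H) → Height.mulHeight₁ y ≤ (d + 1) * H

open Classical in
/-- FIB: the fibres of the choice of a root -/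
def S_FIB : Prop := ∀ (d C : ℕ) (W : Finset ℤ[X]) (f : ℤ[X] → ℂ), 1 ≤ d →
  (∀ F ∈ W, F.natDegree = d ∧ Irreducible (F.map (Int.castRingHom ℚ)) ∧ F.content ≤ C ∧
    aeval (f F) F = 0) → W.card ≤ 2 * C * (W.image f).card

/-- PTW: a polynomial of the family gives an exceptional number -/
def S_PTW : Prop := ∀ (d q m0 : ℕ), 2 ≤ d → ∀ (A B : Fin (d + 1) → ℤ), Pts A B →
  ∀ (a b : Fin q → ℤ), Pts a b → ∀ (hm : m0 ≤ q) (hm' : m0 ≤ d + 1),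
  (∀ l : Fin m0, a (Fin.castLE hm l) = A (Fin.castLE hm' l) ∧
    b (Fin.castLE hm l) = B (Fin.castLE hm' l)) →
  ∀ (T : Finset ℕ) (κ c : ℝ), 0 ≤ κ → ∀ (p : Fin (d + 1) → ℕ) (C : ℕ), (∀ j, (p j).Prime) → 1 ≤ C →
  ∃ C8 : ℝ, ∀ (Y : ℕ) (k : Fin (d + 1) → ℕ) (F : ℤ[X]), 1 ≤ Y → F.natDegree = d →
    Irreducible (F.map (Int.castRingHom ℚ)) →
    (∀ r : ℕ, r.Prime → r ≤ d → ¬ (r : ℤ) ∣ F.leadingCoeff) →
    (∀ i, |F.coeff i| ≤ C * Y) → (∀ j, (p j : ℤ) ^ k j ∣ hev d F (A j) (B j)) →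
    (∀ j, ∃ i, ¬ (p j : ℤ) ∣ hev d F (A i) (B i)) →
    κ * Real.log ((d + 1) * (C * Y)) + C8 ≤
      ∑ l : Fin m0, (k (Fin.castLE hm' l) : ℝ) * Real.log (p (Fin.castLE hm' l)) →
    ∀ H : ℝ, 1 ≤ H → ((d : ℝ) + 1) * (C * Y) ≤ H ^ d →
      ∃ x : ℂ, aeval x F = 0 ∧ x ∈ Exc d T a b κ c H

/-- the lower bound -/
def S_LOW : Prop := ∀ (d q : ℕ), 2 ≤ d → 1 ≤ q → ∀ (a b : Fin q → ℤ), Pts a b →
  ∀ (T : Finset ℕ) (κ c : ℝ), 0 ≤ κ → κ < q → κ < d + 1 → ∃ C B0 : ℝ, 0 < C ∧ ∀ B : ℝ, B0 ≤ B →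
    C * B ^ ((d : ℝ) * (d + 1 - κ)) ≤ ((Exc d T a b κ c B).ncard : ℝ)

end Pool.Agent.H42.AP
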