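import Pool.Agent.H42.AP.All2

/-! One place: at most `d` of the points are close, and more points only help. -/

set_option autoImplicit false

open NumberField IsDedekindDomain

namespace Pool.Agent.H42.AP

namespace INF

variable {K : Type} [Field K] [NumberField K]

lemma one_le_max {a b : ℤ} (hab : IsCoprime a b) : (1 : ℝ) ≤ max |(a : ℝ)| |(b : ℝ)| := by
  by_contra h
  push Not at h
  have h1 : |(a : ℝ)| < 1 := (le_max_left _ _).trans_lt h
  have h2 : |(b : ℝ)| < 1 := (le_max_right _ _).trans_lt h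
  have h3 : a = 0 := by
    have : |a| < 1 := by exact_mod_cast h1
    exact Int.abs_lt_one_iff.1 this
  have h4 : b = 0 := by
    have : |b| < 1 := by exact_mod_cast h2
    exact Int.abs_lt_one_iff.1 this
  rw [h3, h4] at hab
  exact absurd hab (by simp [isCoprime_zero_left])

omit [NumberField K] in
lemma ip_int (w : InfinitePlace K) (n : ℤ) : w (n : K) = |(n : ℝ)| := by
  have h1 : w.embedding (n : K) = (n : ℂ) := map_intCast _ _
  rw [← InfinitePlace.norm_embedding_eq, h1, Complex.norm_intCast]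

omit [NumberField K] in
lemma ip_sub (w : InfinitePlace K) (x y : K) : w (x - y) ≤ w x + w y := by
  have h := w.1.add_le x (-y)
  rw [sub_eq_add_neg]
  refine h.trans (le_of_eq ?_)
  have : w.1 (-y) = w.1 y := w.1.map_neg y
  rw [this]
  rfl

omit [NumberField K] in
/-- two points are not both close -/
lemma far (w : InfinitePlace K) (y : K) {a b a' b' : ℤ} (hne : a * b' ≠ a' * b) {M : ℝ}
    (h1 : |(a : ℝ)| ≤ M) (h2 : |(b : ℝ)| ≤ M) (h3 : |(a' : ℝ)| ≤ M) (h4 : |(b' : ℝ)| ≤ M)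
    (hle : w ((b' : K) * y - a') ≤ w ((b : K) * y - a)) :
    max 1 (w y) ≤ 2 * M * w ((b : K) * y - a) := by
  have hM : 0 ≤ M := (abs_nonneg _).trans h1
  have hD : (1 : ℝ) ≤ |((a * b' - a' * b : ℤ) : ℝ)| := by
    have := Int.one_le_abs (sub_ne_zero.2 hne)
    exact_mod_cast this
  have hz0 : 0 ≤ w ((b : K) * y - a) := apply_nonneg _ _
  have hz1 : 0 ≤ w ((b' : K) * y - a') := apply_nonneg _ _
  have e1 : ((a * b' - a' * b : ℤ) : K) =
      (b : K) * ((b' : K) * y - a') - (b' : K) * ((b : K) * y - a) := by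
    push_cast; ring
  have e2 : ((a * b' - a' * b : ℤ) : K) * y =
      (a : K) * ((b' : K) * y - a') - (a' : K) * ((b : K) * y - a) := by
    push_cast; ring
  have k1 : |((a * b' - a' * b : ℤ) : ℝ)| ≤ 2 * M * w ((b : K) * y - a) := by
    rw [← ip_int w, e1]
    refine (ip_sub w _ _).trans ?_
    rw [map_mul, map_mul, ip_int, ip_int]
    have u1 : |(b : ℝ)| * w ((b' : K) * y - a') ≤ M * w ((b : K) * y - a) :=
      mul_le_mul h2 hle hz1 hM
    have u2 : |(b' : ℝ)| * w ((b : K) * y - a) ≤ M * w ((b : K) * y - a) :=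
      mul_le_mul h4 le_rfl hz0 hM
    linarith
  have k2 : |((a * b' - a' * b : ℤ) : ℝ)| * w y ≤ 2 * M * w ((b : K) * y - a) := by
    rw [← ip_int w, ← map_mul, e2]
    refine (ip_sub w _ _).trans ?_
    rw [map_mul, map_mul, ip_int, ip_int]
    have u1 : |(a : ℝ)| * w ((b' : K) * y - a') ≤ M * w ((b : K) * y - a) :=
      mul_le_mul h1 hle hz1 hM
    have u2 : |(a' : ℝ)| * w ((b : K) * y - a) ≤ M * w ((b : K) * y - a) :=
      mul_le_mul h3 le_rfl hz0 hM
    linarith
  refine max_le (hD.trans k1) (le_trans ?_ k2)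
  have : 0 ≤ w y := apply_nonneg _ _
  nlinarith

omit [NumberField K] in
/-- a local height is bounded below -/
lemma low1 (w : InfinitePlace K) (y : K) (a b : ℤ) :
    -Real.log 2 ≤ Real.log (max 1 (w y) * max |(a : ℝ)| |(b : ℝ)| / w ((b : K) * y - a)) := by
  have hz0 : 0 ≤ w ((b : K) * y - a) := apply_nonneg _ _
  rcases hz0.eq_or_lt with h | h
  · rw [← h, div_zero, Real.log_zero]
    have := Real.log_pos (show (1 : ℝ) < 2 by norm_num)
    linarith
  · rw [← Real.log_inv]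
    refine Real.log_le_log (by norm_num) ?_
    rw [le_div_iff₀ h]
    have h1 : w ((b : K) * y - a) ≤ |(b : ℝ)| * w y + |(a : ℝ)| := by
      refine (ip_sub w _ _).trans ?_
      rw [map_mul, ip_int, ip_int]
    have h2 : |(b : ℝ)| * w y ≤ max |(a : ℝ)| |(b : ℝ)| * max 1 (w y) :=
      mul_le_mul (le_max_right _ _) (le_max_right _ _) (apply_nonneg _ _)
        ((abs_nonneg _).trans (le_max_left _ _))
    have h3 : |(a : ℝ)| * 1 ≤ max |(a : ℝ)| |(b : ℝ)| * max 1 (w y) :=
      mul_le_mul (le_max_left _ _) (le_max_left _ _) zero_le_one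
        ((abs_nonneg _).trans (le_max_left _ _))
    nlinarith

/-- the proximity is bounded below -/
lemma proxLow (T : Finset ℕ) (y : K) (a b : ℤ) :
    -(Module.finrank ℚ K * Real.log 2) ≤ Prox T a b y := by
  classical
  unfold Prox
  have h1 : -(Module.finrank ℚ K * Real.log 2) ≤ ∑ v : InfinitePlace K, (v.mult : ℝ) *
      Real.log (max 1 (v y) * max |(a : ℝ)| |(b : ℝ)| / v ((b : K) * y - a)) := by
    have h2 : (Module.finrank ℚ K : ℝ) = ∑ v : InfinitePlace K, (v.mult : ℝ) := by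
      rw [← InfinitePlace.sum_mult_eq (K := K)]
      push_cast
      rfl
    rw [h2, Finset.sum_mul, ← Finset.sum_neg_distrib]
    refine Finset.sum_le_sum fun v _ => ?_
    rw [← mul_neg]
    exact mul_le_mul_of_nonneg_left (low1 v y a b) (Nat.cast_nonneg _)
  have h2 : 0 ≤ ∑ᶠ v : HeightOneSpectrum (𝓞 K), if Off T v then 0 else
      Real.log (max 1 (FinitePlace.mk v y) / FinitePlace.mk v ((b : K) * y - a)) := by
    refine finsum_nonneg fun v => ?_
    split_ifs with ho
    · exact le_rfl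
    · have h0 : 0 ≤ FinitePlace.mk v ((b : K) * y - a) := apply_nonneg _ _
      rcases h0.eq_or_lt with h | h
      · rw [← h, div_zero, Real.log_zero]
      · refine Real.log_nonneg ?_
        rw [one_le_div h]
        exact PRX.z_le v y a b
  linarith

lemma prox_empty (y : K) (a b : ℤ) : Prox ∅ a b y = ∑ v : InfinitePlace K, (v.mult : ℝ) *
    Real.log (max 1 (v y) * max |(a : ℝ)| |(b : ℝ)| / v ((b : K) * y - a)) := by
  classical
  unfold Prox
  have h : ∀ v : HeightOneSpectrum (𝓞 K), (if Off (∅ : Finset ℕ) v then (0 : ℝ) else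
      Real.log (max 1 (FinitePlace.mk v y) / FinitePlace.mk v ((b : K) * y - a))) = 0 := by
    intro v
    rw [if_pos]
    intro p hp
    simp at hp
  simp only [h, finsum_zero, add_zero]

end INF

open INF in
/-- more points only help, up to a constant -/
theorem infLow (d q : ℕ) (a b : Fin q → ℤ) (T : Finset ℕ) (κ c B : ℝ)
    (e : Fin d ↪ Fin q) :
    ExcP d T (fun i => a (e i)) (fun i => b (e i)) κ (c - q * (d * Real.log 2)) B ⊆
      ExcP d T a b κ c B := by
  classical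
  rintro x ⟨K, _, _, φ, y, h1, h2, h3, h4, h5⟩
  refine ⟨K, inferInstance, inferInstance, φ, y, h1, h2, h3, h4, ?_⟩
  have h6 : ∀ l, 0 ≤ Prox T (a l) (b l) y + d * Real.log 2 := by
    intro l
    have := proxLow T y (a l) (b l)
    rw [h2] at this
    linarith
  have h7 : ∑ i, (Prox T (a (e i)) (b (e i)) y + d * Real.log 2) ≤
      ∑ l, (Prox T (a l) (b l) y + d * Real.log 2) := by
    have h8 : ∑ i, (Prox T (a (e i)) (b (e i)) y + d * Real.log 2) =
        ∑ l ∈ Finset.univ.map e, (Prox T (a l) (b l) y + d * Real.log 2) := by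
      rw [Finset.sum_map]
    rw [h8]
    exact Finset.sum_le_sum_of_subset_of_nonneg (Finset.subset_univ _) fun l _ _ => h6 l
  rw [Finset.sum_add_distrib, Finset.sum_add_distrib] at h7
  simp only [Finset.sum_const, Finset.card_univ, Fintype.card_fin, nsmul_eq_mul] at h7
  have h9 : 0 ≤ (d : ℝ) * (d * Real.log 2) := by
    have := Real.log_pos (show (1 : ℝ) < 2 by norm_num)
    positivity
  linarith

open INF in
/-- at one place at most `d` of the points are close -/
theorem infUp (d q : ℕ) (hd : 1 ≤ d) (hq : d ≤ q) (a b : Fin q → ℤ) (hp : Pts a b) :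
    ∃ C : ℝ, ∀ κ c B : ℝ, ExcP d ∅ a b κ c B ⊆
      ⋃ e : Fin d ↪ Fin q, ExcP d ∅ (fun i => a (e i)) (fun i => b (e i)) κ (c + C) B := by
  classical
  obtain ⟨M, hM1, hMa, hMb⟩ : ∃ M : ℝ, 1 ≤ M ∧ (∀ l, |(a l : ℝ)| ≤ M) ∧ ∀ l, |(b l : ℝ)| ≤ M := by
    refine ⟨1 + ∑ l, (|(a l : ℝ)| + |(b l : ℝ)|), ?_, fun l => ?_, fun l => ?_⟩
    · have : 0 ≤ ∑ l, (|(a l : ℝ)| + |(b l : ℝ)|) := Finset.sum_nonneg fun _ _ => by positivity
      linarith
    · have := Finset.single_le_sum (f := fun l => |(a l : ℝ)| + |(b l : ℝ)|)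
        (fun _ _ => by positivity) (Finset.mem_univ l)
      have h2 := abs_nonneg (b l : ℝ)
      linarith
    · have := Finset.single_le_sum (f := fun l => |(a l : ℝ)| + |(b l : ℝ)|)
        (fun _ _ => by positivity) (Finset.mem_univ l)
      have h2 := abs_nonneg (a l : ℝ)
      linarith
  set C0 : ℝ := Real.log (2 * M ^ 2) with hC0
  have hC0n : 0 ≤ C0 := Real.log_nonneg (by nlinarith)
  refine ⟨q * (d * C0), fun κ c B => ?_⟩
  rintro x ⟨K, _, _, φ, y, h1, h2, h3, h4, h5⟩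
  have : Nonempty (Fin q) := ⟨⟨0, by omega⟩⟩
  -- the nearest point at each place
  have hmin : ∀ w : InfinitePlace K, ∃ l : Fin q, ∀ l',
      w ((b l : K) * y - a l) ≤ w ((b l' : K) * y - a l') :=
    fun w => Finite.exists_min fun l => w ((b l : K) * y - a l)
  choose L hL using hmin
  -- an embedding whose image contains all of them
  have hcard : (Finset.univ.image L).card ≤ d := by
    refine Finset.card_image_le.trans ?_
    rw [← h2, ← InfinitePlace.sum_mult_eq (K := K), Finset.card_eq_sum_ones]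
    exact Finset.sum_le_sum fun w _ => InfinitePlace.mult_pos
  obtain ⟨U, hU1, -, hU2⟩ := Finset.exists_subsuperset_card_eq (Finset.subset_univ
    (Finset.univ.image L)) hcard (by rw [Finset.card_univ, Fintype.card_fin]; exact hq)
  let e : Fin d ↪ Fin q := (U.orderEmbOfFin hU2).toEmbedding
  have he : Finset.univ.map e = U := by
    ext l
    simp only [Finset.mem_map, Finset.mem_univ, true_and]
    constructor
    · rintro ⟨i, rfl⟩
      exact U.orderEmbOfFin_mem hU2 i
    · intro hl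
      have := U.range_orderEmbOfFin hU2
      have h6 : l ∈ Set.range (U.orderEmbOfFin hU2) := by rw [this]; exact hl
      obtain ⟨i, hi⟩ := h6
      exact ⟨i, hi⟩
  refine Set.mem_iUnion.2 ⟨e, K, inferInstance, inferInstance, φ, y, h1, h2, h3, h4, ?_⟩
  have hfar : ∀ l, l ∉ U → Prox ∅ (a l) (b l) y ≤ d * C0 := by
    intro l hl
    rw [prox_empty]
    have h6 : (d : ℝ) = ∑ v : InfinitePlace K, (v.mult : ℝ) := by
      rw [← h2, ← InfinitePlace.sum_mult_eq (K := K)]
      push_cast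
      rfl
    rw [h6, Finset.sum_mul]
    refine Finset.sum_le_sum fun w _ => mul_le_mul_of_nonneg_left ?_ (Nat.cast_nonneg _)
    have hne : l ≠ L w := by
      rintro rfl
      exact hl (hU1 (Finset.mem_image_of_mem _ (Finset.mem_univ w)))
    have h7 := far w y (hp.ind l (L w) hne) (hMa l) (hMb l) (hMa _) (hMb _) (hL w l)
    have h8 : 0 < w ((b l : K) * y - a l) := by
      by_contra hcon
      have h9 : w ((b l : K) * y - a l) = 0 := le_antisymm (not_lt.1 hcon) (apply_nonneg _ _)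
      rw [h9, mul_zero] at h7
      have : (1 : ℝ) ≤ max 1 (w y) := le_max_left _ _
      linarith
    have h10 : max |(a l : ℝ)| |(b l : ℝ)| ≤ M := max_le (hMa l) (hMb l)
    have h11 := one_le_max (hp.cop l)
    refine Real.log_le_log ?_ ?_
    · have : (0 : ℝ) < max 1 (w y) := lt_of_lt_of_le one_pos (le_max_left _ _)
      positivity
    · rw [div_le_iff₀ h8]
      calc max 1 (w y) * max |(a l : ℝ)| |(b l : ℝ)|
          ≤ (2 * M * w ((b l : K) * y - a l)) * M :=
            mul_le_mul h7 h10 (by linarith) (by positivity)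
        _ = 2 * M ^ 2 * w ((b l : K) * y - a l) := by ring
  have hsum : ∑ l, Prox ∅ (a l) (b l) y ≤
      ∑ i, Prox ∅ (a (e i)) (b (e i)) y + q * (d * C0) := by
    have h6 : ∑ i, Prox ∅ (a (e i)) (b (e i)) y = ∑ l ∈ U, Prox ∅ (a l) (b l) y := by
      rw [← he, Finset.sum_map]
    rw [h6, ← Finset.sum_add_sum_compl U]
    have h7 : ∑ l ∈ Uᶜ, Prox ∅ (a l) (b l) y ≤ ∑ _l ∈ Uᶜ, (d : ℝ) * C0 :=
      Finset.sum_le_sum fun l hl => hfar l (Finset.mem_compl.1 hl)
    rw [Finset.sum_const, nsmul_eq_mul] at h7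
    have h8 : ((Uᶜ).card : ℝ) ≤ q := by
      have := Finset.card_le_univ (Uᶜ)
      rw [Fintype.card_fin] at this
      exact_mod_cast this
    have h9 : ((Uᶜ).card : ℝ) * (d * C0) ≤ q * (d * C0) :=
      mul_le_mul_of_nonneg_right h8 (by positivity)
    linarith
  linarith

/-- **upper bound at one place** -/
theorem infUpCount (d q : ℕ) (hd : 2 ≤ d) (hq : d ≤ q) (a b : Fin q → ℤ) (hp : Pts a b)
    (κ c δ : ℝ) (h1 : 0 ≤ κ) (h2 : κ ≤ d) (hδ : 0 < δ) :
    ∃ C : ℝ, ∀ B : ℝ, 1 ≤ B → (ExcP d ∅ a b κ c B).Finite ∧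
      ((ExcP d ∅ a b κ c B).ncard : ℝ) ≤ C * B ^ ((d : ℝ) * (d + 1 - κ) + δ) := by
  classical
  obtain ⟨C1, hC1⟩ := infUp d q (by omega) hq a b hp
  have hpe : ∀ e : Fin d ↪ Fin q, Pts (fun i => a (e i)) (fun i => b (e i)) := fun e =>
    ⟨fun i => hp.cop _, fun i j hij => hp.ind _ _ fun h => hij (e.injective h)⟩
  have key : ∀ e : Fin d ↪ Fin q, ∃ C : ℝ, ∀ B : ℝ, 1 ≤ B →
      (ExcP d ∅ (fun i => a (e i)) (fun i => b (e i)) κ (c + C1) B).Finite ∧
      ((ExcP d ∅ (fun i => a (e i)) (fun i => b (e i)) κ (c + C1) B).ncard : ℝ) ≤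
        C * B ^ ((d : ℝ) * (d + 1 - κ) + δ) := by
    intro e
    obtain ⟨C, -, hC⟩ := up1' d d hd (by omega) (fun i => a (e i)) (fun i => b (e i)) (hpe e) ∅ κ
      (c + C1 + ∑ i, d * Real.log (max |(a (e i) : ℝ)| |(b (e i) : ℝ)|)) δ h1 h2 hδ
    refine ⟨C, fun B hB => ?_⟩
    obtain ⟨h5, h6⟩ := hC B hB
    have h7 := sub' d d hd (fun i => a (e i)) (fun i => b (e i)) (hpe e) ∅ κ (c + C1) B
    refine ⟨h5.subset h7, le_trans ?_ h6⟩
    exact_mod_cast Set.ncard_le_ncard h7 h5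
  choose C hC using key
  refine ⟨∑ e, C e, fun B hB => ?_⟩
  have hfin : (⋃ e : Fin d ↪ Fin q,
      ExcP d ∅ (fun i => a (e i)) (fun i => b (e i)) κ (c + C1) B).Finite :=
    Set.finite_iUnion fun e => (hC e B hB).1
  refine ⟨hfin.subset (hC1 κ c B), ?_⟩
  have h3 : (ExcP d ∅ a b κ c B).ncard ≤ ∑ e : Fin d ↪ Fin q,
      (ExcP d ∅ (fun i => a (e i)) (fun i => b (e i)) κ (c + C1) B).ncard := by
    refine (Set.ncard_le_ncard (hC1 κ c B) hfin).trans ?_
    have h4 := Finset.set_ncard_biUnion_le (Finset.univ : Finset (Fin d ↪ Fin q))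
      (fun e => ExcP d ∅ (fun i => a (e i)) (fun i => b (e i)) κ (c + C1) B)
    simpa using h4
  calc ((ExcP d ∅ a b κ c B).ncard : ℝ) ≤ ((∑ e : Fin d ↪ Fin q,
      (ExcP d ∅ (fun i => a (e i)) (fun i => b (e i)) κ (c + C1) B).ncard : ℕ) : ℝ) := by
        exact_mod_cast h3
    _ = ∑ e : Fin d ↪ Fin q,
      ((ExcP d ∅ (fun i => a (e i)) (fun i => b (e i)) κ (c + C1) B).ncard : ℝ) := by
        push_cast; rfl
    _ ≤ ∑ e : Fin d ↪ Fin q, C e * B ^ ((d : ℝ) * (d + 1 - κ) + δ) :=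
        Finset.sum_le_sum fun e _ => (hC e B hB).2
    _ = _ := by rw [Finset.sum_mul]

/-- **lower bound, any number of points** -/
theorem infLowCount (d q : ℕ) (hd : 2 ≤ d) (hq : d ≤ q) (a b : Fin q → ℤ) (hp : Pts a b)
    (T : Finset ℕ) (κ c : ℝ) (h1 : 0 ≤ κ) (h2 : κ < d)
    (hfin : ∀ B : ℝ, 1 ≤ B → (ExcP d T a b κ c B).Finite) :
    ∃ C B0 : ℝ, 0 < C ∧ ∀ B : ℝ, B0 ≤ B →
      C * B ^ ((d : ℝ) * (d + 1 - κ)) ≤ ((ExcP d T a b κ c B).ncard : ℝ) := by
  classical
  let e : Fin d ↪ Fin q := Fin.castLEEmb hq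
  have hpe : Pts (fun i => a (e i)) (fun i => b (e i)) :=
    ⟨fun i => hp.cop _, fun i j hij => hp.ind _ _ fun h => hij (e.injective h)⟩
  obtain ⟨C, B0, hC, h⟩ := low2' d d hd (by omega) le_rfl (fun i => a (e i)) (fun i => b (e i)) hpe T κ
    (c - q * (d * Real.log 2)) h1 h2
  refine ⟨C, max 1 B0, hC, fun B hB => (h B ((le_max_right _ _).trans hB)).trans ?_⟩
  have h3 := infLow d q a b T κ c B e
  exact_mod_cast Set.ncard_le_ncard h3 (hfin B ((le_max_left _ _).trans hB))

end Pool.Agent.H42.AP
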