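import Pool.Agent.H42.AP.Defs

/-! AP-NR (helper86): the values have no common prime factor `p ≥ d`. -/

set_option autoImplicit false

open NumberField IsDedekindDomain Polynomial

namespace Pool.Agent.H42.AP

namespace NRx

variable {K : Type} [Field K] [NumberField K]

lemma card_le (p : ℕ) (hp : p.Prime) (s : Finset (HeightOneSpectrum (𝓞 K)))
    (hs : ∀ v ∈ s, ((p : ℕ) : 𝓞 K) ∈ v.asIdeal) : s.card ≤ Module.finrank ℚ K := by
  classical
  have h1 : ∏ v ∈ s, v.asIdeal ∣ Ideal.span {((p : ℕ) : 𝓞 K)} := by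
    apply Finset.prod_dvd_of_coprime
    · intro v _ w _ hvw
      rw [Function.onFun, Ideal.isCoprime_iff_sup_eq]
      exact Ideal.IsMaximal.coprime_of_ne v.isMaximal w.isMaximal
        (fun h => hvw (HeightOneSpectrum.ext h))
    · intro v hv
      rw [Ideal.dvd_span_singleton]
      exact hs v hv
  have h2 : Ideal.absNorm (Ideal.span {((p : ℕ) : 𝓞 K)}) = p ^ Module.finrank ℚ K := by
    rw [← RingOfIntegers.rank, ← Ideal.absNorm_span_natCast]
  have h3 := map_dvd Ideal.absNorm h1
  rw [h2, map_prod] at h3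
  have h4 : ∀ v ∈ s, p ≤ Ideal.absNorm v.asIdeal := by
    intro v hv
    have h5 : Ideal.absNorm v.asIdeal ∣ p ^ Module.finrank ℚ K := by
      rw [← h2]
      exact map_dvd Ideal.absNorm ((Ideal.dvd_span_singleton).mpr (hs v hv))
    obtain ⟨i, -, hi⟩ := (Nat.dvd_prime_pow hp).mp h5
    have h6 : Ideal.absNorm v.asIdeal ≠ 1 := by
      rw [Ne, Ideal.absNorm_eq_one_iff]
      exact v.isPrime.ne_top
    rcases Nat.eq_zero_or_pos i with h0 | h0
    · rw [h0, pow_zero] at hi
      exact absurd hi h6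
    · rw [hi]
      exact Nat.le_self_pow h0.ne' p
  have h7 : p ^ s.card ≤ p ^ Module.finrank ℚ K := by
    calc p ^ s.card = ∏ _v ∈ s, p := by rw [Finset.prod_const]
      _ ≤ ∏ v ∈ s, Ideal.absNorm v.asIdeal := Finset.prod_le_prod' h4
      _ ≤ p ^ Module.finrank ℚ K := Nat.le_of_dvd (pow_pos hp.pos _) h3
  exact (Nat.pow_le_pow_iff_right hp.one_lt).mp h7

lemma close_le {t : ℤ} {y : K} {v : HeightOneSpectrum (𝓞 K)} (h : Close t 1 y v) :
    FinitePlace.mk v y ≤ 1 ∧ FinitePlace.mk v (y - t) < 1 := by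
  unfold Close at h
  rw [Int.cast_one, one_mul] at h
  have ht : FinitePlace.mk v (t : K) ≤ 1 := by
    have := FinitePlace.norm_le_one K v (t : 𝓞 K)
    rw [FinitePlace.mk_apply]
    simpa using this
  have h1 : FinitePlace.mk v y ≤ 1 := by
    by_contra hy
    push Not at hy
    rw [max_eq_right hy.le] at h
    have h2 := FinitePlace.add_le (FinitePlace.mk v) (y - t) t
    rw [sub_add_cancel] at h2
    exact absurd (h2.trans_lt (max_lt h (ht.trans_lt hy))) (lt_irrefl _)
  rw [max_eq_left h1] at h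
  exact ⟨h1, h⟩

lemma close_inf {y : K} {v : HeightOneSpectrum (𝓞 K)} (h : Close 1 0 y v) :
    1 < FinitePlace.mk v y := by
  unfold Close at h
  rw [Int.cast_zero, zero_mul, zero_sub, Int.cast_one, map_neg_eq_map, map_one] at h
  rcases lt_max_iff.mp h with h | h
  · exact absurd h (lt_irrefl _)
  · exact h

lemma mem_of_close {t t' : ℤ} {y : K} {v : HeightOneSpectrum (𝓞 K)} (h : Close t 1 y v)
    (h' : Close t' 1 y v) : ((t - t' : ℤ) : 𝓞 K) ∈ v.asIdeal := by
  have h1 := (close_le h).2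
  have h2 := (close_le h').2
  have h3 := FinitePlace.add_le (FinitePlace.mk v) (-(y - t)) (y - t')
  rw [show -(y - (t : K)) + (y - (t' : K)) = ((t - t' : ℤ) : K) by push_cast; ring,
    map_neg_eq_map] at h3
  have h4 := h3.trans_lt (max_lt h1 h2)
  rw [FinitePlace.mk_apply] at h4
  rw [← FinitePlace.norm_lt_one_iff_mem K]
  simpa using h4

end NRx

open NRx in
theorem nr : S_NR := by
  classical
  intro K _ _ y n hDen hne p hp hfr
  by_contra hcon
  push Not at hcon
  have key : ∀ a b : ℤ, IsCoprime a b → ∃ v : HeightOneSpectrum (𝓞 K), Close a b y v ∧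
      ((p : ℕ) : 𝓞 K) ∈ v.asIdeal := by
    intro a b hab
    obtain ⟨m, hm⟩ := hDen.val a b hab
    exact hDen.pr a b m hab (hne a b hab) hm p hp (hcon a b m hab hm)
  obtain ⟨v0, hv0, hv0'⟩ := key 1 0 isCoprime_one_left
  choose f hf hf' using fun t : ℕ => key t 1 isCoprime_one_right
  have hinj : Set.InjOn f (Finset.range p : Finset ℕ) := by
    intro t ht t' ht' htt
    rw [Finset.coe_range, Set.mem_Iio] at ht ht'
    by_contra hne'
    have h1 := hf t
    have h2 := hf t'
    rw [← htt] at h2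
    have h3 := mem_of_close h1 h2
    have h4 : IsCoprime ((t : ℤ) - t') (p : ℤ) := by
      rw [isCoprime_comm, (Nat.prime_iff_prime_int.mp hp).coprime_iff_not_dvd]
      intro hdvd
      have h5 := Int.eq_zero_of_abs_lt_dvd hdvd (by rw [abs_lt]; omega)
      omega
    obtain ⟨u, w, huw⟩ := h4
    apply (f t).isPrime.ne_top
    rw [Ideal.eq_top_iff_one]
    have h5 : (1 : 𝓞 K) = (u : 𝓞 K) * ((t - t' : ℤ) : 𝓞 K) + (w : 𝓞 K) * ((p : ℕ) : 𝓞 K) := by
      exact_mod_cast (congrArg (Int.cast : ℤ → 𝓞 K) huw).symm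
    rw [h5]
    exact Ideal.add_mem _ (Ideal.mul_mem_left _ _ h3) (Ideal.mul_mem_left _ _ (hf' t))
  have hnot : v0 ∉ (Finset.range p).image f := by
    intro h
    obtain ⟨t, -, ht⟩ := Finset.mem_image.mp h
    have h1 := (close_le (hf t)).1
    rw [ht] at h1
    exact absurd (close_inf hv0) (not_lt.mpr h1)
  have hcard := card_le p hp (insert v0 ((Finset.range p).image f)) (by
    intro v hv
    rcases Finset.mem_insert.mp hv with rfl | hv
    · exact hv0'
    · obtain ⟨t, -, rfl⟩ := Finset.mem_image.mp hv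
      exact hf' t)
  rw [Finset.card_insert_of_notMem hnot, Finset.card_image_of_injOn hinj, Finset.card_range] at hcard
  omega

end Pool.Agent.H42.AP
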